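import Mathlib

set_option autoImplicit false

/-!
# Sets which meet the differences of all sets of `r + 1` points of an interval
-/

namespace Pool.Agent.U28.SF

open Finset Filter

open Classical in
lemma clique (D : ℕ → Prop) (T F : ℕ) (hF : ((Icc 1 T).filter D).card = F) : ∀ j : ℕ,
    j * (1 + F) < ((Icc 1 T).filter (fun k => ¬ D k)).card + (1 + F) →
    ∃ A V : Finset ℕ, A ⊆ range (T + 1) ∧ V ⊆ Icc 1 T ∧ (∀ a ∈ A, ∀ b ∈ A, a < b → ¬ D (b - a)) ∧
      (∀ a ∈ A, ∀ v ∈ V, a ≠ v ∧ (a < v → ¬ D (v - a)) ∧ (v < a → ¬ D (a - v))) ∧ A.card = j + 1 ∧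
      ((Icc 1 T).filter (fun k => ¬ D k)).card ≤ V.card + j * (1 + F) := by
  intro j
  induction j with
  | zero =>
    intro _
    refine ⟨{0}, (Icc 1 T).filter (fun k => ¬ D k), ?_, filter_subset _ _, ?_, ?_, card_singleton _, by omega⟩
    · intro x hx
      rw [mem_singleton] at hx
      subst hx
      exact mem_range.2 (by omega)
    · intro a ha b hb hab
      rw [mem_singleton] at ha hb
      omega
    · intro a ha v hv
      rw [mem_singleton] at ha
      subst ha
      rw [mem_filter, mem_Icc] at hv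
      refine ⟨by omega, fun _ => ?_, fun h => by omega⟩
      rw [Nat.sub_zero]
      exact hv.2
  | succ j ih =>
    intro hj
    have e1 : (j + 1) * (1 + F) = j * (1 + F) + (1 + F) := by ring
    obtain ⟨A, V, h1, h2, h3, h4, h5, h6⟩ := ih (by omega)
    have hV : V.Nonempty := by
      rw [← card_pos]
      omega
    set m := V.max' hV with hm
    have hmV : m ∈ V := max'_mem V hV
    have hmle : ∀ v ∈ V, v ≤ m := fun v hv => le_max' V v hv
    have hmT := mem_Icc.1 (h2 hmV)
    have hmA : m ∉ A := fun h => (h4 m h m hmV).1 rfl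
    refine ⟨insert m A, V.filter (fun v => v < m ∧ ¬ D (m - v)), ?_, (filter_subset _ _).trans h2, ?_, ?_, ?_, ?_⟩
    · intro x hx
      rcases mem_insert.1 hx with rfl | hx
      · exact mem_range.2 (by omega)
      · exact h1 hx
    · intro a ha b hb hab
      rcases mem_insert.1 ha with rfl | ha'
      · rcases mem_insert.1 hb with rfl | hb'
        · omega
        · exact (h4 b hb' m hmV).2.2 hab
      · rcases mem_insert.1 hb with rfl | hb'
        · exact (h4 a ha' m hmV).2.1 hab
        · exact h3 a ha' b hb' hab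
    · intro a ha v hv
      rw [mem_filter] at hv
      have hvm : v < m := hv.2.1
      rcases mem_insert.1 ha with rfl | ha'
      · exact ⟨hvm.ne', fun h => absurd h (not_lt.2 hvm.le), fun _ => hv.2.2⟩
      · exact h4 a ha' v hv.1
    · rw [card_insert_of_notMem hmA, h5]
    · have hsplit : V ⊆ insert m (V.filter (fun v => v < m ∧ ¬ D (m - v)) ∪
          V.filter (fun v => v < m ∧ D (m - v))) := by
        intro v hv
        rw [mem_insert, mem_union, mem_filter, mem_filter]
        rcases Nat.lt_or_ge v m with h | h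
        · by_cases hd : D (m - v)
          · exact Or.inr (Or.inr ⟨hv, h, hd⟩)
          · exact Or.inr (Or.inl ⟨hv, h, hd⟩)
        · exact Or.inl (le_antisymm (hmle v hv) h)
      have hinj : (V.filter (fun v => v < m ∧ D (m - v))).card ≤ F := by
        rw [← hF]
        apply card_le_card_of_injOn (fun v => m - v)
        · intro v hv
          rw [mem_coe, mem_filter] at hv
          have hv1 := mem_Icc.1 (h2 hv.1)
          have hvm := hv.2.1
          have e3 : 1 ≤ m - v ∧ m - v ≤ T := by omega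
          rw [mem_coe, mem_filter, mem_Icc]
          exact ⟨e3, hv.2.2⟩
        · intro v hv w hw hvw
          rw [mem_coe, mem_filter] at hv hw
          have hvw' : m - v = m - w := hvw
          have g1 := hv.2.1
          have g2 := hw.2.1
          omega
      have := card_le_card hsplit
      have h7 := card_insert_le m (V.filter (fun v => v < m ∧ ¬ D (m - v)) ∪ V.filter (fun v => v < m ∧ D (m - v)))
      have h8 := card_union_le (V.filter (fun v => v < m ∧ ¬ D (m - v))) (V.filter (fun v => v < m ∧ D (m - v)))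
      omega

open Classical in
/-- a set which meets the differences of every set of `r + 1` points of `[0, T]` has at least
`(T - (r - 1)) / r` elements in `[1, T]` -/
theorem finite_dense (r : ℕ) (hr : 1 ≤ r) (D : ℕ → Prop) (T : ℕ)
    (h : ∀ A ⊆ range (T + 1), A.card = r + 1 → ∃ a ∈ A, ∃ b ∈ A, a < b ∧ D (b - a)) :
    T ≤ r * ((Icc 1 T).filter D).card + (r - 1) := by
  by_contra hcon
  push Not at hcon
  obtain ⟨F, hF⟩ : ∃ F, ((Icc 1 T).filter D).card = F := ⟨_, rfl⟩
  rw [hF] at hcon
  have hS : F + ((Icc 1 T).filter (fun k => ¬ D k)).card = T := by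
    rw [← hF, card_filter_add_card_filter_not, Nat.card_Icc]
    omega
  obtain ⟨A, V, h1, h2, h3, h4, h5, h6⟩ := clique D T F hF r (by
    obtain ⟨s, rfl⟩ : ∃ s, r = s + 1 := ⟨r - 1, by omega⟩
    have e1 : (s + 1) * (1 + F) = (s + 1) * F + (s + 1) := by ring
    rw [e1]
    omega)
  obtain ⟨a, ha, b, hb, hab, hD⟩ := h A h1 h5
  exact h3 a ha b hb hab hD

/-- one constant for finitely many statements -/
lemma unif {ι : Type} [DecidableEq ι] (Q : ι → ℝ → ℕ → ℕ → Prop) (n₀ : ℕ)
    (mono : ∀ i κ κ' B B' N, n₀ ≤ N → κ' ≤ κ → B ≤ B' → Q i κ B N → Q i κ' B' N) (s : Finset ι)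
    (h : ∀ i ∈ s, ∃ κ : ℝ, 0 < κ ∧ ∃ B : ℕ, ∀ᶠ N : ℕ in atTop, Q i κ B N) :
    ∃ κ : ℝ, 0 < κ ∧ ∃ B : ℕ, ∀ᶠ N : ℕ in atTop, ∀ i ∈ s, Q i κ B N := by
  induction s using Finset.induction_on with
  | empty => exact ⟨1, one_pos, 0, Eventually.of_forall fun N i hi => absurd hi (notMem_empty i)⟩
  | insert a s ha ih =>
    obtain ⟨κ1, hκ1, B1, h1⟩ := ih fun i hi => h i (mem_insert_of_mem hi)
    obtain ⟨κ2, hκ2, B2, h2⟩ := h a (mem_insert_self a s)
    refine ⟨min κ1 κ2, lt_min hκ1 hκ2, max B1 B2, ?_⟩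
    filter_upwards [h1, h2, eventually_ge_atTop n₀] with N g1 g2 g3
    intro i hi
    rcases mem_insert.1 hi with rfl | hi
    · exact mono _ _ _ _ _ _ g3 (min_le_right _ _) (le_max_right _ _) g2
    · exact mono _ _ _ _ _ _ g3 (min_le_left _ _) (le_max_left _ _) (g1 i hi)

lemma frequently_finset_exists {ι : Type} (s : Finset ι) (Q : ι → ℕ → Prop)
    (h : ∀ᶠ N : ℕ in atTop, ∃ i ∈ s, Q i N) : ∃ i ∈ s, ∃ᶠ N : ℕ in atTop, Q i N := by
  by_contra hcon
  push Not at hcon
  have h1 : ∀ i ∈ s, ∀ᶠ N : ℕ in atTop, ¬ Q i N := fun i hi => not_frequently.1 (by simpa using hcon i hi)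
  have h2 : ∀ᶠ N : ℕ in atTop, ∀ i ∈ s, ¬ Q i N := (eventually_all_finset s).2 h1
  obtain ⟨N, hN, hN'⟩ := (h.and h2).exists
  obtain ⟨i, hi, hQ⟩ := hN
  exact hN' i hi hQ

end Pool.Agent.U28.SF
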