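import Pool.Agent.U28.SF.SF7

set_option autoImplicit false

/-!
# Prime tuples with arbitrary shifts in all short intervals
-/

namespace Pool.Agent.U28.SF

open Finset Filter Topology
open Pool.Agent.H387R2
open Pool.Agent.U28.PG (AllLengths FirstAP)
open Pool.Agent.Y840.PT (sh prim_sh SL_sh)

set_option maxHeartbeats 4000000 in
open Classical in
/-- **Dense sets of prime tuples.**  There is no condition on the size of the shifts. -/
theorem tuples_all (l m : ℕ) (hl : 1 ≤ l) (δ : ℝ) (hδ : 0 < δ) : ∃ κ1 : ℝ, 0 < κ1 ∧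
    ∃ B : ℕ, ∀ᶠ N : ℕ in atTop, ∀ T : Finset ℕ, T.card = l → 0 < Uni.CT T →
    ∀ A : Finset ℕ, (∀ n ∈ A, 1 ≤ n ∧ n ≤ N ∧ ∀ t ∈ T, (n + t).Prime) →
    δ * (Uni.CT T * (N / Real.log N ^ l)) ≤ A.card →
    AllLengths κ1 (Uni.CT T / Real.log N ^ l) N (FirstAP m (Real.log N ^ B) A) := by
  obtain ⟨κ1, hκ1, B, h⟩ := forms_all l m hl 0 δ le_rfl hδ
  refine ⟨κ1, hκ1, B, ?_⟩
  filter_upwards [h] with N hN
  intro T hT hCT A hA hAc
  have key := hN (T.map sh) (prim_sh T) (by rw [card_map, hT]) (by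
    intro L hL
    rw [Finset.mem_map] at hL
    obtain ⟨t, ht, rfl⟩ := hL
    show ((1 : ℕ) : ℝ) ≤ (N : ℝ) ^ (0 : ℝ)
    simp) (by rw [SL_sh]; exact hCT) A (by
    intro n hn
    obtain ⟨a1, a2, a3⟩ := hA n hn
    refine ⟨a1, a2, ?_⟩
    intro L hL
    rw [Finset.mem_map] at hL
    obtain ⟨t, ht, rfl⟩ := hL
    show (1 * n + t).Prime
    rw [one_mul]
    exact a3 t ht) (by rw [SL_sh]; exact hAc)
  rw [SL_sh] at key
  exact key

end Pool.Agent.U28.SF
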