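import Mathlib
import Pool.Agent.X58.IV.Up
import Pool.Agent.X58.IV.Vol
import Pool.Agent.Y79.HS.Gav
import Pool.Agent.Y79.HS.Loc
import Pool.Agent.Y843.HS.CorA
import Pool.Agent.Y843.HS.Gd

set_option autoImplicit false

/-!
# Pairs at a given distance in an arbitrary sifted set
-/

namespace Pool.Agent.U28.SF

open Finset Filter Topology
open Pool.Agent.Y843.HS (Pr VV Sv Om Co Coll Gd Dp mem_Om_iff card_Om)
open Pool.Agent.X58.IV (Adm upZ VV_split VV_pos VV_le_one fac)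

/-- the set `S ⊆ (A, A + X]` avoids the classes of `Z p` for all primes `p ≤ X ^ κ` -/
def Free (Z : ℕ → Finset ℕ) (κ : ℝ) (X : ℕ) (S : Finset ℕ) : Prop :=
  ∀ n ∈ S, ∀ p : ℕ, p.Prime → (p : ℝ) ≤ (X : ℝ) ^ κ → n % p ∉ Z p

/-- the primes of collision of the shift `h` -/
lemma coll_le (K : ℕ) (Z : ℕ → Finset ℕ) (s z h : ℕ) : Coll K Z s z ![0, h] ≤ Gd K Z s z h := by
  classical
  unfold Coll
  rw [Pool.Agent.Y843.HS.Gd_eq]
  apply Pool.Agent.Y843.HS.prod_fac_mono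
  intro p hp
  rw [mem_filter] at hp
  obtain ⟨hp1, i, j, hij, c, hc1, hc2⟩ := hp
  unfold Dp
  rw [mem_filter]
  refine ⟨hp1, ?_⟩
  have key : ∃ c : ℕ, (c + 0) % p ∈ Z p ∧ (c + h) % p ∈ Z p := by
    fin_cases i <;> fin_cases j
    · exact absurd rfl hij
    · exact ⟨c, by simpa using hc1, by simpa using hc2⟩
    · exact ⟨c, by simpa using hc2, by simpa using hc1⟩
    · exact absurd rfl hij
  obtain ⟨c, hc1, hc2⟩ := key
  refine ⟨_, hc2, _, hc1, ?_⟩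
  have e1 : (p : ℤ) ∣ ((c : ℤ) + h) - ((c : ℤ) + h) % p := Int.dvd_self_sub_emod
  have e2 : (p : ℤ) ∣ ((c : ℤ) + 0) - ((c : ℤ) + 0) % p := Int.dvd_self_sub_emod
  have e3 := dvd_sub e1 e2
  push_cast
  have e4 : (h : ℤ) - (((c : ℤ) + h) % p - ((c : ℤ) + 0) % p) =
    ((c : ℤ) + h - ((c : ℤ) + h) % p) - ((c : ℤ) + 0 - ((c : ℤ) + 0) % p) := by ring
  rw [e4]
  exact e3

open Classical in
/-- **the number of pairs at distance `h`** -/
theorem pair_up (l : ℕ) (κ : ℝ) (hκ : 0 < κ) : ∃ (C : ℝ) (K s0 : ℕ), 0 < C ∧ 1 ≤ s0 ∧ ∃ X₀ : ℕ, ∀ X A : ℕ, X₀ ≤ X →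
    ∀ Z : ℕ → Finset ℕ, Adm l Z → ∀ S : Finset ℕ, S ⊆ Ioc A (A + X) → Free Z κ X S → ∀ h : ℕ,
    ((S.filter (fun n => n + h ∈ S)).card : ℝ) ≤
      C * X * VV Z 0 ⌊(X : ℝ) ^ κ⌋₊ ^ 2 * Gd K Z s0 ⌊(X : ℝ) ^ κ⌋₊ h := by
  obtain ⟨C1, hC1, X1, hup⟩ := upZ (2 * l) κ hκ
  obtain ⟨K, hK⟩ := Pool.Agent.Y79.HS.loc l 2
  obtain ⟨s1, hs1⟩ := hK 1 one_pos
  set s0 := max s1 1 with hs0
  have hs01 : 1 ≤ s0 := le_max_right _ _
  set D : ℕ := ∏ p ∈ Pr 0 s0, p with hD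
  have hD1 : 1 ≤ D := Nat.pos_of_ne_zero (prod_ne_zero_iff.2 fun p hp => (mem_filter.1 hp).2.ne_zero)
  have hD0 : (0 : ℝ) < D := by exact_mod_cast hD1
  obtain ⟨X2, hX2⟩ := eventually_atTop.1 (Pool.Agent.Y840.PT.floor_pow hκ (max s0 (2 * l)))
  refine ⟨C1 * D ^ 2, K, s0, by positivity, hs01, max X1 X2, ?_⟩
  intro X A hX Z hZ S hS hfree h
  obtain ⟨h1, h2, h3⟩ := hX2 X ((le_max_right _ _).trans hX)
  set z := ⌊(X : ℝ) ^ κ⌋₊ with hz
  have hzX : (z : ℝ) ≤ (X : ℝ) ^ κ := Nat.floor_le (Real.rpow_nonneg (Nat.cast_nonneg _) _)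
  have hsz : s0 ≤ z := (le_max_left _ _).trans h1
  have hlz : 2 * l ≤ z := (le_max_right _ _).trans h1
  have hV0 := VV_pos hZ 0 z
  have hG0 : 0 < Gd K Z s0 z h := lt_of_lt_of_le one_pos (Pool.Agent.Y843.HS.one_le_Gd K _)
  set S' := S.filter (fun n => n + h ∈ S) with hS'
  set Z' : ℕ → Finset ℕ := Om Z ![0, h] with hZ'
  have hmem : ∀ n ∈ S', ∀ p : ℕ, p.Prime → (p : ℝ) ≤ (X : ℝ) ^ κ → n % p ∉ Z' p := by
    intro n hn p hp hpX hcon
    rw [hS', mem_filter] at hn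
    rw [hZ', mem_Om_iff Z _ hp.pos] at hcon
    obtain ⟨i, hi⟩ := hcon
    fin_cases i
    · exact hfree n hn.1 p hp hpX (by simpa using hi)
    · exact hfree (n + h) hn.2 p hp hpX (by simpa using hi)
  have hcard : ∀ p : ℕ, p.Prime → (Z' p).card ≤ 2 * l := fun p hp => card_Om Z _ (hZ p hp).1
  have hlt : ∀ p : ℕ, ∀ c ∈ Z' p, c < p := by
    intro p c hc
    rw [hZ'] at hc
    unfold Om at hc
    rw [mem_filter, mem_range] at hc
    exact hc.1
  by_cases hadm : ∀ p : ℕ, p.Prime → (Z' p).card < p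
  · have hZadm : Adm (2 * l) Z' := fun p hp => ⟨hcard p hp, hadm p hp, hlt p⟩
    have k1 := hup X A ((le_max_left _ _).trans hX) Z' hZadm S' ((filter_subset _ _).trans hS) hmem
    have k2 : VV Z' 0 z ≤ VV Z' s0 z := by
      rw [VV_split Z' (Nat.zero_le s0) hsz]
      have e1 := VV_le_one hZadm 0 s0
      have e2 := VV_pos hZadm s0 z
      nlinarith
    have k3 : VV Z' s0 z ≤ VV Z s0 z ^ 2 * Coll K Z s0 z ![0, h] := by
      refine (hs1 s0 z (le_max_left _ _) Z ?_ ![0, h]).2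
      intro p hp
      have hpp := (mem_filter.1 hp).2
      exact ⟨(hZ p hpp).1, (hZ p hpp).2.2⟩
    have k4 : VV Z s0 z ≤ D * VV Z 0 z := by
      rw [VV_split Z (Nat.zero_le s0) hsz]
      have h5 : 1 / (D : ℝ) ≤ VV Z 0 s0 := by
        unfold VV
        have e : (1 : ℝ) / D = ∏ p ∈ Pr 0 s0, 1 / (p : ℝ) := by
          rw [prod_div_distrib, prod_const_one, hD]
          push_cast
          rfl
        rw [e]
        apply Finset.prod_le_prod
        · intro p _; positivity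
        · intro p hp
          exact (fac hZ (mem_filter.1 hp).2).1
      have e2 := VV_pos hZ s0 z
      calc VV Z s0 z = D * (1 / D * VV Z s0 z) := by field_simp
        _ ≤ _ := by gcongr
    have k5 := coll_le K Z s0 z h
    have e0 := VV_pos hZ s0 z
    have k6 : VV Z' 0 z ≤ (D * VV Z 0 z) ^ 2 * Gd K Z s0 z h := by
      refine k2.trans (k3.trans ?_)
      have hc0 : 0 ≤ Coll K Z s0 z ![0, h] := zero_le_one.trans (Pool.Agent.Y843.HS.one_le_Coll K _)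
      calc VV Z s0 z ^ 2 * Coll K Z s0 z ![0, h] ≤ (D * VV Z 0 z) ^ 2 * Coll K Z s0 z ![0, h] := by gcongr
        _ ≤ _ := by gcongr
    calc ((S'.card : ℕ) : ℝ) ≤ C1 * X * VV Z' 0 z := k1
      _ ≤ C1 * X * ((D * VV Z 0 z) ^ 2 * Gd K Z s0 z h) := by gcongr
      _ = _ := by ring
  · push Not at hadm
    obtain ⟨p, hp, hpc⟩ := hadm
    have hp2l : p ≤ 2 * l := hpc.trans (hcard p hp)
    have hpX : (p : ℝ) ≤ (X : ℝ) ^ κ := le_trans (by exact_mod_cast hp2l.trans hlz) hzX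
    have hall : Z' p = range p := by
      apply eq_of_subset_of_card_le
      · intro c hc
        exact mem_range.2 (hlt p c hc)
      · rw [card_range]; exact hpc
    have hemp : S' = ∅ := by
      rw [eq_empty_iff_forall_notMem]
      intro n hn
      apply hmem n hn p hp hpX
      rw [hall, mem_range]
      exact Nat.mod_lt _ hp.pos
    rw [hemp, card_empty, Nat.cast_zero]
    positivity

end Pool.Agent.U28.SF
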