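import Pool.Agent.U28.SF.SF7
import Pool.Agent.X34.E.E4

set_option autoImplicit false

/-!
# Iterates of `2 x - 1` in all short intervals
-/

namespace Pool.Agent.U28.SF

open Finset Filter Topology
open Pool.Agent.Y843.HS (Pr VV)
open Pool.Agent.X58.IV (Adm VV_pos)
open Pool.Agent.U28.PG (AllLengths FirstAP)
open Pool.Agent.W218.MU (SL Prim w w_le)
open Pool.Agent.Y840.PT (ZT card_ZT mem_ZT V_le floor_pow)

/-- the forms `2 ^ e n + 1` -/
def pw : ℕ ↪ ℕ × ℕ := ⟨fun e => (2 ^ e, 1), fun a b h => Nat.pow_right_injective le_rfl (Prod.mk.inj h).1⟩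

lemma prim_pw (E : Finset ℕ) : Prim (E.map pw) := by
  intro L hL
  rw [Finset.mem_map] at hL
  obtain ⟨e, _, rfl⟩ := hL
  exact ⟨Nat.one_le_two_pow, Nat.coprime_one_right _⟩

open Classical in
/-- the classes in terms of `p = 2 ^ u n + 1` -/
noncomputable def ZP (E : Finset ℕ) (u : ℕ) (q : ℕ) : Finset ℕ :=
  if q = 2 then {0} else (ZT (E.map pw) q).image (fun c => (2 ^ u * c + 1) % q)

lemma ZT_pw_adm {E : Finset ℕ} (hE : E.card = 45) : Adm 45 (ZT (E.map pw)) := by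
  intro p hp
  have hsub : ∀ c ∈ ZT (E.map pw) p, c < p := fun c hc => mem_range.1 (mem_filter.1 hc).1
  refine ⟨?_, ?_, hsub⟩
  · rw [card_ZT, ← hE, ← card_map (f := pw)]
    exact w_le (prim_pw E) hp
  · have h0 : (0 : ℕ) ∉ ZT (E.map pw) p := by
      intro h
      have h1 := (mem_ZT (E.map pw) hp.pos 0).1 (by rw [Nat.zero_mod]; exact h)
      obtain ⟨L, hL, hd⟩ := h1
      rw [Finset.mem_map] at hL
      obtain ⟨e, _, rfl⟩ := hL
      change p ∣ 2 ^ e * 0 + 1 at hd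
      rw [mul_zero, zero_add] at hd
      exact hp.one_lt.ne' (Nat.dvd_one.1 hd)
    calc (ZT (E.map pw) p).card < (range p).card := by
          apply card_lt_card
          rw [ssubset_iff_of_subset (fun c hc => mem_range.2 (hsub c hc))]
          exact ⟨0, mem_range.2 hp.pos, h0⟩
      _ = p := card_range p

lemma inj_pw {q u : ℕ} (hq : q.Prime) (h2 : q ≠ 2) {c c' : ℕ} (h : (2 ^ u * c + 1) % q = (2 ^ u * c' + 1) % q) :
    c % q = c' % q := by
  have h1 : 2 ^ u * c + 1 ≡ 2 ^ u * c' + 1 [MOD q] := h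
  have h3 : 2 ^ u * c ≡ 2 ^ u * c' [MOD q] := Nat.ModEq.add_right_cancel' 1 h1
  have hcop : Nat.gcd q (2 ^ u) = 1 := by
    apply Nat.Coprime.pow_right
    exact (Nat.coprime_primes hq Nat.prime_two).2 h2
  exact Nat.ModEq.cancel_left_of_coprime hcop h3

lemma ZP_adm {E : Finset ℕ} (hE : E.card = 45) (u : ℕ) : Adm 45 (ZP E u) := by
  classical
  intro p hp
  unfold ZP
  split_ifs with h2
  · subst h2
    refine ⟨by simp, by simp, ?_⟩
    intro c hc
    rw [mem_singleton] at hc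
    omega
  · obtain ⟨a1, a2, a3⟩ := ZT_pw_adm hE p hp
    refine ⟨card_image_le.trans a1, lt_of_le_of_lt card_image_le a2, ?_⟩
    intro c hc
    obtain ⟨c', _, rfl⟩ := mem_image.1 hc
    exact Nat.mod_lt _ hp.pos

lemma ZP_le {E : Finset ℕ} (hE : E.card = 45) (u z : ℕ) : VV (ZP E u) 0 z ≤ VV (ZT (E.map pw)) 0 z := by
  classical
  unfold VV
  apply Finset.prod_le_prod
  · intro p hp
    have hp0 : (0 : ℝ) < p := by exact_mod_cast (mem_filter.1 hp).2.pos
    rw [sub_nonneg, div_le_one hp0]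
    exact_mod_cast (ZP_adm hE u p (mem_filter.1 hp).2).2.1.le
  · intro p hp
    have hpp := (mem_filter.1 hp).2
    have hp0 : (0 : ℝ) < p := by exact_mod_cast hpp.pos
    have hle : (ZT (E.map pw) p).card ≤ (ZP E u p).card := by
      unfold ZP
      split_ifs with h2
      · subst h2
        have := (ZT_pw_adm hE 2 hpp).2.1
        rw [card_singleton]
        omega
      · rw [card_image_of_injOn]
        intro c hc c' hc' h
        have b1 := (ZT_pw_adm hE p hpp).2.2 c hc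
        have b2 := (ZT_pw_adm hE p hpp).2.2 c' hc'
        have := inj_pw hpp h2 h
        rwa [Nat.mod_eq_of_lt b1, Nat.mod_eq_of_lt b2] at this
    have : ((ZT (E.map pw) p).card : ℝ) / p ≤ ((ZP E u p).card : ℝ) / p := by
      gcongr
    linarith

open Classical in
lemma pig {ι : Type} [Fintype ι] (F : Finset ℕ) (P : ι → ℕ → Prop) (h : ∀ n ∈ F, ∃ i, P i n) (hF : 0 < F.card) :
    ∃ i, (F.card : ℝ) / ((Fintype.card ι : ℝ) + 1) ≤ ((F.filter (P i)).card : ℝ) := by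
  by_contra hcon
  push Not at hcon
  have hsub : F ⊆ (univ : Finset ι).biUnion (fun i => F.filter (P i)) := by
    intro n hn
    obtain ⟨i, hi⟩ := h n hn
    exact mem_biUnion.2 ⟨i, mem_univ _, mem_filter.2 ⟨hn, hi⟩⟩
  have e1 : (F.card : ℝ) ≤ ∑ i : ι, ((F.filter (P i)).card : ℝ) := by
    exact_mod_cast (card_le_card hsub).trans card_biUnion_le
  have e2 : ∑ i : ι, ((F.filter (P i)).card : ℝ) ≤ ∑ _i : ι, (F.card : ℝ) / ((Fintype.card ι : ℝ) + 1) :=
    sum_le_sum fun i _ => (hcon i).le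
  rw [sum_const, card_univ, nsmul_eq_mul] at e2
  have hF' : (0 : ℝ) < F.card := by exact_mod_cast hF
  have hc : (0 : ℝ) ≤ Fintype.card ι := Nat.cast_nonneg _
  have e3 : (Fintype.card ι : ℝ) * ((F.card : ℝ) / ((Fintype.card ι : ℝ) + 1)) < F.card := by
    rw [mul_div_assoc', div_lt_iff₀ (by linarith)]
    nlinarith
  linarith

/-- the primes `p ≤ N` for which the `k`-th iterate of `2 x - 1` is prime -/
def PP (k N : ℕ) : Finset ℕ := (Icc 1 N).filter (fun p => p.Prime ∧ (2 ^ k * (p - 1) + 1).Prime)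

set_option maxHeartbeats 8000000 in
open Classical in
/-- **one of the differences of 45 times** -/
theorem iter_all (m : ℕ) (E : Finset ℕ) (hE : E.card = 45) : ∃ κ : ℝ, 0 < κ ∧ ∃ B : ℕ, ∀ᶠ N : ℕ in atTop,
    ∃ a ∈ E, ∃ b ∈ E, a < b ∧ AllLengths κ (1 / Real.log N ^ 45) N (FirstAP m (Real.log N ^ B) (PP (b - a) N)) := by
  obtain ⟨k, hk, hdhl⟩ := Pool.Agent.X34.E.dhl45R
  set e : Fin 45 ↪o ℕ := E.orderEmbOfFin hE with he
  have hemem : ∀ i, e i ∈ E := fun i => orderEmbOfFin_mem E hE i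
  set A : Fin 45 → ℕ := fun i => 2 ^ e i with hA
  set B1 : Fin 45 → ℕ := fun _ => 1 with hB1
  have hadm : Pool.Agent.H95R2.BG.LF.AdmissibleL A B1 := by
    refine ⟨fun i => Nat.one_le_two_pow, ?_, ?_⟩
    · intro i j hij h
      simp only [hA, hB1, mul_one] at h
      exact hij (e.injective (Nat.pow_right_injective le_rfl h))
    · intro p hp
      refine ⟨0, fun i hd => ?_⟩
      simp only [hB1, mul_zero, zero_add] at hd
      exact hp.one_lt.ne' (Nat.dvd_one.1 hd)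
  obtain ⟨c, hc, hgood⟩ := hdhl A B1 hadm
  obtain ⟨Mx, hMx⟩ : ∃ Mx : ℕ, ∀ x ∈ E, x ≤ Mx := ⟨E.sup id, fun x hx => Finset.le_sup (f := id) hx⟩
  set W : ℝ := 4 * 2 ^ Mx with hW
  have hW0 : 4 ≤ W := by
    rw [hW]
    have : (1 : ℝ) ≤ 2 ^ Mx := one_le_pow₀ (by norm_num)
    linarith
  obtain ⟨C, hC, y₀, hy₀, hV⟩ := V_le 45
  set κ0 : ℝ := k / 2 with hκ0
  have hκ00 : 0 < κ0 := by positivity
  set M : ℝ := C * |SL (E.map pw)| * (2 / κ0) ^ 45 + 1 with hM
  have hM0 : 0 < M := by positivity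
  obtain ⟨W2, hW2⟩ : ∃ w : ℝ, w = (Fintype.card (Fin 45 × Fin 45) : ℝ) + 1 := ⟨_, rfl⟩
  have hW20 : 0 < W2 := by rw [hW2]; positivity
  set δ : ℝ := c / (W2 * W) with hδ
  have hδ0 : 0 < δ := by positivity
  obtain ⟨κ1, hκ1, B, X1, hap⟩ := sifted_ap 45 m κ0 1 δ M hκ00 one_pos hδ0 hM0
  refine ⟨κ1, hκ1, B, ?_⟩
  have tN : Tendsto (fun N : ℕ => (N : ℝ)) atTop atTop := tendsto_natCast_atTop_atTop
  have tL : Tendsto (fun N : ℕ => Real.log (N : ℝ)) atTop atTop := Real.tendsto_log_atTop.comp tN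
  have tW : Tendsto (fun N : ℕ => (N : ℝ) / W) atTop atTop := tN.atTop_div_const (by linarith)
  have tk : Tendsto (fun N : ℕ => (N : ℝ) ^ κ0) atTop atTop := (tendsto_rpow_atTop hκ00).comp tN
  filter_upwards [eventually_ge_atTop X1, tW.eventually hgood, floor_pow hκ00 y₀, tL.eventually_ge_atTop (max M 1),
    tN.eventually_ge_atTop (W ^ 2 + 4), tk.eventually_ge_atTop 2, tW.eventually_ge_atTop 3]
    with N h1 h2 h3 h4 h5 h6 h7
  obtain ⟨f1, f2, f3⟩ := h3
  set L := Real.log (N : ℝ) with hL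
  have hL1 : 1 ≤ L := (le_max_right _ _).trans h4
  have hLM : M ≤ L := (le_max_left _ _).trans h4
  have hL0 : 0 < L := by linarith
  have hNr : (4 : ℝ) ≤ N := by nlinarith [sq_nonneg W]
  have hN0 : (0 : ℝ) < N := by linarith
  set X : ℝ := (N : ℝ) / W with hX
  have hWX : N = W * X := by rw [hX]; field_simp
  have hX0 : 0 < X := by linarith
  have hXN : X ≤ N := by
    rw [hX, div_le_iff₀ (by linarith)]
    nlinarith
  have hlX : 0 < Real.log X := Real.log_pos (by linarith)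
  have hlXL : Real.log X ≤ L := Real.log_le_log hX0 hXN
  -- all prime numbers up to `N ^ κ0` are small enough
  have hpow : (N : ℝ) ^ κ0 ≤ X ^ k := by
    have e1 : (N : ℝ) ^ (1 / 2 : ℝ) ≤ X := by
      rw [← Real.sqrt_eq_rpow, Real.sqrt_le_left hX0.le, hX, div_pow, le_div_iff₀ (by positivity)]
      nlinarith
    calc (N : ℝ) ^ κ0 = ((N : ℝ) ^ (1 / 2 : ℝ)) ^ k := by
          rw [← Real.rpow_mul hN0.le, hκ0]
          congr 1
          ring
      _ ≤ X ^ k := Real.rpow_le_rpow (by positivity) e1 hk.le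
  -- the pigeonhole principle
  set F := Pool.Agent.X34.E.goodR k A B1 X with hF
  have hFpos : 0 < (F.card : ℝ) := lt_of_lt_of_le (div_pos (mul_pos hc hX0) (pow_pos hlX _)) h2
  obtain ⟨⟨i, j⟩, hq⟩ := pig (ι := Fin 45 × Fin 45) F
    (fun q n => q.1 < q.2 ∧ (A q.1 * n + 1).Prime ∧ (A q.2 * n + 1).Prime) (by
      intro n hn
      rw [hF] at hn
      unfold Pool.Agent.X34.E.goodR at hn
      obtain ⟨_, _, _, i, j, hij, hi, hj⟩ := mem_filter.1 hn
      rcases lt_or_gt_of_ne hij with h | h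
      · exact ⟨(i, j), h, hi, hj⟩
      · exact ⟨(j, i), h, hj, hi⟩) (by exact_mod_cast hFpos)
  rw [← hW2] at hq
  set D := F.filter (fun n => i < j ∧ (A i * n + 1).Prime ∧ (A j * n + 1).Prime) with hD
  replace hq : (F.card : ℝ) / W2 ≤ (D.card : ℝ) := by
    refine hq.trans (le_of_eq ?_)
    rw [hD]
    congr 2
    ext n
    simp only [mem_filter]
  have hDmem : ∀ n ∈ D, n ∈ F ∧ i < j ∧ (2 ^ e i * n + 1).Prime ∧ (2 ^ e j * n + 1).Prime := by
    intro n hn
    obtain ⟨g1, g2, g3, g4⟩ := mem_filter.1 hn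
    exact ⟨g1, g2, g3, g4⟩
  have hDne : D.Nonempty := by
    rw [← card_pos]
    have : (0 : ℝ) < D.card := lt_of_lt_of_le (div_pos hFpos hW20) hq
    exact_mod_cast this
  have hij : i < j := by
    obtain ⟨n, hn⟩ := hDne
    exact (hDmem n hn).2.1
  have heij : e i < e j := e.strictMono hij
  refine ⟨e i, hemem i, e j, hemem j, heij, ?_⟩
  set S : Finset ℕ := D.image (fun n => 2 ^ e i * n + 1) with hS
  have hSc : S.card = D.card := by
    apply card_image_of_injective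
    intro x y h
    have h' : 2 ^ e i * x + 1 = 2 ^ e i * y + 1 := h
    exact Nat.eq_of_mul_eq_mul_left (Nat.two_pow_pos (e i)) (by omega)
  have hFmem : ∀ n ∈ F, 1 ≤ n ∧ (n : ℝ) ≤ 3 * X ∧ Pool.Agent.X34.E.RoughL k X A B1 n := by
    intro n hn
    rw [hF] at hn
    unfold Pool.Agent.X34.E.goodR at hn
    obtain ⟨g1, _, g3, _⟩ := mem_filter.1 hn
    rw [mem_Icc] at g1
    exact ⟨g1.1, (Nat.le_floor_iff (by positivity)).1 g1.2, g3⟩
  have hSI : S ⊆ Icc 1 N := by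
    intro p hp
    obtain ⟨n, hn, rfl⟩ := mem_image.1 hp
    obtain ⟨g1, g2, _⟩ := hFmem n (hDmem n hn).1
    rw [mem_Icc]
    refine ⟨by omega, ?_⟩
    have e1 : ((2 : ℝ) ^ e i) ≤ 2 ^ Mx := pow_le_pow_right₀ (by norm_num) (hMx _ (hemem i))
    have e2 : ((2 ^ e i * n + 1 : ℕ) : ℝ) ≤ N := by
      push_cast
      have e3 : (2 : ℝ) ^ e i * n ≤ 2 ^ Mx * (3 * X) := by
        apply mul_le_mul e1 g2 (Nat.cast_nonneg _) (by positivity)
      have e4 : (2 : ℝ) ^ Mx * (3 * X) = 3 / 4 * N := by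
        rw [hWX, hW]; ring
      linarith
    exact_mod_cast e2
  have hSfree : Free (ZP E (e i)) κ0 N S := by
    intro p hp q hqp hqN hcon
    obtain ⟨n, hn, rfl⟩ := mem_image.1 hp
    obtain ⟨_, _, g3⟩ := hFmem n (hDmem n hn).1
    have hqX : (q : ℝ) ≤ X ^ k := hqN.trans hpow
    unfold ZP at hcon
    split_ifs at hcon with h9
    · rw [mem_singleton] at hcon
      apply g3 i q hqp hqX
      show q ∣ 2 ^ e i * n + 1
      exact Nat.dvd_of_mod_eq_zero hcon
    · obtain ⟨c', hc', hcc⟩ := mem_image.1 hcon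
      have hmod := inj_pw hqp h9 hcc
      have hlt := (ZT_pw_adm hE q hqp).2.2 c' hc'
      rw [Nat.mod_eq_of_lt hlt] at hmod
      rw [hmod] at hc'
      obtain ⟨Lf, hLf, hd⟩ := (mem_ZT (E.map pw) hqp.pos n).1 hc'
      rw [Finset.mem_map] at hLf
      obtain ⟨x, hx, rfl⟩ := hLf
      have hxr : x ∈ Set.range e := by
        rw [he, range_orderEmbOfFin]
        exact hx
      obtain ⟨l, rfl⟩ := hxr
      exact g3 l q hqp hqX hd
  set V := VV (ZP E (e i)) 0 ⌊(N : ℝ) ^ κ0⌋₊ with hVdef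
  set μ : ℝ := 1 / L ^ 45 with hμ
  have hμ0 : 0 < μ := by positivity
  have hVM : V ≤ M * μ := by
    refine (ZP_le hE (e i) _).trans ?_
    have e1 : VV (ZT (E.map pw)) 0 ⌊(N : ℝ) ^ κ0⌋₊ =
      ∏ p ∈ Pool.Agent.Y840.PT.P0 ⌊(N : ℝ) ^ κ0⌋₊, (1 - (w (E.map pw) p : ℝ) / p) := rfl
    rw [e1]
    refine (hV (E.map pw) (prim_pw E) (by rw [card_map, hE]) _ f1).trans ?_
    have g1 : (κ0 / 2 * L) ^ 45 ≤ Real.log (⌊(N : ℝ) ^ κ0⌋₊ : ℕ) ^ 45 := by
      apply pow_le_pow_left₀ (by positivity)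
      exact f3
    have g2 : (0 : ℝ) < (κ0 / 2 * L) ^ 45 := by positivity
    have g3 : SL (E.map pw) ≤ |SL (E.map pw)| := le_abs_self _
    calc C * SL (E.map pw) / Real.log (⌊(N : ℝ) ^ κ0⌋₊ : ℕ) ^ 45
        ≤ C * |SL (E.map pw)| / Real.log (⌊(N : ℝ) ^ κ0⌋₊ : ℕ) ^ 45 := by
          apply div_le_div_of_nonneg_right _ (g2.le.trans g1)
          gcongr
      _ ≤ C * |SL (E.map pw)| / (κ0 / 2 * L) ^ 45 :=
          div_le_div_of_nonneg_left (by positivity) g2 g1
      _ = C * |SL (E.map pw)| * (2 / κ0) ^ 45 * μ := by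
          rw [hμ, Pool.Agent.Y840.PT.alg C κ0 L _ hκ00 hL0 45]
          ring
      _ ≤ M * μ := by
          apply mul_le_mul_of_nonneg_right _ hμ0.le
          rw [hM]
          linarith
  have hVs : V * L ^ (1 : ℝ) ≤ 1 := by
    rw [Real.rpow_one]
    calc V * L ≤ (M * μ) * L := by gcongr
      _ = M / L ^ 44 := by rw [hμ]; field_simp
      _ ≤ 1 := by
          rw [div_le_one (by positivity)]
          exact hLM.trans (le_self_pow₀ hL1 (by norm_num))
  have hSd : δ * (μ * N) ≤ S.card := by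
    rw [hSc]
    refine le_trans ?_ hq
    have e1 : c * X / Real.log X ^ 45 ≤ F.card := h2
    have e2 : c * X / L ^ 45 ≤ c * X / Real.log X ^ 45 := by
      apply div_le_div_of_nonneg_left (by positivity) (by positivity)
      exact pow_le_pow_left₀ hlX.le hlXL _
    have e3 : δ * (μ * N) = (c * X / L ^ 45) / W2 := by
      rw [hδ, hμ, hX]
      field_simp
    rw [e3]
    exact div_le_div_of_nonneg_right (e2.trans e1) hW20.le
  have key := hap N h1 (ZP E (e i)) (ZP_adm hE (e i)) hVs μ hμ0 hVM S hSI hSfree hSd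
  refine Pool.Agent.U28.PG.AllLengths.mono' ?_ key
  rintro n ⟨d, hd1, hd2, hd3⟩
  refine ⟨d, hd1, hd2, fun t ht => ?_⟩
  have h9 := hd3 t ht
  obtain ⟨x, hx, hxe⟩ := mem_image.1 h9
  unfold PP
  rw [mem_filter]
  refine ⟨hSI h9, ?_, ?_⟩
  · rw [← hxe]
    exact (hDmem x hx).2.2.1
  · have e1 : n + t * d - 1 = 2 ^ e i * x := by
      have hxe' : 2 ^ e i * x + 1 = n + t * d := hxe
      omega
    rw [e1, ← mul_assoc, ← pow_add, Nat.sub_add_cancel heij.le]
    exact (hDmem x hx).2.2.2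

end Pool.Agent.U28.SF
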