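import Pool.Agent.U28.SF.SF7
import Pool.Agent.W93.GB1

set_option autoImplicit false

/-!
# Goldbach partitions in all short intervals
-/

namespace Pool.Agent.U28.SF

open Finset Filter Topology
open Pool.Agent.Y843.HS (Pr VV)
open Pool.Agent.X58.IV (Adm VV_pos)
open Pool.Agent.U28.PG (AllLengths FirstAP)
open Pool.Agent.Y840.PT (floor_pow)
open Pool.Agent.H560R3.GB (sing C₂)

/-- the classes `0` and `m` -/
def ZG (m q : ℕ) : Finset ℕ := {0, m % q}

lemma ZG_adm {m : ℕ} (hm : 2 ∣ m) : Adm 2 (ZG m) := by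
  intro p hp
  unfold ZG
  refine ⟨card_le_two, ?_, ?_⟩
  · rcases eq_or_ne p 2 with rfl | h2
    · have : m % 2 = 0 := by omega
      rw [this]
      simp
    · have := hp.two_le
      exact lt_of_le_of_lt card_le_two (by omega)
  · intro c hc
    rw [mem_insert, mem_singleton] at hc
    rcases hc with rfl | rfl
    · exact hp.pos
    · exact Nat.mod_lt _ hp.pos

lemma ZG_card {m p : ℕ} (hp : p.Prime) : (ZG m p).card = if p ∣ m then 1 else 2 := by
  unfold ZG
  split_ifs with h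
  · have : m % p = 0 := Nat.mod_eq_zero_of_dvd h
    rw [this]
    simp
  · have : (0 : ℕ) ≠ m % p := fun h0 => h (Nat.dvd_of_mod_eq_zero h0.symm)
    rw [card_pair this]

/-- the density of the sifted set is at most the singular series -/
lemma ZG_V : ∃ C : ℝ, 0 < C ∧ ∀ y : ℕ, 2 ≤ y → ∀ m : ℕ, 1 ≤ m → 2 ∣ m →
    VV (ZG m) 0 y ≤ C * sing m / Real.log y ^ 2 := by
  obtain ⟨C, hC, hm⟩ := Pool.Agent.Y840.PT.mert
  refine ⟨2 * C ^ 2, by positivity, fun y hy m hm1 hm2 => ?_⟩
  have hlog : 0 < Real.log y := Real.log_pos (by exact_mod_cast (by omega : 1 < y))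
  have h1 := hm y hy
  have h0 : 0 ≤ ∏ p ∈ Pool.Agent.Y840.PT.P0 y, (1 - 1 / (p : ℝ)) := by
    apply Finset.prod_nonneg
    intro p hp
    have hp0 : (1 : ℝ) ≤ p := by exact_mod_cast (mem_filter.1 hp).2.one_lt.le
    rw [sub_nonneg, div_le_one (by linarith)]
    exact hp0
  -- the local factors
  set D : ℕ → ℝ := fun p => if p ∣ m ∧ 2 < p then ((p : ℝ) - 1) / ((p : ℝ) - 2) else 1 with hD
  set E : ℕ → ℝ := fun p => if p = 2 then 2 else 1 with hE
  have hloc : VV (ZG m) 0 y ≤ ∏ p ∈ Pool.Agent.Y840.PT.P0 y, ((1 - 1 / (p : ℝ)) ^ 2 * (D p * E p)) := by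
    unfold VV
    apply Finset.prod_le_prod
    · intro p hp
      have hpp := (mem_filter.1 hp).2
      have hp0 : (0 : ℝ) < p := by exact_mod_cast hpp.pos
      rw [sub_nonneg, div_le_one hp0]
      exact_mod_cast (ZG_adm hm2 p hpp).2.1.le
    · intro p hp
      have hpp := (mem_filter.1 hp).2
      have hp0 : (0 : ℝ) < p := by exact_mod_cast hpp.pos
      rw [ZG_card hpp, hD, hE]
      rcases eq_or_ne p 2 with rfl | h2
      · simp only [hm2, lt_irrefl, and_false, if_false, if_true]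
        norm_num
      · have h3 : 2 < p := lt_of_le_of_ne hpp.two_le (Ne.symm h2)
        have h3r : (2 : ℝ) < p := by exact_mod_cast h3
        simp only [h2, if_false, mul_one, h3, and_true]
        split_ifs with hd
        · rw [Nat.cast_one]
          have e : (1 - 1 / (p : ℝ)) ^ 2 * (((p : ℝ) - 1) / ((p : ℝ) - 2)) - (1 - 1 / (p : ℝ)) =
              (1 - 1 / (p : ℝ)) * (1 / ((p : ℝ) * (p - 2))) := by
            have : (p : ℝ) - 2 ≠ 0 := by linarith
            field_simp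
            ring
          have h4 : 0 ≤ (1 - 1 / (p : ℝ)) := by
            rw [sub_nonneg, div_le_one hp0]; linarith
          have h5 : 0 ≤ (1 / ((p : ℝ) * (p - 2))) := by
            apply div_nonneg zero_le_one
            exact mul_nonneg hp0.le (by linarith)
          nlinarith [mul_nonneg h4 h5]
        · push_cast
          have : (0 : ℝ) ≤ (1 / (p : ℝ)) ^ 2 := sq_nonneg _
          have e2 : (2 : ℝ) / p = 2 * (1 / p) := by ring
          rw [e2]
          nlinarith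
  refine hloc.trans ?_
  rw [Finset.prod_mul_distrib, Finset.prod_mul_distrib, Finset.prod_pow]
  have hEp : ∏ p ∈ Pool.Agent.Y840.PT.P0 y, E p ≤ 2 := by
    rw [hE]
    have e : ∏ p ∈ Pool.Agent.Y840.PT.P0 y, (if p = 2 then (2 : ℝ) else 1) =
        if 2 ∈ Pool.Agent.Y840.PT.P0 y then 2 else 1 := Finset.prod_ite_eq' _ _ _
    rw [e]
    split_ifs <;> norm_num
  have hE0 : 0 ≤ ∏ p ∈ Pool.Agent.Y840.PT.P0 y, E p := by
    apply Finset.prod_nonneg
    intro p _
    simp only [hE]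
    split_ifs <;> norm_num
  have hD1 : ∀ p : ℕ, 1 ≤ D p := by
    intro p
    simp only [hD]
    split_ifs with h
    · have h3r : (2 : ℝ) < p := by exact_mod_cast h.2
      rw [one_le_div (by linarith)]
      linarith
    · exact le_rfl
  have hDp : ∏ p ∈ Pool.Agent.Y840.PT.P0 y, D p ≤ sing m := by
    have e1 : ∏ p ∈ Pool.Agent.Y840.PT.P0 y, D p ≤ ∏ p ∈ Pool.Agent.Y840.PT.P0 y ∪ m.primeFactors, D p := by
      rw [← Finset.prod_sdiff (subset_union_left :
        Pool.Agent.Y840.PT.P0 y ⊆ Pool.Agent.Y840.PT.P0 y ∪ m.primeFactors)]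
      apply le_mul_of_one_le_left (Finset.prod_nonneg fun p _ => zero_le_one.trans (hD1 p))
      exact Finset.prod_induction _ (fun x => (1 : ℝ) ≤ x) (fun a b ha hb => one_le_mul_of_one_le_of_one_le ha hb)
        le_rfl (fun p _ => hD1 p)
    have e2 : ∏ p ∈ Pool.Agent.Y840.PT.P0 y ∪ m.primeFactors, D p =
        ∏ p ∈ m.primeFactors.filter (fun p => 2 < p), ((p : ℝ) - 1) / ((p : ℝ) - 2) := by
      symm
      rw [Finset.prod_filter]
      have e3 : ∏ p ∈ m.primeFactors, (if 2 < p then ((p : ℝ) - 1) / ((p : ℝ) - 2) else 1) =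
          ∏ p ∈ m.primeFactors, D p := by
        apply Finset.prod_congr rfl
        intro p hp
        simp only [hD, (Nat.dvd_of_mem_primeFactors hp), true_and]
      rw [e3]
      apply Finset.prod_subset subset_union_right
      intro p hp hpm
      simp only [hD]
      rw [if_neg]
      rintro ⟨h1, h2⟩
      apply hpm
      rw [mem_union] at hp
      rcases hp with hp | hp
      · exact Nat.mem_primeFactors.2 ⟨(mem_filter.1 hp).2, h1, by omega⟩
      · exact hp
    rw [e2] at e1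
    refine e1.trans ?_
    unfold sing
    have hC2 := Pool.Agent.W93.GB.C2_half
    have hpr : 0 ≤ ∏ p ∈ m.primeFactors.filter (fun p => 2 < p), ((p : ℝ) - 1) / ((p : ℝ) - 2) := by
      apply Finset.prod_nonneg
      intro p hp
      have h3r : (2 : ℝ) < p := by exact_mod_cast (mem_filter.1 hp).2
      apply div_nonneg <;> linarith
    nlinarith
  have hD0 : 0 ≤ ∏ p ∈ Pool.Agent.Y840.PT.P0 y, D p :=
    Finset.prod_nonneg fun p _ => zero_le_one.trans (hD1 p)
  have hsq : (∏ p ∈ Pool.Agent.Y840.PT.P0 y, (1 - 1 / (p : ℝ))) ^ 2 ≤ (C / Real.log y) ^ 2 :=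
    pow_le_pow_left₀ h0 h1 2
  calc (∏ p ∈ Pool.Agent.Y840.PT.P0 y, (1 - 1 / (p : ℝ))) ^ 2 *
        ((∏ p ∈ Pool.Agent.Y840.PT.P0 y, D p) * ∏ p ∈ Pool.Agent.Y840.PT.P0 y, E p)
      ≤ (C / Real.log y) ^ 2 * (sing m * 2) := by
        apply mul_le_mul hsq _ (mul_nonneg hD0 hE0) (by positivity)
        exact mul_le_mul hDp hEp hE0 (hD0.trans hDp)
    _ = 2 * C ^ 2 * sing m / Real.log y ^ 2 := by
        rw [div_pow]
        ring

/-- the primes `√(2 n) < p < n` with `2 n - p` prime -/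
noncomputable def Parts (n : ℕ) : Finset ℕ :=
  (range n).filter (fun p : ℕ => p.Prime ∧ √(2 * (n : ℝ)) < p ∧ (2 * n - p).Prime)

set_option maxHeartbeats 4000000 in
open Classical in
/-- **Dense sets of Goldbach partitions.** -/
theorem goldbach_all (m : ℕ) (δ : ℝ) (hδ : 0 < δ) : ∃ κ : ℝ, 0 < κ ∧ ∃ B : ℕ, ∀ᶠ n : ℕ in atTop,
    0 < sing (2 * n) → ∀ A ⊆ Parts n, δ * (sing (2 * n) * (n / Real.log (2 * n) ^ 2)) ≤ A.card →
    AllLengths κ (sing (2 * n) / Real.log (2 * n) ^ 2) n (FirstAP m (Real.log n ^ B) A) := by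
  obtain ⟨C, hC, hV⟩ := ZG_V
  set M : ℝ := C * 256 with hM
  have hM0 : 0 < M := by positivity
  obtain ⟨κ1, hκ1, B, X1, hap⟩ := sifted_ap 2 m (1 / 4) (1 / 2) δ M (by norm_num) (by norm_num) hδ hM0
  refine ⟨κ1, hκ1, B, ?_⟩
  filter_upwards [eventually_ge_atTop X1, floor_pow (κ := 1 / 4) (by norm_num) 2,
    VV_small 2 (1 / 4) 0 (by norm_num) le_rfl, eventually_ge_atTop 4] with n h1 h2 h3 h5
  intro hs A hA hAc
  obtain ⟨f1, f2, f3⟩ := h2
  have hn0 : (0 : ℝ) < n := by exact_mod_cast (by omega : 0 < n)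
  have hn4 : (4 : ℝ) ≤ n := by exact_mod_cast h5
  have hL0 : 0 < Real.log (n : ℝ) := Real.log_pos (by linarith)
  have hL2 : 0 < Real.log (2 * (n : ℝ)) := Real.log_pos (by linarith)
  have hL2le : Real.log (2 * (n : ℝ)) ≤ 2 * Real.log n := by
    rw [Real.log_mul (by norm_num) hn0.ne']
    have : Real.log 2 ≤ Real.log n := Real.log_le_log (by norm_num) (by linarith)
    linarith
  have h2n : 2 ∣ 2 * n := Dvd.intro _ rfl
  have hZ : Adm 2 (ZG (2 * n)) := ZG_adm h2n
  have hVs : VV (ZG (2 * n)) 0 ⌊(n : ℝ) ^ (1 / 4 : ℝ)⌋₊ * Real.log n ^ (1 / 2 : ℝ) ≤ 1 :=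
    h3 (ZG (2 * n)) hZ 1 le_rfl (by rw [Real.rpow_zero]; norm_num) (fun p hp _ => by
      rw [ZG_card hp]
      split_ifs <;> norm_num)
  set μ : ℝ := sing (2 * n) / Real.log (2 * n) ^ 2 with hμ
  have hμ0 : 0 < μ := by positivity
  have hVM : VV (ZG (2 * n)) 0 ⌊(n : ℝ) ^ (1 / 4 : ℝ)⌋₊ ≤ M * μ := by
    refine (hV _ f2 (2 * n) (by omega) h2n).trans ?_
    have g1 : (Real.log (2 * (n : ℝ)) / 16) ^ 2 ≤ Real.log (⌊(n : ℝ) ^ (1 / 4 : ℝ)⌋₊ : ℕ) ^ 2 := by
      apply pow_le_pow_left₀ (by positivity)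
      linarith
    calc C * sing (2 * n) / Real.log (⌊(n : ℝ) ^ (1 / 4 : ℝ)⌋₊ : ℕ) ^ 2
        ≤ C * sing (2 * n) / (Real.log (2 * (n : ℝ)) / 16) ^ 2 :=
          div_le_div_of_nonneg_left (by positivity) (by positivity) g1
      _ = M * μ := by
          rw [hM, hμ, div_pow]
          field_simp
          norm_num
  have hAI : A ⊆ Icc 1 n := by
    intro p hp
    have := hA hp
    unfold Parts at this
    rw [mem_filter, mem_range] at this
    rw [mem_Icc]
    exact ⟨this.2.1.one_lt.le, this.1.le⟩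
  have hfree : Free (ZG (2 * n)) (1 / 4) n A := by
    intro p hp q hq hqn hcon
    have hpA := hA hp
    unfold Parts at hpA
    rw [mem_filter, mem_range] at hpA
    obtain ⟨g1, g2, g3, g4⟩ := hpA
    have hq1 : (q : ℝ) ≤ √(2 * (n : ℝ)) := by
      refine hqn.trans ?_
      rw [Real.sqrt_eq_rpow]
      calc (n : ℝ) ^ (1 / 4 : ℝ) ≤ (n : ℝ) ^ (1 / 2 : ℝ) :=
            Real.rpow_le_rpow_of_exponent_le (by linarith) (by norm_num)
        _ ≤ (2 * (n : ℝ)) ^ (1 / 2 : ℝ) := Real.rpow_le_rpow hn0.le (by linarith) (by norm_num)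
    have hq2 : (q : ℝ) < n := by
      refine lt_of_le_of_lt hq1 (lt_trans g3 ?_)
      exact_mod_cast g1
    have hq2' : q < n := by exact_mod_cast hq2
    unfold ZG at hcon
    rw [mem_insert, mem_singleton] at hcon
    rcases hcon with h0 | h0
    · have hd : q ∣ p := Nat.dvd_of_mod_eq_zero h0
      have heq := (Nat.prime_dvd_prime_iff_eq hq g2).1 hd
      rw [heq] at hq1
      linarith
    · have hd : q ∣ 2 * n - p := (Nat.modEq_iff_dvd' (by omega)).1 h0
      have heq := (Nat.prime_dvd_prime_iff_eq hq g4).1 hd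
      omega
  exact hap n h1 (ZG (2 * n)) hZ hVs μ hμ0 hVM A hAI hfree (by
    refine le_trans (le_of_eq ?_) hAc
    rw [hμ]
    ring)

end Pool.Agent.U28.SF
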