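import Pool.Agent.U28.SF.SF7
import Pool.Agent.W218.MU.Main

set_option autoImplicit false

/-!
# Systems of linear forms: a positive proportion of the subsets of any large family
-/

namespace Pool.Agent.U28.SF

open Finset Filter Topology
open Pool.Agent.U28.PG (AllLengths FirstAP)
open Pool.Agent.W218.MU (SL Prim w ra cnt)
open Pool.Agent.Y840.PT (ZT adm_of_pos)

open Classical in
/-- the points `1 ≤ n ≤ N` at which all forms of `T` are prime -/
noncomputable def QL (N : ℕ) (T : Finset (ℕ × ℕ)) : Finset ℕ :=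
  (Icc 1 N).filter (fun n => ∀ L ∈ T, (L.1 * n + L.2).Prime)

/-- upper bound, also for the families which are not admissible -/
lemma cnt_up (l : ℕ) : ∃ C : ℝ, 0 < C ∧ ∃ X₀ : ℕ, ∀ N : ℕ, X₀ ≤ N → ∀ T : Finset (ℕ × ℕ), Prim T → T.card = l →
    (cnt N T : ℝ) ≤ C * (SL T * (N / Real.log N ^ l)) := by
  classical
  obtain ⟨C, hC, X₀, h⟩ := Pool.Agent.Y840.PT.up l
  refine ⟨C, hC, max X₀ (l + 2), fun N hN T hT hc => ?_⟩
  have hN1 : l + 2 ≤ N := (le_max_right _ _).trans hN
  by_cases hadm : ∀ p : ℕ, p.Prime → w T p < p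
  · have h1 := h N (N - 1) ((le_max_left _ _).trans hN) (by omega) T hT hc hadm
    refine le_trans ?_ h1
    unfold cnt
    rw [Nat.cast_le]
    apply card_le_card
    intro n hn
    rw [mem_filter, mem_Ico] at hn
    rw [mem_filter, mem_Ioc]
    exact ⟨by omega, hn.2⟩
  · push Not at hadm
    obtain ⟨p, hp, hpw⟩ := hadm
    have hwl : w T p ≤ l := by
      rw [← hc]
      exact Pool.Agent.W218.MU.w_le hT hp
    have hcnt : cnt N T = 0 := by
      unfold cnt
      rw [card_eq_zero, filter_eq_empty_iff]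
      intro n hn hpr
      rw [mem_Ico] at hn
      -- `n mod p` is a root
      have hall : n % p ∈ ZT T p := by
        have h1 : (ZT T p).card = p := le_antisymm (by
          calc (ZT T p).card ≤ (range p).card := card_le_card (filter_subset _ _)
            _ = p := card_range p) (by
          rw [Pool.Agent.Y840.PT.card_ZT]
          exact hpw)
        have h2 : ZT T p = range p := eq_of_subset_of_card_le (filter_subset _ _) (by rw [h1, card_range])
        rw [h2, mem_range]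
        exact Nat.mod_lt _ hp.pos
      obtain ⟨L, hL, hd⟩ := (Pool.Agent.Y840.PT.mem_ZT T hp.pos n).1 hall
      have heq := (Nat.prime_dvd_prime_iff_eq hp (hpr L hL)).1 hd
      have h3 := (hT L hL).1
      have h4 : n ≤ L.1 * n + L.2 := by nlinarith
      omega
    rw [hcnt, Nat.cast_zero]
    have h5 := Pool.Agent.W218.MU.SL_nonneg hT
    positivity

open Classical in
/-- the property of a family `T` of forms -/
def GoodL (κ ρ : ℝ) (m : ℕ) (D : ℝ) (N : ℕ) (T : Finset (ℕ × ℕ)) : Prop :=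
  0 < SL T ∧ κ * (SL T / Real.log N ^ T.card * N) ≤ (QL N T).card ∧
    ∀ U ⊆ QL N T, ρ * (QL N T).card ≤ U.card → AllLengths κ (SL T / Real.log N ^ T.card) N (FirstAP m D U)

set_option maxHeartbeats 4000000 in
open Classical in
/-- **Systems of linear forms in all short intervals.** -/
theorem dickson (k : ℕ) (lam : ℝ) (hlam : (k : ℝ) < lam) : ∃ c : ℝ, 0 < c ∧ ∀ (m : ℕ) (ρ : ℝ), 0 < ρ →
    ∃ κ : ℝ, 0 < κ ∧ ∃ B : ℕ, ∀ C : ℝ, 0 ≤ C → ∀ᶠ N : ℕ in atTop, ∀ A : Finset (ℕ × ℕ), Prim A →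
    (∀ L ∈ A, (L.1 : ℝ) ≤ Real.log N ^ C ∧ (L.2 : ℝ) ≤ Real.log N ^ C) →
    lam * Real.log N ≤ ∑ L ∈ A, ra L.1 →
    c * ∑ T ∈ A.powersetCard (k + 1), SL T ≤
      ∑ T ∈ (A.powersetCard (k + 1)).filter (GoodL κ ρ m (Real.log N ^ B) N), SL T := by
  have hlam0 : 0 < lam := lt_of_le_of_lt (Nat.cast_nonneg k) hlam
  obtain ⟨Pi0, hPi0⟩ : ∃ x : ℝ, x = ∏ i ∈ range k, (1 - (i + 1 : ℝ) / lam) := ⟨_, rfl⟩
  have hPi00 : 0 < Pi0 := by
    rw [hPi0]
    apply prod_pos
    intro i hi
    have hi' : (i + 1 : ℝ) ≤ k := by exact_mod_cast mem_range.1 hi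
    rw [sub_pos, div_lt_one hlam0]
    linarith
  obtain ⟨C₁, hC₁, x₁, hup⟩ := cnt_up (k + 1)
  refine ⟨(Pi0 / 2 - Pi0 / 4) / C₁, by apply div_pos _ hC₁; linarith, fun m ρ hρ => ?_⟩
  obtain ⟨κ1, hκ1, B, hforms⟩ := forms_all (k + 1) m (by omega) 1 (ρ * (Pi0 / 16)) zero_le_one (by positivity)
  refine ⟨min κ1 (Pi0 / 16), lt_min hκ1 (by positivity), B, fun C hC => ?_⟩
  obtain ⟨x₂, h2⟩ := Pool.Agent.W218.MU.universalL k lam (Pi0 / 2) (C + 1) hlam (by linarith) (by rw [← hPi0]; linarith)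
  have tN : Tendsto (fun N : ℕ => (N : ℝ)) atTop atTop := tendsto_natCast_atTop_atTop
  have tL : Tendsto (fun N : ℕ => Real.log (N : ℝ)) atTop atTop := Real.tendsto_log_atTop.comp tN
  have hlo : ∀ᶠ N : ℕ in atTop, Real.log (N : ℝ) ^ C ≤ N := by
    have h := (isLittleO_log_rpow_rpow_atTop C (show (0 : ℝ) < 1 by norm_num)).bound (show (0 : ℝ) < 1 by norm_num)
    filter_upwards [tN.eventually h, eventually_ge_atTop 3] with N hN hN3
    have hN0 : (0 : ℝ) < N := by exact_mod_cast (by omega : 0 < N)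
    have hl : 0 ≤ Real.log (N : ℝ) := Real.log_natCast_nonneg N
    rw [Real.rpow_one, one_mul, Real.norm_of_nonneg (by positivity), Real.norm_of_nonneg hN0.le] at hN
    exact hN
  filter_upwards [hforms, hlo, tL.eventually_ge_atTop (2 ^ (C + 1)), tL.eventually_ge_atTop (2 * Real.log 4),
    eventually_ge_atTop (2 * (max x₁ x₂) + 8)] with N g1 g2 g3 g4 g5
  intro A hA hAC hmass
  obtain ⟨N', hN'⟩ : ∃ N' : ℕ, N' = N / 2 := ⟨_, rfl⟩
  have hN1 : x₁ ≤ N' := by have := le_max_left x₁ x₂; omega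
  have hN2 : x₂ ≤ N' := by have := le_max_right x₁ x₂; omega
  have hN4 : 4 ≤ N' := by omega
  have hNle : 2 * N' ≤ N := by omega
  have hNge : N ≤ 4 * N' := by omega
  have hN0 : (0 : ℝ) < N := by exact_mod_cast (by omega : 0 < N)
  have hN'0 : (0 : ℝ) < N' := by exact_mod_cast (by omega : 0 < N')
  have hNger : (N : ℝ) ≤ 4 * N' := by exact_mod_cast hNge
  have hNler : (N' : ℝ) ≤ N := by exact_mod_cast (by omega : N' ≤ N)
  set L := Real.log (N : ℝ) with hL
  set L' := Real.log (N' : ℝ) with hL'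
  have hlog4 : 0 < Real.log 4 := Real.log_pos (by norm_num)
  have hL0 : 0 < L := by linarith
  have hL'L : L' ≤ L := Real.log_le_log hN'0 hNler
  have hLL' : L / 2 ≤ L' := by
    have h1 : Real.log (N / 4) ≤ L' := by
      apply Real.log_le_log (by positivity)
      linarith
    rw [Real.log_div hN0.ne' (by norm_num)] at h1
    linarith
  have hL'0 : 0 < L' := by linarith
  have hcoef : L ^ C ≤ L' ^ (C + 1) := by
    calc L ^ C = L ^ C * 1 := (mul_one _).symm
      _ ≤ L ^ C * (L / 2 ^ (C + 1)) := by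
          apply mul_le_mul_of_nonneg_left _ (by positivity)
          rw [one_le_div (by positivity)]
          exact g3
      _ = (L / 2) ^ (C + 1) := by
          rw [Real.div_rpow hL0.le (by norm_num), Real.rpow_add hL0, Real.rpow_one]
          ring
      _ ≤ L' ^ (C + 1) := Real.rpow_le_rpow (by positivity) hLL' (by linarith)
  have hlow := h2 N' hN2 A hA (fun q hq => ⟨(hAC q hq).1.trans hcoef, (hAC q hq).2.trans hcoef⟩)
    ((mul_le_mul_of_nonneg_left hL'L hlam0.le).trans hmass)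
  obtain ⟨Y, hY⟩ : ∃ Y : ℝ, Y = N' / L' ^ (k + 1) := ⟨_, rfl⟩
  have hY0 : 0 < Y := by rw [hY]; positivity
  have hYge : N / L ^ (k + 1) ≤ 4 * Y := by
    rw [hY]
    calc N / L ^ (k + 1) ≤ (4 * N') / L ^ (k + 1) := div_le_div_of_nonneg_right hNger (by positivity)
      _ ≤ (4 * N') / L' ^ (k + 1) := by
          apply div_le_div_of_nonneg_left (by positivity) (by positivity)
          exact pow_le_pow_left₀ hL'0.le hL'L _
      _ = 4 * (N' / L' ^ (k + 1)) := by ring
  rw [← hL', ← hY] at hlow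
  set P := A.powersetCard (k + 1) with hP
  have hPmem : ∀ T ∈ P, Prim T ∧ T.card = k + 1 := by
    intro T hT
    obtain ⟨a1, a2⟩ := mem_powersetCard.1 hT
    exact ⟨fun q hq => hA q (a1 hq), a2⟩
  set G := P.filter (fun T => 0 < SL T ∧ Pi0 / 4 * (SL T * Y) ≤ cnt N' T) with hG
  have hsum : (Pi0 / 2 - Pi0 / 4) / C₁ * ∑ T ∈ P, SL T ≤ ∑ T ∈ G, SL T := by
    have e1 : ∑ T ∈ P, (cnt N' T : ℝ) ≤ ∑ T ∈ P, (Pi0 / 4 * (SL T * Y) + if T ∈ G then C₁ * (SL T * Y) else 0) := by
      apply sum_le_sum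
      intro T hT
      obtain ⟨b1, b2⟩ := hPmem T hT
      have hnn := Pool.Agent.W218.MU.SL_nonneg b1
      have hub := hup N' hN1 T b1 b2
      rw [← hL', ← hY] at hub
      split_ifs with hTG
      · have : 0 ≤ Pi0 / 4 * (SL T * Y) := by positivity
        linarith
      · rw [add_zero]
        by_contra hcon
        push Not at hcon
        apply hTG
        rw [hG, mem_filter]
        refine ⟨hT, ?_, hcon.le⟩
        rcases hnn.eq_or_lt with h0 | h0
        · exfalso
          rw [← h0, zero_mul, mul_zero] at hub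
          rw [← h0, zero_mul, mul_zero] at hcon
          linarith
        · exact h0
    rw [sum_add_distrib, ← mul_sum, ← sum_mul, ← sum_filter] at e1
    have e2 : P.filter (fun T => T ∈ G) = G := by
      ext T
      rw [mem_filter]
      exact ⟨fun h => h.2, fun h => ⟨(mem_filter.1 h).1, h⟩⟩
    rw [e2, ← mul_sum, ← sum_mul] at e1
    have e3 := hlow.trans e1
    have e4 : (Pi0 / 2 - Pi0 / 4) * (∑ T ∈ P, SL T) * Y ≤ C₁ * (∑ T ∈ G, SL T) * Y := by
      have e5 : Pi0 / 2 * Y * ∑ T ∈ P, SL T = Pi0 / 2 * (∑ T ∈ P, SL T) * Y := by ring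
      rw [e5] at e3
      nlinarith
    have e6 := le_of_mul_le_mul_right e4 hY0
    rw [div_mul_eq_mul_div, div_le_iff₀ hC₁]
    linarith
  refine hsum.trans ?_
  apply sum_le_sum_of_subset_of_nonneg
  · intro T hT
    rw [hG, mem_filter] at hT
    obtain ⟨hTP, hT0, hTc⟩ := hT
    obtain ⟨b1, b2⟩ := hPmem T hTP
    rw [mem_filter]
    refine ⟨hTP, ?_⟩
    have hQc : (cnt N' T : ℝ) ≤ (QL N T).card := by
      unfold cnt QL
      rw [Nat.cast_le]
      apply card_le_card
      intro n hn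
      rw [mem_filter, mem_Ico] at hn
      rw [mem_filter, mem_Icc]
      exact ⟨by omega, hn.2⟩
    have hQ : Pi0 / 16 * (SL T * (N / L ^ (k + 1))) ≤ (QL N T).card := by
      refine le_trans ?_ (hTc.trans hQc)
      have : SL T * (N / L ^ (k + 1)) ≤ SL T * (4 * Y) := mul_le_mul_of_nonneg_left hYge hT0.le
      nlinarith
    have hμ : 0 ≤ SL T / L ^ (k + 1) := by positivity
    unfold GoodL
    rw [b2]
    refine ⟨hT0, ?_, fun U hU hUc => ?_⟩
    · refine le_trans ?_ hQ
      have e1 : SL T / L ^ (k + 1) * N = SL T * (N / L ^ (k + 1)) := by ring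
      rw [e1]
      exact mul_le_mul_of_nonneg_right (min_le_right _ _) (by positivity)
    · refine Pool.Agent.U28.PG.AllLengths.mono ?_ (min_le_left _ _) hμ
      refine g1 T b1 b2 (fun q hq => ?_) hT0 U (fun n hn => ?_) ?_
      · rw [Real.rpow_one]
        exact ((hAC q ((mem_powersetCard.1 hTP).1 hq)).1).trans g2
      · have := hU hn
        unfold QL at this
        rw [mem_filter, mem_Icc] at this
        exact ⟨this.1.1, this.1.2, this.2⟩
      · calc ρ * (Pi0 / 16) * (SL T * (N / L ^ (k + 1))) = ρ * (Pi0 / 16 * (SL T * (N / L ^ (k + 1)))) := by ring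
          _ ≤ ρ * (QL N T).card := mul_le_mul_of_nonneg_left hQ hρ.le
          _ ≤ _ := hUc
  · intro T hT _
    exact Pool.Agent.W218.MU.SL_nonneg (hPmem T (mem_filter.1 hT).1).1

end Pool.Agent.U28.SF
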