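import Pool.Agent.U28.SF.SF12

set_option autoImplicit false

/-!
# Systems of linear forms: lower bound for the sum of the singular products
-/

namespace Pool.Agent.U28.SF

open Finset Filter Topology
open Pool.Agent.H387R2 Pool.Agent.H386R2.HL
open Pool.Agent.W218.MU

/-- the average number of the forms which are prime -/
lemma mean_low {k : ℕ} {δ : ℝ} {N M y : ℕ} (hC : CL δ N (Uni.WW y) M) (hS : SZ δ N (Uni.WW y)) (hδ : 0 < δ)
    (hδ1 : δ ≤ 1 / 4) (hL : 0 < Real.log N) {lam : ℝ} (hlam : 0 < lam) {A : Finset (ℕ × ℕ)} (hp : Prim A)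
    (hA : ∀ L ∈ A, L.1 ≤ M ∧ L.2 ≤ M) (htt : ∀ L ∈ A, tt y L.1 ≤ 1 + δ)
    (hcard : lam * Real.log N ≤ ∑ L ∈ A, ra L.1) :
    ((N : ℝ)) * Uni.GG k ((1 - 2 * δ) * (Uni.c1 δ * lam / (1 + δ))) ≤
      ((k + 1).factorial : ℝ) * ∑ T ∈ A.powersetCard (k + 1), (cnt N T : ℝ) := by
  classical
  set W := Uni.WW y with hWdef
  have hW : 0 < W := Uni.WW_pos y
  have hW0 : (0:ℝ) < W := by exact_mod_cast hW
  have hφ0 : (0:ℝ) < Nat.totient W := by exact_mod_cast Nat.totient_pos.2 hW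
  have hc1 : 0 < Uni.c1 δ := div_pos (by linarith) (by linarith)
  set μ := Uni.c1 δ * lam / (1 + δ) with hμ
  have hμ0 : 0 < μ := div_pos (mul_pos hc1 hlam) (by linarith)
  set Y := yb δ N W A with hY
  have hY0 : ∀ b, 0 ≤ Y b := yb_nonneg hδ hδ1 hL.le W A
  have h12 : (0:ℝ) ≤ 1 - 2 * δ := by linarith
  have s1 : ∑ b ∈ range W, ∑ n ∈ (Ico N (2 * N)).filter (fun n => n ≡ b [MOD W]),
      (XX A n : ℝ) = ∑ n ∈ Ico N (2 * N), (XX A n : ℝ) := by
    rw [← sum_fiberwise_of_maps_to (s := Ico N (2 * N)) (t := range W) (g := fun n => n % W)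
      (fun n _ => mem_range.2 (Nat.mod_lt _ hW))]
    apply sum_congr rfl
    intro b hb
    apply sum_congr _ fun _ _ => rfl
    apply filter_congr
    intro n _
    rw [Nat.ModEq, Nat.mod_eq_of_lt (mem_range.1 hb)]
  have s2 : ∀ b ∈ range W, Y b * ((1 - 2 * δ) * (N / W)) ≤
      ∑ n ∈ (Ico N (2 * N)).filter (fun n => n ≡ b [MOD W]), (XX A n : ℝ) := by
    intro b _
    refine le_trans ?_ (class_mean hW hC hS hδ hδ1 hL hp hA b)
    exact mul_le_mul_of_nonneg_left (hS b).1 (hY0 b)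
  have s4 : μ * W ≤ ∑ b ∈ range W, Y b := by
    have h2 : ∑ b ∈ range W, Y b = Uni.c1 δ * (∑ L ∈ A, (g W {L} : ℝ)) * (W / (Nat.totient W * Real.log N)) := by
      have h3 := sum_card_Ab W A
      have h4 : ∑ b ∈ range W, ((Ab W A b).card : ℝ) = ∑ L ∈ A, (g W {L} : ℝ) := by exact_mod_cast h3
      rw [← h4, hY]
      unfold yb
      rw [mul_sum, sum_mul]
    have h5 : (Nat.totient W : ℝ) * ∑ L ∈ A, ra L.1 ≤ (1 + δ) * ∑ L ∈ A, (g W {L} : ℝ) := by
      rw [mul_sum, mul_sum]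
      apply sum_le_sum
      intro L hLA
      exact g_one (hp L hLA).1 (hp L hLA).2 y (htt L hLA)
    have h6 : (Nat.totient W : ℝ) * (lam * Real.log N) / (1 + δ) ≤ ∑ L ∈ A, (g W {L} : ℝ) := by
      rw [div_le_iff₀ (by linarith)]
      have : (Nat.totient W : ℝ) * (lam * Real.log N) ≤ (Nat.totient W : ℝ) * ∑ L ∈ A, ra L.1 :=
        mul_le_mul_of_nonneg_left hcard hφ0.le
      linarith
    rw [h2]
    have h7 : 0 ≤ (W : ℝ) / (Nat.totient W * Real.log N) := by positivity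
    calc μ * W = Uni.c1 δ * ((Nat.totient W : ℝ) * (lam * Real.log N) / (1 + δ)) *
          (W / (Nat.totient W * Real.log N)) := by
          rw [hμ]
          have : 1 + δ ≠ 0 := by linarith
          field_simp
      _ ≤ _ := by gcongr
  have s5 : ((1 - 2 * δ) * μ) * ((Ico N (2 * N)).card : ℝ) ≤ ∑ n ∈ Ico N (2 * N), (XX A n : ℝ) := by
    rw [← s1]
    refine le_trans ?_ (sum_le_sum s2)
    rw [← sum_mul, Nat.card_Ico]
    have e : ((2 * N - N : ℕ) : ℝ) = N := by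
      congr 1
      omega
    rw [e]
    calc (1 - 2 * δ) * μ * (N : ℝ) = (μ * W) * ((1 - 2 * δ) * (N / W)) := by
          field_simp
      _ ≤ _ := mul_le_mul_of_nonneg_right s4 (by positivity)
  have s6 := Uni.jensen_desc (Ico N (2 * N)) (XX A) k (mul_nonneg h12 hμ0.le) s5
  have h1 := sum_desc A k N
  have h2 : ∑ n ∈ Ico N (2 * N), ((XX A n).descFactorial (k + 1) : ℝ) =
    ((k + 1).factorial : ℝ) * ∑ T ∈ A.powersetCard (k + 1), (cnt N T : ℝ) := by exact_mod_cast h1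
  rw [← h2]
  refine le_trans (le_of_eq ?_) s6
  rw [Nat.card_Ico]
  have e : ((2 * N - N : ℕ) : ℝ) = N := by
    congr 1
    omega
  rw [e]

/-- the sum of the singular products is large -/
theorem mass (k : ℕ) (lam : ℝ) (hlam : (k : ℝ) < lam) : ∃ c : ℝ, 0 < c ∧ ∀ C : ℝ, 0 ≤ C →
    ∀ᶠ N : ℕ in atTop, ∀ A : Finset (ℕ × ℕ), Prim A →
      (∀ L ∈ A, (L.1 : ℝ) ≤ Real.log N ^ C ∧ (L.2 : ℝ) ≤ Real.log N ^ C) →
      lam * Real.log N ≤ ∑ L ∈ A, ra L.1 →
      c * Real.log N ^ (k + 1) ≤ ∑ T ∈ A.powersetCard (k + 1), SL T := by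
  have hlam0 : 0 < lam := lt_of_le_of_lt (Nat.cast_nonneg k) hlam
  obtain ⟨C₁, hC₁, x₁, hup⟩ := cnt_up (k + 1)
  -- choice of `δ`
  have ht : Tendsto (fun δ : ℝ => (1 - 2 * δ) * (Uni.c1 δ * lam / (1 + δ))) (𝓝 0) (𝓝 lam) := by
    have h : ContinuousAt (fun δ : ℝ => (1 - 2 * δ) * (Uni.c1 δ * lam / (1 + δ))) 0 := by
      unfold Uni.c1
      apply ContinuousAt.mul (by fun_prop)
      apply ContinuousAt.div _ (by fun_prop) (by norm_num)
      apply ContinuousAt.mul _ (by fun_prop)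
      exact ContinuousAt.div (by fun_prop) (by fun_prop) (by norm_num)
    have h' := h.tendsto
    have e : (1 - 2 * (0 : ℝ)) * (Uni.c1 0 * lam / (1 + 0)) = lam := by
      unfold Uni.c1
      norm_num
    rwa [e] at h'
  obtain ⟨lam', hl1, hl2⟩ : ∃ lam' : ℝ, (k : ℝ) < lam' ∧ lam' < lam := exists_between hlam
  obtain ⟨r, hr, h4⟩ := Metric.eventually_nhds_iff.1 (ht.eventually (lt_mem_nhds hl2))
  set δ := min (r / 2) (1 / 4) with hδdef
  have hδ : 0 < δ := lt_min (by positivity) (by norm_num)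
  have hδ1 : δ ≤ 1 / 4 := min_le_right _ _
  have hδr : δ < r := lt_of_le_of_lt (min_le_left _ _) (by linarith)
  have h5 : lam' < (1 - 2 * δ) * (Uni.c1 δ * lam / (1 + δ)) := h4 (by
    rw [Real.dist_eq, sub_zero, abs_of_pos hδ]; exact hδr)
  have hlam'0 : 0 < lam' := lt_of_le_of_lt (Nat.cast_nonneg k) hl1
  have hG0 : 0 < Uni.GG k lam' := by
    unfold Uni.GG
    apply mul_pos hlam'0
    apply prod_pos
    intro i hi
    have hi' : (i + 1 : ℝ) ≤ k := by exact_mod_cast mem_range.1 hi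
    exact lt_max_of_lt_right (by linarith)
  have hfac : (0:ℝ) < (k + 1).factorial := by exact_mod_cast Nat.factorial_pos _
  refine ⟨Uni.GG k lam' / ((k + 1).factorial * C₁), by positivity, fun C hC => ?_⟩
  set m : ℕ := (k + 1) + (k + 1) * (k + 1) with hm
  have hm1 : 1 ≤ m := by omega
  have tN : Tendsto (fun N : ℕ => (N : ℝ)) atTop atTop := tendsto_natCast_atTop_atTop
  have tL : Tendsto (fun N : ℕ => Real.log (N : ℝ)) atTop atTop := Real.tendsto_log_atTop.comp tN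
  filter_upwards [CL_eventually C hC hδ hδ1, Uni.par_eventually k (C * (2 * m : ℕ)) hδ (by linarith) 1,
    tL.eventually_ge_atTop 1, eventually_ge_atTop (x₁ + 1)] with N hCL hP hL1 hN1
  intro A hpA hA hcard
  set L := Real.log (N:ℝ) with hLd
  have hL0 : 0 < L := by linarith
  set M : ℕ := ⌊L ^ C⌋₊ with hM
  set y : ℕ := ⌊Real.log L⌋₊ with hy
  have hLC1 : 1 ≤ L ^ C := Real.one_le_rpow hL1 hC
  have hM1 : 1 ≤ M := Nat.le_floor (by simpa using hLC1)
  have hAM : ∀ Lf ∈ A, Lf.1 ≤ M ∧ Lf.2 ≤ M := fun Lf hLf =>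
    ⟨Nat.le_floor (hA Lf hLf).1, Nat.le_floor (hA Lf hLf).2⟩
  have hMr : (M : ℝ) ≤ L ^ C := Nat.floor_le (by positivity)
  have hW : (Uni.WW y : ℝ) ≤ δ * N := by
    have h1 := hP.hW3
    have : (0:ℝ) ≤ k := Nat.cast_nonneg k
    linarith
  have hbig : ∀ n : ℕ, n ≤ (M ^ 2) ^ m → n ≤ ⌊L ^ (C * (2 * m : ℕ))⌋₊ := by
    intro n hn
    apply Nat.le_floor
    have h1 : (n : ℝ) ≤ ((M ^ 2) ^ m : ℕ) := by exact_mod_cast hn
    refine h1.trans ?_
    push_cast
    rw [← pow_mul]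
    calc (M : ℝ) ^ (2 * m) ≤ (L ^ C) ^ (2 * m) := pow_le_pow_left₀ (Nat.cast_nonneg _) hMr _
      _ = L ^ (C * (2 * m : ℕ)) := by rw [Real.rpow_mul_natCast hL0.le]
      _ = _ := by push_cast; rfl
  have key := mean_low (k := k) hCL (SZ_of (Uni.WW_pos y) (by omega) hδ hW) hδ hδ1 hL0 hlam0 hpA hAM
    (by
      intro Lf hLf
      apply hP.htt _ (hpA Lf hLf).1
      apply hbig
      calc Lf.1 ≤ M := (hAM Lf hLf).1
        _ ≤ M ^ 2 := by nlinarith
        _ ≤ (M ^ 2) ^ m := Nat.le_self_pow (by omega) _)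
    hcard
  have hN0 : (0 : ℝ) < N := by exact_mod_cast (by omega : 0 < N)
  have hGm : Uni.GG k lam' ≤ Uni.GG k ((1 - 2 * δ) * (Uni.c1 δ * lam / (1 + δ))) :=
    Uni.GG_mono k (show lam' ∈ Set.Ici (0:ℝ) from hlam'0.le) (show _ ∈ Set.Ici (0:ℝ) from hlam'0.le.trans h5.le) h5.le
  have hup' : ∑ T ∈ A.powersetCard (k + 1), (cnt N T : ℝ) ≤
      C₁ * (N / L ^ (k + 1)) * ∑ T ∈ A.powersetCard (k + 1), SL T := by
    rw [mul_sum]
    apply sum_le_sum
    intro T hT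
    have hT' := mem_powersetCard.1 hT
    refine (hup N (by omega) T (fun L hLT => hpA L (hT'.1 hLT)) hT'.2).trans (le_of_eq ?_)
    rw [hLd]
    ring
  have h6 : (N : ℝ) * Uni.GG k lam' ≤
      ((k + 1).factorial : ℝ) * (C₁ * (N / L ^ (k + 1)) * ∑ T ∈ A.powersetCard (k + 1), SL T) :=
    (mul_le_mul_of_nonneg_left hGm hN0.le).trans (key.trans (mul_le_mul_of_nonneg_left hup' hfac.le))
  have hLk : 0 < L ^ (k + 1) := by positivity
  rw [div_mul_eq_mul_div, div_le_iff₀ (by positivity)]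
  have h7 : (N : ℝ) * (Uni.GG k lam' * L ^ (k + 1)) ≤
      N * ((∑ T ∈ A.powersetCard (k + 1), SL T) * ((k + 1).factorial * C₁)) := by
    have e1 : (N : ℝ) * (Uni.GG k lam' * L ^ (k + 1)) = (N : ℝ) * Uni.GG k lam' * L ^ (k + 1) := by ring
    rw [e1]
    refine (mul_le_mul_of_nonneg_right h6 hLk.le).trans (le_of_eq ?_)
    field_simp
  exact le_of_mul_le_mul_left h7 hN0

end Pool.Agent.U28.SF
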