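import Pool.Agent.U28.SF.SF11

set_option autoImplicit false

/-!
# Pairs of primes with a given difference in all short intervals
-/

namespace Pool.Agent.U28.SF

open Finset Filter Topology
open Pool.Agent.Y843.HS (Pr VV)
open Pool.Agent.X58.IV (Adm VV_pos)
open Pool.Agent.U28.PG (AllLengths FirstAP)
open Pool.Agent.Y840.PT (floor_pow)
open Pool.Agent.H560R3.GB (sing C₂)

/-- the class of `-u` -/
def ng (u q : ℕ) : ℕ := (q - u % q) % q

lemma ng_lt {u q : ℕ} (hq : 0 < q) : ng u q < q := Nat.mod_lt _ hq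

lemma ng_iff {u q n : ℕ} (hq : 0 < q) : n % q = ng u q ↔ q ∣ n + u := by
  have h1 : q ∣ n + u ↔ (n % q + u % q) % q = 0 := by
    rw [← Nat.add_mod]
    exact Nat.dvd_iff_mod_eq_zero
  rw [h1]
  unfold ng
  have ha := Nat.mod_lt n hq
  have hr := Nat.mod_lt u hq
  set a := n % q
  set r := u % q
  rcases Nat.eq_zero_or_pos r with h0 | h0
  · rw [h0, Nat.sub_zero, Nat.mod_self, Nat.add_zero, Nat.mod_eq_of_lt ha]
  · rw [Nat.mod_eq_of_lt (show q - r < q by omega)]
    constructor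
    · intro h
      have : a + r = q := by omega
      rw [this, Nat.mod_self]
    · intro h
      have h2 : q ∣ a + r := Nat.dvd_of_mod_eq_zero h
      obtain ⟨c, hc⟩ := h2
      have hc1 : 0 < c := by
        rcases Nat.eq_zero_or_pos c with h3 | h3
        · rw [h3] at hc
          omega
        · exact h3
      have hc2 : c < 2 := by
        by_contra hcon
        have : q * 2 ≤ q * c := Nat.mul_le_mul_left q (by omega)
        omega
      have : c = 1 := by omega
      rw [this] at hc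
      omega

/-- the classes `-u` and `-u-h` -/
def ZD (u h q : ℕ) : Finset ℕ := {ng u q, ng (u + h) q}

lemma mem_ZD {u h q n : ℕ} (hq : 0 < q) : n % q ∈ ZD u h q ↔ q ∣ n + u ∨ q ∣ n + u + h := by
  unfold ZD
  rw [mem_insert, mem_singleton, ng_iff hq, ng_iff hq, add_assoc]

lemma ZD_card {u h p : ℕ} (hp : p.Prime) : (ZD u h p).card = if p ∣ h then 1 else 2 := by
  have h1 : p ∣ ng u p + u := by
    rw [← ng_iff hp.pos]
    exact Nat.mod_eq_of_lt (ng_lt hp.pos)
  have h2 : ng u p = ng (u + h) p ↔ p ∣ h := by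
    constructor
    · intro he
      have h3 : p ∣ ng u p + (u + h) := by
        rw [← ng_iff hp.pos, ← he]
        exact Nat.mod_eq_of_lt (ng_lt hp.pos)
      have h4 := (Nat.dvd_add_right h1).1 (by rwa [← add_assoc] at h3)
      exact h4
    · intro hd
      have h3 : p ∣ ng u p + (u + h) := by
        rw [← add_assoc]
        exact dvd_add h1 hd
      rw [← ng_iff hp.pos] at h3
      rw [← h3]
      exact (Nat.mod_eq_of_lt (ng_lt hp.pos)).symm
  unfold ZD
  split_ifs with h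
  · rw [h2.2 h]
    simp
  · exact card_pair fun he => h (h2.1 he)

lemma ZD_adm {u h : ℕ} (hm : 2 ∣ h) : Adm 2 (ZD u h) := by
  intro p hp
  refine ⟨?_, ?_, ?_⟩
  · rw [ZD_card hp]
    split_ifs <;> norm_num
  · rw [ZD_card hp]
    split_ifs with hd
    · exact hp.one_lt
    · rcases eq_or_ne p 2 with rfl | h2
      · exact absurd hm hd
      · have := hp.two_le
        omega
  · intro c hc
    unfold ZD at hc
    rw [mem_insert, mem_singleton] at hc
    rcases hc with rfl | rfl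
    · exact ng_lt hp.pos
    · exact ng_lt hp.pos

lemma ZD_VV (u h y : ℕ) : VV (ZD u h) 0 y = VV (ZG h) 0 y := by
  unfold VV
  apply Finset.prod_congr rfl
  intro p hp
  have hpp := (mem_filter.1 hp).2
  rw [ZD_card hpp, ZG_card hpp]

set_option maxHeartbeats 4000000 in
open Classical in
/-- **Dense sets of pairs of primes with a given difference, in any window.** -/
theorem pairs_win (m : ℕ) (δ : ℝ) (hδ : 0 < δ) : ∃ κ : ℝ, 0 < κ ∧ ∃ B : ℕ, ∀ᶠ N : ℕ in atTop,
    ∀ u h : ℕ, 1 ≤ h → 2 ∣ h → ∀ A ⊆ Ioc u (u + N), (∀ p ∈ A, p.Prime ∧ (p + h).Prime) →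
    δ * (sing h / Real.log N ^ 2 * N) ≤ A.card →
    κ * N ≤ (((Icc u (u + N)).filter (fun n => ∀ H : ℕ, 1 ≤ sing h / Real.log N ^ 2 * H → H ≤ N →
      κ * (sing h / Real.log N ^ 2 * H) ≤
        (((Ioc n (n + H)).filter (FirstAP m (Real.log N ^ B) A)).card : ℝ))).card : ℝ) := by
  obtain ⟨C, hC, hV⟩ := ZG_V
  set M : ℝ := C * 256 with hM
  have hM0 : 0 < M := by positivity
  obtain ⟨κ1, hκ1, B, X1, hap⟩ := sifted_ap 2 m (1 / 4) (1 / 2) (δ / 2) M (by norm_num) (by norm_num)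
    (by positivity) hM0
  refine ⟨κ1, hκ1, B, ?_⟩
  have hlo := (isLittleO_log_rpow_rpow_atTop (2 : ℝ) (show (0 : ℝ) < 1 / 4 by norm_num)).bound
    (show (0 : ℝ) < δ / 2 by positivity)
  have tN : Tendsto (fun N : ℕ => (N : ℝ)) atTop atTop := tendsto_natCast_atTop_atTop
  filter_upwards [eventually_ge_atTop X1, floor_pow (κ := 1 / 4) (by norm_num) 2,
    VV_small 2 (1 / 4) 0 (by norm_num) le_rfl, tN.eventually hlo, eventually_ge_atTop 4] with N h1 h2 h3 h4 h5
  intro u h hh1 hh2 A hA hAp hAc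
  obtain ⟨f1, f2, f3⟩ := h2
  have hN0 : (0 : ℝ) < N := by exact_mod_cast (by omega : 0 < N)
  have hN4 : (4 : ℝ) ≤ N := by exact_mod_cast h5
  have hL0 : 0 < Real.log (N : ℝ) := Real.log_pos (by linarith)
  have hs : 1 ≤ sing h := Pool.Agent.W93.GB.one_le_sing h
  have hs0 : 0 < sing h := lt_of_lt_of_le one_pos hs
  have hZ : Adm 2 (ZD u h) := ZD_adm hh2
  have hVs : VV (ZD u h) 0 ⌊(N : ℝ) ^ (1 / 4 : ℝ)⌋₊ * Real.log N ^ (1 / 2 : ℝ) ≤ 1 :=
    h3 (ZD u h) hZ 1 le_rfl (by rw [Real.rpow_zero]; norm_num) (fun p hp _ => by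
      rw [ZD_card hp]
      split_ifs <;> norm_num)
  set μ : ℝ := sing h / Real.log N ^ 2 with hμ
  have hμ0 : 0 < μ := by positivity
  have hVM : VV (ZD u h) 0 ⌊(N : ℝ) ^ (1 / 4 : ℝ)⌋₊ ≤ M * μ := by
    rw [ZD_VV]
    refine (hV _ f2 h hh1 hh2).trans ?_
    have g1 : (Real.log (N : ℝ) / 16) ^ 2 ≤ Real.log (⌊(N : ℝ) ^ (1 / 4 : ℝ)⌋₊ : ℕ) ^ 2 := by
      apply pow_le_pow_left₀ (by positivity)
      linarith
    calc C * sing h / Real.log (⌊(N : ℝ) ^ (1 / 4 : ℝ)⌋₊ : ℕ) ^ 2
        ≤ C * sing h / (Real.log (N : ℝ) / 16) ^ 2 :=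
          div_le_div_of_nonneg_left (by positivity) (by positivity) g1
      _ = M * μ := by
          rw [hM, hμ, div_pow]
          field_simp
          norm_num
  -- remove the small primes and translate
  set A' : Finset ℕ := A.filter (fun p : ℕ => (N : ℝ) ^ (1 / 4 : ℝ) < (p : ℝ)) with hA'
  have hA'c : δ / 2 * (μ * N) ≤ (A'.card : ℝ) := by
    have k1 : A ⊆ A' ∪ Icc 1 ⌊(N : ℝ) ^ (1 / 4 : ℝ)⌋₊ := by
      intro q hq
      rw [mem_union, hA', mem_filter, mem_Icc]
      by_cases hx : (N : ℝ) ^ (1 / 4 : ℝ) < (q : ℝ)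
      · exact Or.inl ⟨hq, hx⟩
      · exact Or.inr ⟨(hAp q hq).1.one_lt.le, Nat.le_floor (not_lt.1 hx)⟩
    have k2 : (A.card : ℝ) ≤ A'.card + ⌊(N : ℝ) ^ (1 / 4 : ℝ)⌋₊ := by
      have e1 := (card_le_card k1).trans (card_union_le _ _)
      rw [Nat.card_Icc, Nat.add_sub_cancel] at e1
      exact_mod_cast e1
    have k3 : (⌊(N : ℝ) ^ (1 / 4 : ℝ)⌋₊ : ℝ) ≤ (N : ℝ) ^ (1 / 4 : ℝ) := Nat.floor_le (by positivity)
    have k4 : (N : ℝ) ^ (1 / 4 : ℝ) ≤ δ / 2 * (μ * N) := by
      rw [Real.norm_of_nonneg (by positivity), Real.norm_of_nonneg (by positivity), Real.rpow_two] at h4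
      have g2 : (N : ℝ) ^ (1 / 4 : ℝ) * Real.log N ^ 2 ≤ δ / 2 * N := by
        calc (N : ℝ) ^ (1 / 4 : ℝ) * Real.log N ^ 2
            ≤ (N : ℝ) ^ (1 / 4 : ℝ) * (δ / 2 * (N : ℝ) ^ (1 / 4 : ℝ)) :=
              mul_le_mul_of_nonneg_left h4 (by positivity)
          _ = δ / 2 * (N : ℝ) ^ (1 / 2 : ℝ) := by
              rw [show (1 / 2 : ℝ) = 1 / 4 + 1 / 4 by norm_num, Real.rpow_add hN0]
              ring
          _ ≤ δ / 2 * N := by
              apply mul_le_mul_of_nonneg_left _ (by positivity)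
              calc (N : ℝ) ^ (1 / 2 : ℝ) ≤ (N : ℝ) ^ (1 : ℝ) :=
                    Real.rpow_le_rpow_of_exponent_le (by linarith) (by norm_num)
                _ = N := Real.rpow_one _
      have g3 : (N : ℝ) ^ (1 / 4 : ℝ) ≤ δ / 2 * N / Real.log N ^ 2 := by
        rw [le_div_iff₀ (by positivity)]
        exact g2
      refine g3.trans ?_
      have e : δ / 2 * (μ * N) = sing h * (δ / 2 * N / Real.log N ^ 2) := by
        rw [hμ]
        ring
      rw [e]
      exact le_mul_of_one_le_left (by positivity) hs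
    linarith
  have hA'u : ∀ p ∈ A', u < p ∧ p ≤ u + N := fun p hp => mem_Ioc.1 (hA (mem_filter.1 hp).1)
  set S : Finset ℕ := A'.image (fun p => p - u) with hS
  have hSc : S.card = A'.card := by
    rw [hS]
    apply card_image_of_injOn
    intro p hp q hq hpq
    have a1 := hA'u p hp
    have a2 := hA'u q hq
    simp only at hpq
    omega
  have hSmem : ∀ n ∈ S, n + u ∈ A' := by
    intro n hn
    rw [hS, mem_image] at hn
    obtain ⟨p, hp, rfl⟩ := hn
    have := hA'u p hp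
    have e : p - u + u = p := by omega
    rw [e]
    exact hp
  have hSI : S ⊆ Icc 1 N := by
    intro n hn
    have := hA'u _ (hSmem n hn)
    rw [mem_Icc]
    omega
  have hfree : Free (ZD u h) (1 / 4) N S := by
    intro n hn q hq hqn hcon
    have hpA := hSmem n hn
    rw [hA', mem_filter] at hpA
    obtain ⟨g1, g2⟩ := hpA
    obtain ⟨g3, g4⟩ := hAp _ g1
    rw [mem_ZD hq.pos] at hcon
    rcases hcon with h0 | h0
    · have heq := (Nat.prime_dvd_prime_iff_eq hq g3).1 h0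
      rw [← heq] at g2
      linarith
    · have heq := (Nat.prime_dvd_prime_iff_eq hq g4).1 h0
      have : ((n + u : ℕ) : ℝ) ≤ q := by
        exact_mod_cast (by omega : n + u ≤ q)
      linarith
  have key := hap N h1 (ZD u h) hZ hVs μ hμ0 hVM S hSI hfree (by
    rw [hSc]
    exact hA'c)
  unfold AllLengths at key
  refine key.trans ?_
  rw [Nat.cast_le]
  apply card_le_card_of_injOn (fun n => n + u)
  · intro n hn
    rw [mem_coe, mem_filter, mem_range] at hn
    obtain ⟨b1, b2⟩ := hn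
    rw [mem_coe, mem_filter, mem_Icc]
    refine ⟨⟨by show u ≤ n + u; omega, by show n + u ≤ u + N; omega⟩, fun H hH1 hH2 => (b2 H hH1 hH2).trans ?_⟩
    rw [Nat.cast_le]
    apply card_le_card_of_injOn (fun n => n + u)
    · intro x hx
      rw [mem_coe, mem_filter, mem_Ioc] at hx
      obtain ⟨c1, d, hd1, hd2, hd3⟩ := hx
      rw [mem_coe, mem_filter, mem_Ioc]
      refine ⟨by show n + u < x + u ∧ x + u ≤ n + u + H; omega, d, hd1, hd2, fun j hj => ?_⟩
      have := hSmem _ (hd3 j hj)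
      have e : x + u + j * d = x + j * d + u := by ring
      rw [e]
      exact (mem_filter.1 this).1
    · intro a _ b _ hab
      simpa using hab
  · intro a _ b _ hab
    simpa using hab

end Pool.Agent.U28.SF
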