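import Pool.Agent.U28.SF.SF13

set_option autoImplicit false

/-!
# Linear forms with integral constant terms
-/

namespace Pool.Agent.U28.SF

open Finset Filter Topology
open Pool.Agent.U28.PG (AllLengths FirstAP)
open Pool.Agent.W218.MU (SL Prim w loc)
open Pool.Agent.Y840.PT (SL_ge adm_of_pos)

open Classical in
/-- the number of classes `n mod p` with `p ∣ a n + b` for some form `(a, b)` of `T` -/
noncomputable def wI (T : Finset (ℕ × ℤ)) (p : ℕ) : ℕ :=
  ((range p).filter (fun n : ℕ => ∃ L ∈ T, (p : ℤ) ∣ (L.1 : ℤ) * n + L.2)).card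

/-- the singular product -/
noncomputable def SI (T : Finset (ℕ × ℤ)) : ℝ :=
  ∏' p : Nat.Primes, (1 - (wI T p : ℝ) / ((p : ℕ) : ℝ)) / (1 - 1 / ((p : ℕ) : ℝ)) ^ T.card

/-- primitive forms -/
def PrimI (T : Finset (ℕ × ℤ)) : Prop := ∀ L ∈ T, 1 ≤ L.1 ∧ IsCoprime (L.1 : ℤ) L.2

/-- the form seen from `v` -/
def sft (v : ℕ) (L : ℕ × ℤ) : ℕ × ℕ := (L.1, ((L.1 : ℤ) * v + L.2).toNat)

lemma sft_inj (v : ℕ) (T : Finset (ℕ × ℤ)) (hT : ∀ L ∈ T, 0 ≤ (L.1 : ℤ) * v + L.2) :
    Set.InjOn (sft v) (T : Set (ℕ × ℤ)) := by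
  intro L hL L' hL' h
  have h1 := hT L hL
  have h2 := hT L' hL'
  unfold sft at h
  rw [Prod.mk.injEq] at h
  obtain ⟨e1, e2⟩ := h
  have e3 : (L.1 : ℤ) * v + L.2 = (L'.1 : ℤ) * v + L'.2 := by
    rw [← Int.toNat_of_nonneg h1, ← Int.toNat_of_nonneg h2, e2]
  ext
  · exact_mod_cast e1
  · rw [e1] at e3
    linarith

lemma w_sft (v : ℕ) (T : Finset (ℕ × ℤ)) (hT : ∀ L ∈ T, 0 ≤ (L.1 : ℤ) * v + L.2) {p : ℕ} (hp : 0 < p) :
    w (T.image (sft v)) p = wI T p := by
  classical
  unfold w wI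
  have key : ∀ n : ℕ, (∃ L ∈ T.image (sft v), p ∣ L.1 * n + L.2) ↔
      ∃ L ∈ T, (p : ℤ) ∣ (L.1 : ℤ) * ((n + v : ℕ) : ℤ) + L.2 := by
    intro n
    constructor
    · rintro ⟨L', hL', hd⟩
      rw [mem_image] at hL'
      obtain ⟨L, hL, rfl⟩ := hL'
      refine ⟨L, hL, ?_⟩
      have h1 := hT L hL
      have h2 : ((p : ℕ) : ℤ) ∣ (((sft v L).1 * n + (sft v L).2 : ℕ) : ℤ) := Int.natCast_dvd_natCast.2 hd
      unfold sft at h2
      push_cast at h2
      rw [Int.toNat_of_nonneg h1] at h2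
      have e : (L.1 : ℤ) * ((n + v : ℕ) : ℤ) + L.2 = L.1 * n + (L.1 * v + L.2) := by
        push_cast
        ring
      rw [e]
      exact h2
    · rintro ⟨L, hL, hd⟩
      refine ⟨sft v L, mem_image_of_mem _ hL, ?_⟩
      have h1 := hT L hL
      rw [← Int.natCast_dvd_natCast]
      unfold sft
      push_cast
      rw [Int.toNat_of_nonneg h1]
      have e : (L.1 : ℤ) * ((n + v : ℕ) : ℤ) + L.2 = L.1 * n + (L.1 * v + L.2) := by
        push_cast
        ring
      rw [← e]
      exact hd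
  have hper : ∀ n : ℕ, (∃ L ∈ T, (p : ℤ) ∣ (L.1 : ℤ) * ((n % p : ℕ) : ℤ) + L.2) ↔
      ∃ L ∈ T, (p : ℤ) ∣ (L.1 : ℤ) * (n : ℤ) + L.2 := by
    intro n
    have h1 : (L : ℕ × ℤ) → ((p : ℤ) ∣ (L.1 : ℤ) * ((n % p : ℕ) : ℤ) + L.2 ↔ (p : ℤ) ∣ (L.1 : ℤ) * (n : ℤ) + L.2) := by
      intro L
      have h2 : (L.1 : ℤ) * ((n % p : ℕ) : ℤ) + L.2 ≡ (L.1 : ℤ) * (n : ℤ) + L.2 [ZMOD p] := by
        apply Int.ModEq.add_right
        apply Int.ModEq.mul_left
        push_cast
        exact Int.mod_modEq _ _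
      exact h2.dvd_iff
    constructor
    · rintro ⟨L, hL, hd⟩
      exact ⟨L, hL, (h1 L).1 hd⟩
    · rintro ⟨L, hL, hd⟩
      exact ⟨L, hL, (h1 L).2 hd⟩
  apply card_nbij' (fun n => (n + v) % p) (fun n => (n + (p - v % p)) % p)
  · intro n hn
    rw [mem_coe, mem_filter, mem_range] at hn ⊢
    exact ⟨Nat.mod_lt _ hp, (hper (n + v)).2 ((key n).1 hn.2)⟩
  · intro n hn
    rw [mem_coe, mem_filter, mem_range] at hn ⊢
    refine ⟨Nat.mod_lt _ hp, (key _).2 ?_⟩
    rw [← hper]
    have e : ((n + (p - v % p)) % p + v) % p = n := by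
      have h3 := Nat.mod_lt v hp
      have h4 : ((n + (p - v % p)) % p + v) % p = (n + (p - v % p) + v) % p := by
        rw [Nat.mod_add_mod]
      rw [h4]
      have h5 : n + (p - v % p) + v = n + p * (v / p + 1) := by
        have h6 := Nat.div_add_mod v p
        have h7 : p * (v / p + 1) = p * (v / p) + p := by ring
        omega
      rw [h5, Nat.add_mul_mod_self_left, Nat.mod_eq_of_lt hn.1]
    rw [e]
    exact hn.2
  · intro n hn
    rw [mem_coe, mem_filter, mem_range] at hn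
    show ((n + v) % p + (p - v % p)) % p = n
    have h3 := Nat.mod_lt v hp
    rw [Nat.mod_add_mod]
    have h5 : n + v + (p - v % p) = n + p * (v / p + 1) := by
      have h6 := Nat.div_add_mod v p
      have h7 : p * (v / p + 1) = p * (v / p) + p := by ring
      omega
    rw [h5, Nat.add_mul_mod_self_left, Nat.mod_eq_of_lt hn.1]
  · intro n hn
    rw [mem_coe, mem_filter, mem_range] at hn
    show ((n + (p - v % p)) % p + v) % p = n
    have h3 := Nat.mod_lt v hp
    rw [Nat.mod_add_mod]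
    have h5 : n + (p - v % p) + v = n + p * (v / p + 1) := by
      have h6 := Nat.div_add_mod v p
      have h7 : p * (v / p + 1) = p * (v / p) + p := by ring
      omega
    rw [h5, Nat.add_mul_mod_self_left, Nat.mod_eq_of_lt hn.1]

lemma SL_sft (v : ℕ) (T : Finset (ℕ × ℤ)) (hT : ∀ L ∈ T, 0 ≤ (L.1 : ℤ) * v + L.2) :
    SL (T.image (sft v)) = SI T := by
  unfold SL SI
  apply tprod_congr
  intro p
  unfold loc
  rw [w_sft v T hT p.2.pos, card_image_of_injOn (sft_inj v T hT)]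

lemma prim_sft (v : ℕ) (T : Finset (ℕ × ℤ)) (hp : PrimI T) (hT : ∀ L ∈ T, 0 ≤ (L.1 : ℤ) * v + L.2) :
    Prim (T.image (sft v)) := by
  intro L' hL'
  rw [mem_image] at hL'
  obtain ⟨L, hL, rfl⟩ := hL'
  obtain ⟨h1, h2⟩ := hp L hL
  refine ⟨h1, ?_⟩
  rw [← Nat.isCoprime_iff_coprime]
  unfold sft
  rw [Int.toNat_of_nonneg (hT L hL)]
  have e : (L.1 : ℤ) * v + L.2 = L.2 + L.1 * v := by ring
  rw [e]
  exact h2.add_mul_left_right _

set_option maxHeartbeats 4000000 in
open Classical in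
/-- **Dense sets of prime points of `l` linear forms with arbitrary integral constant terms.** -/
theorem intforms_all (l m : ℕ) (hl : 1 ≤ l) (A δ : ℝ) (hA : 0 ≤ A) (hδ : 0 < δ) : ∃ κ1 : ℝ, 0 < κ1 ∧
    ∃ B : ℕ, ∀ᶠ X : ℕ in atTop, ∀ T : Finset (ℕ × ℤ), PrimI T → T.card = l →
    (∀ L ∈ T, (L.1 : ℝ) ≤ (X : ℝ) ^ A) → 0 < SI T →
    ∀ D : Finset ℕ, (∀ n ∈ D, 1 ≤ n ∧ n ≤ X ∧ ∀ L ∈ T, ∃ p : ℕ, p.Prime ∧ (L.1 : ℤ) * n + L.2 = p) →
    δ * (SI T * (X / Real.log X ^ l)) ≤ D.card →
    AllLengths κ1 (SI T / Real.log X ^ l) X (FirstAP m (Real.log X ^ B) D) := by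
  obtain ⟨κ1, hκ1, B, h⟩ := forms_all l (max m 1) hl A (δ / 2) hA (by positivity)
  obtain ⟨c, hc, hSLge⟩ := SL_ge l
  refine ⟨min κ1 1, lt_min hκ1 one_pos, B, ?_⟩
  have tN : Tendsto (fun N : ℕ => (N : ℝ)) atTop atTop := tendsto_natCast_atTop_atTop
  have hlo := (isLittleO_log_rpow_rpow_atTop (l : ℝ) (show (0 : ℝ) < 1 by norm_num)).bound
    (show (0 : ℝ) < δ / 2 * c by positivity)
  filter_upwards [h, tN.eventually hlo, eventually_ge_atTop 3] with X hX h2 h3
  intro T hT hTc hTA hS D hD hDc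
  have hX0 : (0 : ℝ) < X := by exact_mod_cast (by omega : 0 < X)
  have hL0 : 0 < Real.log (X : ℝ) := Real.log_pos (by exact_mod_cast (by omega : 1 < X))
  have hLl : 0 < Real.log (X : ℝ) ^ l := by positivity
  have hmain0 : 0 < δ * (SI T * (X / Real.log X ^ l)) := by positivity
  have hDne : D.Nonempty := by
    rw [← card_pos]
    have : (0 : ℝ) < D.card := lt_of_lt_of_le hmain0 hDc
    exact_mod_cast this
  -- the least element
  obtain ⟨v, hv⟩ : ∃ v, v = D.min' hDne := ⟨_, rfl⟩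
  have hvD : v ∈ D := by rw [hv]; exact D.min'_mem hDne
  have hvmin : ∀ n ∈ D, v ≤ n := fun n hn => by rw [hv]; exact D.min'_le n hn
  have hpos : ∀ L ∈ T, 0 ≤ (L.1 : ℤ) * v + L.2 := by
    intro L hL
    obtain ⟨p, hp, he⟩ := (hD v hvD).2.2 L hL
    rw [he]
    positivity
  have hSL : SL (T.image (sft v)) = SI T := SL_sft v T hpos
  have hcard : (T.image (sft v)).card = l := by rw [card_image_of_injOn (sft_inj v T hpos), hTc]
  have hprim := prim_sft v T hT hpos
  have hSLc : c ≤ SI T := by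
    rw [← hSL]
    exact hSLge _ hprim hcard (adm_of_pos hprim (by rw [hSL]; exact hS))
  set D' : Finset ℕ := (D.erase v).image (fun n => n - v) with hD'
  have hD'c : (D'.card : ℝ) = D.card - 1 := by
    rw [hD', card_image_of_injOn, card_erase_of_mem hvD]
    · have : 1 ≤ D.card := card_pos.2 hDne
      push_cast [Nat.cast_sub this]
      ring
    · intro a ha b hb hab
      have h4 := hvmin a (mem_of_mem_erase ha)
      have h5 := hvmin b (mem_of_mem_erase hb)
      simp only at hab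
      omega
  have hD'mem : ∀ n ∈ D', 1 ≤ n ∧ n + v ∈ D := by
    intro n hn
    rw [hD', mem_image] at hn
    obtain ⟨a, ha, rfl⟩ := hn
    obtain ⟨ha1, ha2⟩ := mem_erase.1 ha
    have h4 := hvmin a ha2
    refine ⟨by omega, ?_⟩
    have e : a - v + v = a := by omega
    rw [e]
    exact ha2
  have hone : 1 ≤ δ / 2 * (SI T * (X / Real.log X ^ l)) := by
    rw [Real.rpow_one, Real.rpow_natCast, Real.norm_of_nonneg (by positivity), Real.norm_of_nonneg hX0.le] at h2
    have e : δ / 2 * (SI T * (X / Real.log X ^ l)) = (δ / 2 * SI T * X) / Real.log X ^ l := by ring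
    rw [e, le_div_iff₀ hLl, one_mul]
    refine h2.trans ?_
    gcongr
  have key := hX (T.image (sft v)) hprim hcard (by
    intro L' hL'
    rw [mem_image] at hL'
    obtain ⟨L, hL, rfl⟩ := hL'
    exact hTA L hL) (by rw [hSL]; exact hS) D' (by
    intro n hn
    obtain ⟨g1, g2⟩ := hD'mem n hn
    obtain ⟨g3, g4, g5⟩ := hD _ g2
    refine ⟨g1, by omega, ?_⟩
    intro L' hL'
    rw [mem_image] at hL'
    obtain ⟨L, hL, rfl⟩ := hL'
    obtain ⟨p, hp, he⟩ := g5 L hL
    have h6 : (((sft v L).1 * n + (sft v L).2 : ℕ) : ℤ) = (p : ℤ) := by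
      rw [← he]
      unfold sft
      push_cast
      rw [Int.toNat_of_nonneg (hpos L hL)]
      ring
    have h7 : (sft v L).1 * n + (sft v L).2 = p := by exact_mod_cast h6
    rw [h7]
    exact hp) (by
    rw [hSL, hD'c]
    linarith)
  rw [hSL] at key
  -- transfer back
  have hμ0 : 0 < SI T / Real.log X ^ l := by positivity
  by_cases hbig : SI T / Real.log X ^ l * X < 1
  · unfold AllLengths
    rw [filter_true_of_mem]
    · rw [card_range]
      push_cast
      have : min κ1 1 * (X : ℝ) ≤ 1 * X := mul_le_mul_of_nonneg_right (min_le_right _ _) hX0.le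
      linarith
    · intro n _ H hH1 hH2
      exfalso
      have h5 : (H : ℝ) ≤ X := by exact_mod_cast hH2
      have h6 : SI T / Real.log X ^ l * H ≤ SI T / Real.log X ^ l * X := mul_le_mul_of_nonneg_left h5 hμ0.le
      linarith
  · rw [not_lt] at hbig
    unfold AllLengths at key ⊢
    refine (mul_le_mul_of_nonneg_right (min_le_left _ _) hX0.le).trans (key.trans ?_)
    rw [Nat.cast_le]
    apply card_le_card_of_injOn (fun n => n + v)
    · intro n hn
      rw [mem_coe, mem_filter, mem_range] at hn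
      obtain ⟨b1, b2⟩ := hn
      have hnX : n + v ≤ X := by
        -- the interval of length `X` contains an element
        have h5 := b2 X hbig le_rfl
        have h6 : (0 : ℝ) < (((Ioc n (n + X)).filter (FirstAP (max m 1) (Real.log X ^ B) D')).card : ℝ) :=
          lt_of_lt_of_le (by positivity) h5
        have h7 : 0 < ((Ioc n (n + X)).filter (FirstAP (max m 1) (Real.log X ^ B) D')).card := by exact_mod_cast h6
        obtain ⟨z, hz⟩ := card_pos.1 h7
        rw [mem_filter, mem_Ioc] at hz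
        obtain ⟨⟨hz1, hz2⟩, d, hd1, hd2, hd3⟩ := hz
        have h8 := hD'mem _ (hd3 0 (lt_of_lt_of_le one_pos (le_max_right _ _)))
        have h9 := (hD _ h8.2).2.1
        omega
      rw [mem_coe, mem_filter, mem_range]
      refine ⟨by show n + v < X + 1; omega, fun H hH1 hH2 => ?_⟩
      have hH0 : 0 ≤ SI T / Real.log X ^ l * H := mul_nonneg hμ0.le (Nat.cast_nonneg H)
      refine (mul_le_mul_of_nonneg_right (min_le_left _ _) hH0).trans ((b2 H hH1 hH2).trans ?_)
      rw [Nat.cast_le]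
      apply card_le_card_of_injOn (fun n => n + v)
      · intro x hx
        rw [mem_coe, mem_filter, mem_Ioc] at hx
        obtain ⟨c1, d, hd1, hd2, hd3⟩ := hx
        rw [mem_coe, mem_filter, mem_Ioc]
        refine ⟨by show n + v < x + v ∧ x + v ≤ n + v + H; omega, d, hd1, hd2, fun j hj => ?_⟩
        have := (hD'mem _ (hd3 j (lt_of_lt_of_le hj (le_max_left _ _)))).2
        have e : x + v + j * d = x + j * d + v := by ring
        rw [e]
        exact this
      · intro a _ b _ hab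
        simpa using hab
    · intro a _ b _ hab
      simpa using hab

end Pool.Agent.U28.SF
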