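import Pool.Agent.U28.SF.SF15
import Pool.Agent.Helper22K9.Trp.Gall

set_option autoImplicit false

/-!
# Prime tuples in windows which contain a positive proportion of the expected number of primes
-/

namespace Pool.Agent.U28.SF

open Finset Filter Topology
open Pool.Agent.H387R2
open Pool.Agent.W218.MU (SL Prim w loc)
open Pool.Agent.U28.PG (AllLengths FirstAP)
open Pool.Agent.Y840.PT (sh prim_sh SL_sh ZT)

/-- the forms `n + v + t` -/
def em (v : ℕ) : ℕ ↪ ℕ × ℕ := ⟨fun t => (1, v + t), fun a b h => by simpa using (Prod.mk.inj h).2⟩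

/-- the forms `n + v + t` with integral constant term -/
def emI (v : ℕ) : ℕ ↪ ℕ × ℤ := ⟨fun t => (1, ((v + t : ℕ) : ℤ)), fun a b h => by
  have := (Prod.mk.inj h).2
  simpa using this⟩

lemma emI_pos (u v : ℕ) (T : Finset ℕ) : ∀ L ∈ T.map (emI u), 0 ≤ (L.1 : ℤ) * (v : ℤ) + L.2 := by
  intro L hL
  rw [Finset.mem_map] at hL
  obtain ⟨t, -, rfl⟩ := hL
  show 0 ≤ (((1 : ℕ) : ℤ)) * (v : ℤ) + ((u + t : ℕ) : ℤ)
  positivity

lemma image_emI (u v : ℕ) (T : Finset ℕ) : (T.map (emI u)).image (sft v) = T.map (em (u + v)) := by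
  ext L
  rw [mem_image, Finset.mem_map]
  constructor
  · rintro ⟨L', hL', rfl⟩
    rw [Finset.mem_map] at hL'
    obtain ⟨t, ht, rfl⟩ := hL'
    refine ⟨t, ht, ?_⟩
    show (1, u + v + t) = ((1 : ℕ), ((((1 : ℕ) : ℤ)) * (v : ℤ) + ((u + t : ℕ) : ℤ)).toNat)
    congr 1
    have e : ((((1 : ℕ) : ℤ)) * (v : ℤ) + ((u + t : ℕ) : ℤ)) = ((u + v + t : ℕ) : ℤ) := by
      push_cast
      ring
    rw [e, Int.toNat_natCast]
  · rintro ⟨t, ht, rfl⟩
    refine ⟨emI u t, Finset.mem_map_of_mem _ ht, ?_⟩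
    show ((1 : ℕ), ((((1 : ℕ) : ℤ)) * (v : ℤ) + ((u + t : ℕ) : ℤ)).toNat) = (1, u + v + t)
    congr 1
    have e : ((((1 : ℕ) : ℤ)) * (v : ℤ) + ((u + t : ℕ) : ℤ)) = ((u + v + t : ℕ) : ℤ) := by
      push_cast
      ring
    rw [e, Int.toNat_natCast]

lemma SI_emI (u : ℕ) (T : Finset ℕ) : SI (T.map (emI u)) = Uni.CT T := by
  have h1 : ∀ v, SL (T.map (em v)) = SL (T.map (em 0)) := by
    intro v
    have a1 := SL_sft v (T.map (emI 0)) (emI_pos 0 v T)
    have a2 := SL_sft 0 (T.map (emI 0)) (emI_pos 0 0 T)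
    rw [image_emI] at a1 a2
    rw [Nat.zero_add] at a1 a2
    rw [a1, a2]
  have h2 := SL_sft 0 (T.map (emI u)) (emI_pos u 0 T)
  rw [image_emI] at h2
  have h3 : T.map (em 0) = T.map sh := by
    ext L
    rw [Finset.mem_map, Finset.mem_map]
    constructor
    · rintro ⟨t, ht, rfl⟩
      refine ⟨t, ht, ?_⟩
      show ((1 : ℕ), t) = (1, 0 + t)
      rw [Nat.zero_add]
    · rintro ⟨t, ht, rfl⟩
      refine ⟨t, ht, ?_⟩
      show (1, 0 + t) = ((1 : ℕ), t)
      rw [Nat.zero_add]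
  rw [← h2, h1, h3, SL_sh]

open Classical in
/-- the integers `u < n ≤ u + N` with all `n + t`, `t ∈ T`, prime -/
noncomputable def QW (u N : ℕ) (T : Finset ℕ) : Finset ℕ :=
  (Ioc u (u + N)).filter (fun n => ∀ t ∈ T, (n + t).Prime)

/-- upper bound, also for the patterns which are not admissible -/
lemma QW_up (l : ℕ) : ∃ C : ℝ, 0 < C ∧ ∃ X₀ : ℕ, ∀ N u : ℕ, X₀ ≤ N → N ≤ u + 1 → ∀ T : Finset ℕ, T.card = l →
    ((QW u N T).card : ℝ) ≤ C * (Uni.CT T * (N / Real.log N ^ l)) := by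
  classical
  obtain ⟨C, hC, X₀, h⟩ := Pool.Agent.Y840.PT.up l
  refine ⟨C, hC, max X₀ (l + 3), fun N u hN hu T hc => ?_⟩
  have hN1 : l + 3 ≤ N := (le_max_right _ _).trans hN
  have hprim := prim_sh T
  have hcard : (T.map sh).card = l := by rw [card_map, hc]
  by_cases hadm : ∀ p : ℕ, p.Prime → w (T.map sh) p < p
  · have h1 := h N u ((le_max_left _ _).trans hN) hu (T.map sh) hprim hcard hadm
    rw [SL_sh] at h1
    refine le_trans ?_ h1
    unfold QW
    rw [Nat.cast_le]
    apply card_le_card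
    intro n hn
    rw [mem_filter] at hn ⊢
    refine ⟨hn.1, ?_⟩
    intro L hL
    rw [Finset.mem_map] at hL
    obtain ⟨t, ht, rfl⟩ := hL
    show (1 * n + t).Prime
    rw [one_mul]
    exact hn.2 t ht
  · push Not at hadm
    obtain ⟨p, hp, hpw⟩ := hadm
    have hwl : w (T.map sh) p ≤ l := by
      rw [← hcard]
      exact Pool.Agent.W218.MU.w_le hprim hp
    have hcnt : (QW u N T).card = 0 := by
      unfold QW
      rw [card_eq_zero, filter_eq_empty_iff]
      intro n hn hpr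
      rw [mem_Ioc] at hn
      -- `n mod p` is a root
      have hall : n % p ∈ ZT (T.map sh) p := by
        have h1 : (ZT (T.map sh) p).card = p := le_antisymm (by
          calc (ZT (T.map sh) p).card ≤ (range p).card := card_le_card (filter_subset _ _)
            _ = p := card_range p) (by
          rw [Pool.Agent.Y840.PT.card_ZT]
          exact hpw)
        have h2 : ZT (T.map sh) p = range p := eq_of_subset_of_card_le (filter_subset _ _) (by rw [h1, card_range])
        rw [h2, mem_range]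
        exact Nat.mod_lt _ hp.pos
      obtain ⟨L, hL, hd⟩ := (Pool.Agent.Y840.PT.mem_ZT (T.map sh) hp.pos n).1 hall
      rw [Finset.mem_map] at hL
      obtain ⟨t, ht, rfl⟩ := hL
      have hd' : p ∣ n + t := by
        have e : (sh t).1 * n + (sh t).2 = n + t := by
          show 1 * n + t = n + t
          rw [one_mul]
        rwa [e] at hd
      have heq := (Nat.prime_dvd_prime_iff_eq hp (hpr t ht)).1 hd'
      omega
    rw [hcnt, Nat.cast_zero]
    have h5 := Uni.CT_nonneg T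
    positivity

/-- the function in Jensen's inequality is large -/
lemma GG_low {k : ℕ} {y₀ : ℝ} (hy : (k : ℝ) < y₀) : ∃ c : ℝ, 0 < c ∧ ∀ y : ℝ, y₀ ≤ y → c * y ^ (k + 1) ≤ Uni.GG k y := by
  have hy0 : 0 < y₀ := lt_of_le_of_lt (Nat.cast_nonneg k) hy
  refine ⟨∏ i ∈ range k, (1 - (i + 1 : ℝ) / y₀), ?_, fun y hyy => ?_⟩
  · apply prod_pos
    intro i hi
    have hi' : (i + 1 : ℝ) ≤ k := by exact_mod_cast mem_range.1 hi
    rw [sub_pos, div_lt_one hy0]
    linarith
  · have hy1 : 0 < y := hy0.trans_le hyy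
    unfold Uni.GG
    rw [pow_succ', ← mul_assoc, mul_comm _ y, mul_assoc]
    apply mul_le_mul_of_nonneg_left _ hy1.le
    have e : y ^ k = ∏ _i ∈ range k, y := by rw [prod_const, card_range]
    rw [e, ← prod_mul_distrib]
    apply Finset.prod_le_prod
    · intro i hi
      have hi' : (i + 1 : ℝ) ≤ k := by exact_mod_cast mem_range.1 hi
      have : 0 ≤ 1 - (i + 1 : ℝ) / y₀ := by
        rw [sub_nonneg, div_le_one hy0]
        linarith
      positivity
    · intro i hi
      refine le_trans ?_ (le_max_right _ _)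
      have h1 : (i + 1 : ℝ) ≤ (i + 1 : ℝ) / y₀ * y := by
        rw [div_mul_eq_mul_div, le_div_iff₀ hy0]
        exact mul_le_mul_of_nonneg_left hyy (by positivity)
      linarith

open Classical in
/-- the primes just after the points of a window -/
lemma sum_low (u N H : ℕ) : (H : ℝ) * ((((Ioc u (u + N)).filter Nat.Prime).card : ℝ) - H) ≤
    ∑ n ∈ Ioc u (u + N), ((((Icc 1 H).filter (fun t => (n + t).Prime)).card : ℕ) : ℝ) := by
  have h1 : ∑ n ∈ Ioc u (u + N), (((Icc 1 H).filter (fun t => (n + t).Prime)).card) =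
      ∑ t ∈ Icc 1 H, ((Ioc u (u + N)).filter (fun n => (n + t).Prime)).card := by
    simp only [card_filter]
    exact sum_comm
  have h2 : ∀ t ∈ Icc 1 H, (((Ioc u (u + N)).filter Nat.Prime).card : ℝ) - H ≤
      (((Ioc u (u + N)).filter (fun n => (n + t).Prime)).card : ℝ) := by
    intro t ht
    rw [mem_Icc] at ht
    have h3 : ((Ioc u (u + N)).filter Nat.Prime).card ≤
        ((Ioc u (u + N)).filter (fun n => (n + t).Prime)).card + t := by
      have h4 : (Ioc u (u + N)).filter Nat.Prime ⊆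
          (((Ioc u (u + N)).filter (fun n => (n + t).Prime)).image (fun n => n + t)) ∪ Ioc u (u + t) := by
        intro p hp
        rw [mem_filter, mem_Ioc] at hp
        rw [mem_union, mem_image, mem_Ioc]
        by_cases h5 : p ≤ u + t
        · exact Or.inr ⟨hp.1.1, h5⟩
        · left
          refine ⟨p - t, ?_, by omega⟩
          rw [mem_filter, mem_Ioc]
          refine ⟨by omega, ?_⟩
          have e : p - t + t = p := by omega
          rw [e]
          exact hp.2
      calc ((Ioc u (u + N)).filter Nat.Prime).card ≤ _ := card_le_card h4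
        _ ≤ (((Ioc u (u + N)).filter (fun n => (n + t).Prime)).image (fun n => n + t)).card +
            (Ioc u (u + t)).card := card_union_le _ _
        _ ≤ _ := by
            apply add_le_add card_image_le
            rw [Nat.card_Ioc]
            omega
    have h5 : (((Ioc u (u + N)).filter Nat.Prime).card : ℝ) ≤
        (((Ioc u (u + N)).filter (fun n => (n + t).Prime)).card : ℝ) + t := by exact_mod_cast h3
    have h6 : (t : ℝ) ≤ H := by exact_mod_cast ht.2
    linarith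
  have h3 : (∑ n ∈ Ioc u (u + N), ((((Icc 1 H).filter (fun t => (n + t).Prime)).card : ℕ) : ℝ)) =
      ∑ t ∈ Icc 1 H, (((Ioc u (u + N)).filter (fun n => (n + t).Prime)).card : ℝ) := by exact_mod_cast h1
  rw [h3]
  calc (H : ℝ) * ((((Ioc u (u + N)).filter Nat.Prime).card : ℝ) - H)
      = ∑ _t ∈ Icc 1 H, ((((Ioc u (u + N)).filter Nat.Prime).card : ℝ) - H) := by
        rw [sum_const, Nat.card_Icc, Nat.add_sub_cancel, nsmul_eq_mul]
    _ ≤ _ := sum_le_sum h2

open Classical in
/-- at least `κ N` integers `u ≤ x ≤ u + N` are such that for ALL lengths `H ≤ N` with `1 ≤ μ H` the interval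
`(x, x + H]` contains at least `κ μ H` integers with the property `P` -/
def AllW (κ μ : ℝ) (u N : ℕ) (P : ℕ → Prop) : Prop :=
  κ * N ≤ (((Icc u (u + N)).filter (fun x => ∀ H : ℕ, 1 ≤ μ * H → H ≤ N →
    κ * (μ * H) ≤ (((Ioc x (x + H)).filter P).card : ℝ))).card : ℝ)

lemma AllW_of {κ κ' μ D : ℝ} {u N m : ℕ} {U : Finset ℕ} (hκ : κ ≤ κ') (hμ : 0 ≤ μ) (hU : ∀ n ∈ U, u < n)
    (h : AllLengths κ' μ N (FirstAP m D (U.image (fun n => n - u)))) : AllW κ μ u N (FirstAP m D U) := by
  classical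
  unfold AllLengths at h
  unfold AllW
  refine (mul_le_mul_of_nonneg_right hκ (Nat.cast_nonneg N)).trans (h.trans ?_)
  rw [Nat.cast_le]
  apply card_le_card_of_injOn (fun n => u + n)
  · intro n hn
    rw [mem_coe, mem_filter, mem_range] at hn
    obtain ⟨b1, b2⟩ := hn
    rw [mem_coe, mem_filter, mem_Icc]
    refine ⟨by show u ≤ u + n ∧ u + n ≤ u + N; omega, fun H hH1 hH2 => ?_⟩
    have hH0 : 0 ≤ μ * H := mul_nonneg hμ (Nat.cast_nonneg H)
    refine (mul_le_mul_of_nonneg_right hκ hH0).trans ((b2 H hH1 hH2).trans ?_)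
    rw [Nat.cast_le]
    apply card_le_card_of_injOn (fun n => u + n)
    · intro x hx
      rw [mem_coe, mem_filter, mem_Ioc] at hx
      obtain ⟨c1, d, hd1, hd2, hd3⟩ := hx
      rw [mem_coe, mem_filter, mem_Ioc]
      refine ⟨by show u + n < u + x ∧ u + x ≤ u + n + H; omega, d, hd1, hd2, fun j hj => ?_⟩
      have h5 := hd3 j hj
      rw [mem_image] at h5
      obtain ⟨z, hz, he⟩ := h5
      have h6 := hU z hz
      have e : u + x + j * d = z := by omega
      rw [e]
      exact hz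
    · intro a _ b _ hab
      simpa using hab
  · intro a _ b _ hab
    simpa using hab

open Classical in
/-- the property of a pattern `T` -/
def GoodW (κ ρ : ℝ) (m : ℕ) (D : ℝ) (u N : ℕ) (T : Finset ℕ) : Prop :=
  0 < Uni.CT T ∧ κ * (Uni.CT T / Real.log N ^ T.card * N) ≤ (QW u N T).card ∧
    ∀ U ⊆ QW u N T, ρ * (QW u N T).card ≤ U.card → AllW κ (Uni.CT T / Real.log N ^ T.card) u N (FirstAP m D U)

set_option maxHeartbeats 4000000 in
open Classical in
/-- **Prime tuples in windows with many primes, in all short intervals.** -/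
theorem windows (k : ℕ) (δ lam : ℝ) (hδ : 0 < δ) (hlam : (k : ℝ) < δ * lam) : ∃ c : ℝ, 0 < c ∧
    ∀ (m : ℕ) (ρ : ℝ), 0 < ρ → ∃ κ : ℝ, 0 < κ ∧ ∃ B : ℕ, ∀ C : ℝ, ∀ᶠ N : ℕ in atTop, ∀ u H : ℕ, N ≤ u + 1 →
    lam * Real.log N ≤ H → (H : ℝ) ≤ Real.log N ^ C →
    δ * (N / Real.log N) ≤ (((Ioc u (u + N)).filter Nat.Prime).card : ℝ) →
    c * (H : ℝ) ^ (k + 1) ≤
      ∑ T ∈ ((Icc 1 H).powersetCard (k + 1)).filter (GoodW κ ρ m (Real.log N ^ B) u N), Uni.CT T := by
  have hlam0 : 0 < lam := by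
    have h1 : 0 < δ * lam := lt_of_le_of_lt (Nat.cast_nonneg k) hlam
    by_contra hcon
    rw [not_lt] at hcon
    have := mul_nonpos_of_nonneg_of_nonpos hδ.le hcon
    linarith
  -- a smaller density
  obtain ⟨δ', hd1, hd2⟩ : ∃ δ' : ℝ, k / lam < δ' ∧ δ' < δ := exists_between (by rwa [div_lt_iff₀ hlam0])
  have hδ'0 : 0 < δ' := lt_of_le_of_lt (by positivity) hd1
  have hkδ' : (k : ℝ) < δ' * lam := by rwa [div_lt_iff₀ hlam0] at hd1
  obtain ⟨c0, hc0, hGG⟩ := GG_low hkδ'
  obtain ⟨C₁, hC₁, X₁, hup⟩ := QW_up (k + 1)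
  obtain ⟨D₀, hgall⟩ := Pool.Agent.Helper22K9.Trp.gall k 1 one_pos
  obtain ⟨fac, hfac⟩ : ∃ x : ℝ, x = ((k + 1).factorial : ℝ) := ⟨_, rfl⟩
  have hfac0 : 0 < fac := by rw [hfac]; exact_mod_cast Nat.factorial_pos _
  obtain ⟨a, ha⟩ : ∃ a : ℝ, a = c0 * δ' ^ (k + 1) / fac := ⟨_, rfl⟩
  have ha0 : 0 < a := by rw [ha]; positivity
  obtain ⟨η, hη⟩ : ∃ η : ℝ, η = a * fac / 4 := ⟨_, rfl⟩
  have hη0 : 0 < η := by rw [hη]; positivity
  refine ⟨a / (2 * C₁), by positivity, fun m ρ hρ => ?_⟩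
  obtain ⟨κ1, hκ1, B, hforms⟩ := intforms_all (k + 1) m (by omega) 0 (ρ * η) le_rfl (by positivity)
  refine ⟨min κ1 η, lt_min hκ1 hη0, B, fun C => ?_⟩
  have tN : Tendsto (fun N : ℕ => (N : ℝ)) atTop atTop := tendsto_natCast_atTop_atTop
  have tL : Tendsto (fun N : ℕ => Real.log (N : ℝ)) atTop atTop := Real.tendsto_log_atTop.comp tN
  have hlo := (isLittleO_log_rpow_rpow_atTop (C + 1) (show (0 : ℝ) < 1 by norm_num)).bound
    (show (0 : ℝ) < δ - δ' by linarith)
  filter_upwards [hforms, tN.eventually hlo, tL.eventually_ge_atTop (max 1 (D₀ / lam)), eventually_ge_atTop X₁,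
    eventually_ge_atTop 3] with N g1 g2 g3 g4 g5
  intro u H hu hH1 hH2 hP
  have hN0 : (0 : ℝ) < N := by exact_mod_cast (by omega : 0 < N)
  set L := Real.log (N : ℝ) with hL
  have hL1 : 1 ≤ L := (le_max_left _ _).trans g3
  have hL0 : 0 < L := by linarith
  have hHD : D₀ ≤ H := by
    have h1 : (D₀ : ℝ) / lam ≤ L := (le_max_right _ _).trans g3
    rw [div_le_iff₀ hlam0] at h1
    have h2 : (D₀ : ℝ) ≤ H := by linarith
    exact_mod_cast h2
  have hH0 : (0 : ℝ) < H := lt_of_lt_of_le (by positivity) hH1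
  -- few primes are lost
  have hloss : (H : ℝ) ≤ (δ - δ') * (N / L) := by
    rw [Real.rpow_one, Real.norm_of_nonneg (by positivity), Real.norm_of_nonneg hN0.le] at g2
    rw [← mul_div_assoc, le_div_iff₀ hL0]
    calc (H : ℝ) * L ≤ L ^ C * L := mul_le_mul_of_nonneg_right hH2 hL0.le
      _ = L ^ (C + 1) := by rw [Real.rpow_add hL0, Real.rpow_one]
      _ ≤ _ := g2
  have hP' : δ' * (N / L) ≤ (((Ioc u (u + N)).filter Nat.Prime).card : ℝ) - H := by
    have e : (δ - δ') * (N / L) = δ * (N / L) - δ' * (N / L) := by ring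
    rw [e] at hloss
    linarith
  -- the mean
  obtain ⟨y, hy⟩ : ∃ y : ℝ, y = δ' * H / L := ⟨_, rfl⟩
  have hy1 : δ' * lam ≤ y := by
    rw [hy, le_div_iff₀ hL0, mul_assoc]
    exact mul_le_mul_of_nonneg_left hH1 hδ'0.le
  have hy0 : 0 < y := by rw [hy]; positivity
  have hcardI : (((Ioc u (u + N)).card : ℕ) : ℝ) = N := by
    rw [Nat.card_Ioc]
    congr 1
    omega
  have hmean : y * ((Ioc u (u + N)).card : ℝ) ≤
      ∑ n ∈ Ioc u (u + N), ((((Icc 1 H).filter (fun t => (n + t).Prime)).card : ℕ) : ℝ) := by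
    rw [hcardI]
    refine le_trans ?_ (sum_low u N H)
    calc y * N = H * (δ' * (N / L)) := by rw [hy]; ring
      _ ≤ _ := mul_le_mul_of_nonneg_left hP' hH0.le
  have hjen := Uni.jensen_desc (Ioc u (u + N)) (fun n => ((Icc 1 H).filter (fun t => (n + t).Prime)).card) k hy0.le hmean
  rw [hcardI] at hjen
  have hsum : ∑ n ∈ Ioc u (u + N), ((((Icc 1 H).filter (fun t => (n + t).Prime)).card.descFactorial (k + 1) : ℕ) : ℝ) =
      fac * ∑ T ∈ (Icc 1 H).powersetCard (k + 1), ((QW u N T).card : ℝ) := by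
    have h1 := Uni.sum_choose (Ioc u (u + N)) (Icc 1 H) (k + 1) (fun n t => (n + t).Prime)
    have h2 : ∑ n ∈ Ioc u (u + N), ((Icc 1 H).filter (fun t => (n + t).Prime)).card.descFactorial (k + 1) =
        (k + 1).factorial * ∑ T ∈ (Icc 1 H).powersetCard (k + 1), (QW u N T).card := by
      unfold QW
      have h3 : ∑ T ∈ (Icc 1 H).powersetCard (k + 1),
          ((Ioc u (u + N)).filter (fun n => ∀ t ∈ T, (n + t).Prime)).card =
          ∑ n ∈ Ioc u (u + N), ((Icc 1 H).filter (fun t => (n + t).Prime)).card.choose (k + 1) := by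
        rw [h1]
      rw [h3, mul_sum]
      apply sum_congr rfl
      intro n _
      rw [Nat.descFactorial_eq_factorial_mul_choose]
    rw [hfac]
    exact_mod_cast h2
  rw [hsum] at hjen
  obtain ⟨V, hV⟩ : ∃ V : ℝ, V = N / L ^ (k + 1) := ⟨_, rfl⟩
  have hV0 : 0 < V := by rw [hV]; positivity
  have hlow : a * (H : ℝ) ^ (k + 1) * V ≤ ∑ T ∈ (Icc 1 H).powersetCard (k + 1), ((QW u N T).card : ℝ) := by
    have h1 := hGG y hy1
    have h2 : (N : ℝ) * (c0 * y ^ (k + 1)) ≤ fac * ∑ T ∈ (Icc 1 H).powersetCard (k + 1), ((QW u N T).card : ℝ) :=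
      (mul_le_mul_of_nonneg_left h1 hN0.le).trans hjen
    have e : a * (H : ℝ) ^ (k + 1) * V = (N : ℝ) * (c0 * y ^ (k + 1)) / fac := by
      rw [ha, hV, hy, div_pow, mul_pow]
      field_simp
    rw [e, div_le_iff₀ hfac0, mul_comm _ fac]
    exact h2
  have hgal : ∑ T ∈ (Icc 1 H).powersetCard (k + 1), Uni.CT T ≤ 2 / fac * (H : ℝ) ^ (k + 1) := by
    have h1 := hgall H hHD
    rw [← hfac] at h1
    rw [div_mul_eq_mul_div, le_div_iff₀ hfac0]
    linarith
  have hupT : ∀ T ∈ (Icc 1 H).powersetCard (k + 1), ((QW u N T).card : ℝ) ≤ C₁ * (Uni.CT T * V) := by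
    intro T hT
    rw [mem_powersetCard] at hT
    have := hup N u g4 hu T hT.2
    rw [hV]
    exact this
  -- the good patterns
  obtain ⟨F, hF⟩ : ∃ F, F = (Icc 1 H).powersetCard (k + 1) := ⟨_, rfl⟩
  rw [← hF] at hlow hgal hupT
  have hgood : ∀ T ∈ F, η * (Uni.CT T * V) < ((QW u N T).card : ℝ) →
      GoodW (min κ1 η) ρ m (L ^ B) u N T := by
    intro T hT hTc
    have hTc' : T.card = k + 1 := by
      rw [hF, mem_powersetCard] at hT
      exact hT.2
    have hCT0 := Uni.CT_nonneg T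
    have hCTpos : 0 < Uni.CT T := by
      rcases hCT0.lt_or_eq with h1 | h1
      · exact h1
      · exfalso
        have h2 := hupT T hT
        rw [← h1] at h2 hTc
        have e1 : η * (0 * V) = 0 := by ring
        have e2 : C₁ * (0 * V) = 0 := by ring
        rw [e1] at hTc
        rw [e2] at h2
        linarith
    have hVe : Uni.CT T / L ^ (k + 1) * N = Uni.CT T * V := by rw [hV]; ring
    refine ⟨hCTpos, ?_, fun U hU hUc => ?_⟩
    · rw [hTc', ← hL, hVe]
      refine le_trans ?_ hTc.le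
      exact mul_le_mul_of_nonneg_right (min_le_right _ _) (by positivity)
    · rw [hTc', ← hL]
      have hUmem : ∀ n ∈ U, u < n ∧ n ≤ u + N ∧ ∀ t ∈ T, (n + t).Prime := by
        intro n hn
        have h1 := hU hn
        unfold QW at h1
        rw [mem_filter, mem_Ioc] at h1
        exact ⟨h1.1.1, h1.1.2, h1.2⟩
      have hSI : SI (T.map (emI u)) = Uni.CT T := SI_emI u T
      have key := g1 (T.map (emI u)) (by
        intro M hM
        rw [Finset.mem_map] at hM
        obtain ⟨t, -, rfl⟩ := hM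
        refine ⟨le_rfl, ?_⟩
        show IsCoprime (((1 : ℕ) : ℤ)) _
        rw [Nat.cast_one]
        exact isCoprime_one_left) (by rw [card_map, hTc']) (by
        intro M hM
        rw [Finset.mem_map] at hM
        obtain ⟨t, -, rfl⟩ := hM
        show ((1 : ℕ) : ℝ) ≤ (N : ℝ) ^ (0 : ℝ)
        simp) (by rw [hSI]; exact hCTpos) (U.image (fun n => n - u)) (by
        intro n hn
        rw [mem_image] at hn
        obtain ⟨z, hz, rfl⟩ := hn
        obtain ⟨b1, b2, b3⟩ := hUmem z hz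
        refine ⟨by omega, by omega, ?_⟩
        intro M hM
        rw [Finset.mem_map] at hM
        obtain ⟨t, ht, rfl⟩ := hM
        refine ⟨z + t, b3 t ht, ?_⟩
        show (((1 : ℕ) : ℤ)) * ((z - u : ℕ) : ℤ) + ((u + t : ℕ) : ℤ) = ((z + t : ℕ) : ℤ)
        push_cast [Nat.cast_sub b1.le]
        ring) (by
        have hcU : (U.image (fun n => n - u)).card = U.card := by
          apply card_image_of_injOn
          intro p hp q hq hpq
          have h1 := (hUmem p hp).1
          have h2 := (hUmem q hq).1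
          simp only at hpq
          omega
        rw [hcU, hSI]
        refine le_trans ?_ hUc
        rw [mul_assoc]
        apply mul_le_mul_of_nonneg_left _ hρ.le
        refine le_trans (le_of_eq ?_) hTc.le
        rw [hV])
      rw [hSI] at key
      exact AllW_of (min_le_left _ _) (by positivity) (fun n hn => (hUmem n hn).1) key
  -- the bad patterns contribute little
  have hbad : ∑ T ∈ F.filter (fun T => ¬ (η * (Uni.CT T * V) < ((QW u N T).card : ℝ))), ((QW u N T).card : ℝ) ≤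
      a / 2 * (H : ℝ) ^ (k + 1) * V := by
    calc ∑ T ∈ F.filter (fun T => ¬ (η * (Uni.CT T * V) < ((QW u N T).card : ℝ))), ((QW u N T).card : ℝ)
        ≤ ∑ T ∈ F.filter (fun T => ¬ (η * (Uni.CT T * V) < ((QW u N T).card : ℝ))), η * V * Uni.CT T := by
          apply sum_le_sum
          intro T hT
          rw [mem_filter, not_lt] at hT
          linarith [hT.2]
      _ ≤ ∑ T ∈ F, η * V * Uni.CT T := by
          apply sum_le_sum_of_subset_of_nonneg (filter_subset _ _)
          intro T _ _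
          have := Uni.CT_nonneg T
          positivity
      _ = η * V * ∑ T ∈ F, Uni.CT T := by rw [mul_sum]
      _ ≤ η * V * (2 / fac * (H : ℝ) ^ (k + 1)) := mul_le_mul_of_nonneg_left hgal (by positivity)
      _ = a / 2 * (H : ℝ) ^ (k + 1) * V := by
          rw [hη]
          field_simp
          ring
  have hsplit := sum_filter_add_sum_filter_not F (fun T => η * (Uni.CT T * V) < ((QW u N T).card : ℝ))
    (fun T => ((QW u N T).card : ℝ))
  have hgs : a / 2 * (H : ℝ) ^ (k + 1) * V ≤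
      ∑ T ∈ F.filter (fun T => η * (Uni.CT T * V) < ((QW u N T).card : ℝ)), ((QW u N T).card : ℝ) := by
    have e : a * (H : ℝ) ^ (k + 1) * V = a / 2 * (H : ℝ) ^ (k + 1) * V + a / 2 * (H : ℝ) ^ (k + 1) * V := by ring
    linarith
  have hgs2 : ∑ T ∈ F.filter (fun T => η * (Uni.CT T * V) < ((QW u N T).card : ℝ)), ((QW u N T).card : ℝ) ≤
      C₁ * V * ∑ T ∈ F.filter (fun T => η * (Uni.CT T * V) < ((QW u N T).card : ℝ)), Uni.CT T := by
    rw [mul_sum]
    apply sum_le_sum
    intro T hT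
    rw [mem_filter] at hT
    refine (hupT T hT.1).trans (le_of_eq ?_)
    ring
  have hgs3 : ∑ T ∈ F.filter (fun T => η * (Uni.CT T * V) < ((QW u N T).card : ℝ)), Uni.CT T ≤
      ∑ T ∈ F.filter (GoodW (min κ1 η) ρ m (L ^ B) u N), Uni.CT T := by
    apply sum_le_sum_of_subset_of_nonneg
    · intro T hT
      rw [mem_filter] at hT ⊢
      exact ⟨hT.1, hgood T hT.1 hT.2⟩
    · intro T _ _
      exact Uni.CT_nonneg T
  rw [← hF]
  have hfin : a / 2 * (H : ℝ) ^ (k + 1) * V ≤ C₁ * V *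
      ∑ T ∈ F.filter (GoodW (min κ1 η) ρ m (L ^ B) u N), Uni.CT T :=
    hgs.trans (hgs2.trans (mul_le_mul_of_nonneg_left hgs3 (by positivity)))
  have hfin2 : a / (2 * C₁) * (H : ℝ) ^ (k + 1) * (C₁ * V) ≤
      (∑ T ∈ F.filter (GoodW (min κ1 η) ρ m (L ^ B) u N), Uni.CT T) * (C₁ * V) := by
    calc a / (2 * C₁) * (H : ℝ) ^ (k + 1) * (C₁ * V) = a / 2 * (H : ℝ) ^ (k + 1) * V := by
          field_simp
      _ ≤ _ := hfin
      _ = _ := by ring
  exact le_of_mul_le_mul_right hfin2 (by positivity)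

end Pool.Agent.U28.SF
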