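import Pool.Agent.U28.SF.SF17
import Pool.Agent.U766.OP.Gap

set_option autoImplicit false

/-!
# Vectors of consecutive gaps between primes in windows which contain a positive proportion of the expected number of
primes: a positive proportion of all the vectors, in all short intervals

The counting argument is the one of `Pool.Agent.U766.OP.Gap2` (helper766), with the length of the window as scale.
-/

namespace Pool.Agent.U28.SF

open Finset Filter Topology
open Pool.Agent.U766.OP (Pos pos_prime pos_up gap_count primesIn)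
open Pool.Agent.R527.LV (ps pat box mem_box card_box ps_zero ps_succ pat_card)
open Pool.Agent.H387R2
open Pool.Agent.H387R2.Uni (CT nuT CT_nonneg)
open Pool.Agent.U28.PG (AllLengths FirstAP)

theorem box_low (l : ℕ) (c1 : ℝ) (hc1 : 0 < c1) : ∃ K c M η : ℝ, 0 < K ∧ 0 < c ∧ 0 < M ∧ 0 < η ∧
    ∀ᶠ H : ℕ in atTop, ∀ a : ℕ, H ≤ a →
      c1 * H / Real.log H ≤ ((primesIn a H).card : ℝ) →
      η * Real.log H ^ l ≤ (((box l ⌊K * Real.log H⌋₊).filter (fun g =>
        c * H / Real.log H ^ (l + 1) ≤ ((Pos g a H).card : ℝ) ∧ CT (pat g) ≤ M)).card : ℝ) := by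
  classical
  obtain ⟨C, hC, X₀, hup⟩ := pos_up l
  obtain ⟨C₂, hC₂, hmom⟩ := Pool.Agent.TH891.SG.CT_mom l 2
  obtain ⟨K, hK⟩ : ∃ K : ℝ, K = 4 * l / c1 + 1 := ⟨_, rfl⟩
  have hl0 : (0 : ℝ) ≤ l := Nat.cast_nonneg l
  have hK1 : 1 ≤ K := by
    rw [hK]
    have : 0 ≤ 4 * (l : ℝ) / c1 := by positivity
    linarith
  have hK0 : 0 < K := by linarith
  have hlK : (l : ℝ) ≤ c1 / 4 * K := by
    rw [hK]
    have e : c1 / 4 * (4 * (l : ℝ) / c1 + 1) = l + c1 / 4 := by field_simp
    rw [e]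
    linarith
  obtain ⟨C₃, hC₃⟩ : ∃ C₃ : ℝ, C₃ = C₂ * 2 ^ (l + 1) * (l * K + 1) ^ l := ⟨_, rfl⟩
  have hC₃0 : 0 < C₃ := by rw [hC₃]; positivity
  obtain ⟨c, hc⟩ : ∃ c : ℝ, c = c1 / (8 * K ^ l) := ⟨_, rfl⟩
  have hc0 : 0 < c := by rw [hc]; positivity
  obtain ⟨M, hM⟩ : ∃ M : ℝ, M = 8 * C * C₃ / c1 := ⟨_, rfl⟩
  have hM0 : 0 < M := by rw [hM]; positivity
  refine ⟨K, c, M, c1 / 4 / (C * M), hK0, hc0, hM0, by positivity, ?_⟩
  have tN : Tendsto (fun N : ℕ => (N : ℝ)) atTop atTop := tendsto_natCast_atTop_atTop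
  have tL : Tendsto (fun N : ℕ => Real.log (N : ℝ)) atTop atTop := Real.tendsto_log_atTop.comp tN
  have t2 := (isLittleO_log_rpow_atTop (show (0 : ℝ) < 1 by norm_num)).bound
      (show (0 : ℝ) < 1 / (l * (4 / c1) + 1) by positivity)
  filter_upwards [tN.eventually t2, eventually_ge_atTop X₀, eventually_ge_atTop 4, tL.eventually_ge_atTop 2]
    with H h2 hX₀H h16 hL2 a hHa hN
  obtain ⟨L, hL⟩ : ∃ L : ℝ, L = Real.log H := ⟨_, rfl⟩
  rw [← hL] at hN hL2 h2 ⊢
  have hL0 : 0 < L := by linarith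
  have hH4 : (4 : ℝ) ≤ (H : ℝ) := by exact_mod_cast h16
  have hH0 : (0 : ℝ) < H := by linarith
  have h2' : l * L * (4 / c1) ≤ H := by
    rw [Real.rpow_one, Real.norm_of_nonneg hL0.le, Real.norm_of_nonneg hH0.le] at h2
    have hpos : (0 : ℝ) < l * (4 / c1) + 1 := by positivity
    have h1 : L * (l * (4 / c1) + 1) ≤ H := by
      calc L * (l * (4 / c1) + 1) ≤ (1 / (l * (4 / c1) + 1) * H) * (l * (4 / c1) + 1) := by gcongr
        _ = H := by field_simp
    nlinarith
  set m : ℕ := ⌊K * L⌋₊ with hm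
  have hm1 : K * L < (m : ℝ) + 1 := Nat.lt_floor_add_one _
  have hm2 : (m : ℝ) ≤ K * L := Nat.floor_le (by positivity)
  obtain ⟨V, hV⟩ : ∃ V : ℝ, V = H / L ^ (l + 1) := ⟨_, rfl⟩
  have hV0 : 0 < V := by rw [hV]; positivity
  have hVL : V * L ^ l = H / L := by
    rw [hV, pow_succ]
    field_simp
  -- the sum over all vectors
  have hsum : c1 / 2 * (V * L ^ l) ≤ ∑ g ∈ box l m, ((Pos g a H).card : ℝ) := by
    have e1 : ((primesIn a H).card : ℝ) ≤ l + l * ((H / (m + 1) : ℕ) : ℝ) + ∑ g ∈ box l m, ((Pos g a H).card : ℝ) := by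
      exact_mod_cast gap_count l m a H
    have e2 : ((H / (m + 1) : ℕ) : ℝ) ≤ (H : ℝ) / (m + 1) := by
      have := @Nat.cast_div_le ℝ _ _ _ H (m + 1)
      push_cast at this
      exact this
    have e3 : (l : ℝ) * ((H / (m + 1) : ℕ) : ℝ) ≤ c1 / 4 * (H / L) := by
      calc (l : ℝ) * ((H / (m + 1) : ℕ) : ℝ) ≤ l * ((H : ℝ) / (K * L)) := by
            apply mul_le_mul_of_nonneg_left _ hl0
            refine e2.trans ?_
            apply div_le_div_of_nonneg_left hH0.le (by positivity) hm1.le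
        _ ≤ (c1 / 4 * K) * ((H : ℝ) / (K * L)) := by gcongr
        _ = c1 / 4 * (H / L) := by field_simp
    have e4 : (l : ℝ) ≤ c1 / 4 * (H / L) := by
      have h6 : (l : ℝ) = c1 / 4 * ((l * L * (4 / c1)) / L) := by field_simp
      rw [h6]
      gcongr
    have e5 : c1 * H / L = c1 * (H / L) := by ring
    rw [e5] at hN
    rw [hVL]
    linarith
  have hpt : ∀ g ∈ box l m, ((Pos g a H).card : ℝ) ≤ C * V * CT (pat g) := by
    intro g hg
    have h5 := hup a H hX₀H hHa g (fun i => ((mem_box.1 hg) i).1)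
    refine h5.trans (le_of_eq ?_)
    rw [hV, hL]
    ring
  have hmomb : ∑ g ∈ box l m, CT (pat g) ^ 2 ≤ C₃ * L ^ l := by
    have h5 := Pool.Agent.R527.LV.mom l C₂ hmom m
    refine h5.trans ?_
    have h6 : (((l * m + 1 : ℕ) : ℝ)) ^ l ≤ (l * K + 1) ^ l * L ^ l := by
      rw [← mul_pow]
      apply pow_le_pow_left₀ (Nat.cast_nonneg _)
      push_cast
      have h7 : (l : ℝ) * m ≤ l * (K * L) := by gcongr
      nlinarith
    calc C₂ * 2 ^ (l + 1) * (((l * m + 1 : ℕ) : ℝ)) ^ l ≤ C₂ * 2 ^ (l + 1) * ((l * K + 1) ^ l * L ^ l) := by gcongr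
      _ = C₃ * L ^ l := by rw [hC₃]; ring
  set G := (box l m).filter (fun g => c * H / L ^ (l + 1) ≤ ((Pos g a H).card : ℝ) ∧ CT (pat g) ≤ M) with hG
  have hcV : c * H / L ^ (l + 1) = c * V := by rw [hV]; ring
  have hnot : ∑ g ∈ (box l m).filter (fun g => ¬ (c * H / L ^ (l + 1) ≤ ((Pos g a H).card : ℝ) ∧ CT (pat g) ≤ M)),
      ((Pos g a H).card : ℝ) ≤ c1 / 4 * (V * L ^ l) := by
    calc _ ≤ ∑ g ∈ (box l m).filter (fun g => ¬ (c * H / L ^ (l + 1) ≤ ((Pos g a H).card : ℝ) ∧ CT (pat g) ≤ M)),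
          (c * V + C * V / M * CT (pat g) ^ 2) := by
          apply Finset.sum_le_sum
          intro g hg
          rw [mem_filter, hcV] at hg
          obtain ⟨hgb, hg2⟩ := hg
          have hCT := CT_nonneg (pat g)
          by_cases h5 : c * V ≤ ((Pos g a H).card : ℝ)
          · have h6 : M < CT (pat g) := by
              by_contra hcon
              exact hg2 ⟨h5, not_lt.1 hcon⟩
            have h7 := hpt g hgb
            have h8 : C * V * CT (pat g) ≤ C * V / M * CT (pat g) ^ 2 := by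
              rw [div_mul_eq_mul_div, le_div_iff₀ hM0]
              have h9 : CT (pat g) * M ≤ CT (pat g) * CT (pat g) := by gcongr
              have h10 := mul_le_mul_of_nonneg_left h9 (show 0 ≤ C * V by positivity)
              nlinarith
            have h9 : 0 < c * V := by positivity
            linarith
          · have h6 : 0 ≤ C * V / M * CT (pat g) ^ 2 := by positivity
            linarith
      _ ≤ ∑ g ∈ box l m, (c * V + C * V / M * CT (pat g) ^ 2) := by
          apply Finset.sum_le_sum_of_subset_of_nonneg (filter_subset _ _)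
          intro g _ _
          positivity
      _ = (m : ℝ) ^ l * (c * V) + C * V / M * ∑ g ∈ box l m, CT (pat g) ^ 2 := by
          rw [Finset.sum_add_distrib, Finset.sum_const, card_box, nsmul_eq_mul, ← Finset.mul_sum]
          push_cast
          ring
      _ ≤ (K * L) ^ l * (c * V) + C * V / M * (C₃ * L ^ l) := by gcongr
      _ = c1 / 4 * (V * L ^ l) := by
          rw [mul_pow, hc, hM]
          field_simp
          ring
  have hGs : ∑ g ∈ G, ((Pos g a H).card : ℝ) ≤ G.card * (C * V * M) := by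
    rw [← nsmul_eq_mul]
    apply Finset.sum_le_card_nsmul
    intro g hg
    rw [hG, mem_filter] at hg
    refine (hpt g hg.1).trans ?_
    have := hg.2.2
    gcongr
  have htot : ∑ g ∈ G, ((Pos g a H).card : ℝ) +
      ∑ g ∈ (box l m).filter (fun g => ¬ (c * H / L ^ (l + 1) ≤ ((Pos g a H).card : ℝ) ∧ CT (pat g) ≤ M)),
        ((Pos g a H).card : ℝ) = ∑ g ∈ box l m, ((Pos g a H).card : ℝ) :=
    Finset.sum_filter_add_sum_filter_not _ _ _
  have hfin : c1 / 4 * (V * L ^ l) ≤ G.card * (C * V * M) := by linarith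
  rw [div_mul_eq_mul_div, div_le_iff₀ (by positivity)]
  have h5 : V * (c1 / 4 * L ^ l) ≤ V * ((G.card : ℝ) * (C * M)) := by nlinarith
  exact le_of_mul_le_mul_left h5 hV0

open Classical in
/-- at least `κ N` integers `u ≤ y ≤ u + N` are such that for ALL natural numbers `H ≤ N` with `(log N) ^ r ≤ κ H` the
interval `(y, y + H]` contains at least `κ H / (log N) ^ r` integers with the property `P` -/
def EvW (κ : ℝ) (r u N : ℕ) (P : ℕ → Prop) : Prop :=
  κ * N ≤ (((Icc u (u + N)).filter (fun y => ∀ H : ℕ, Real.log N ^ r ≤ κ * H → H ≤ N →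
    κ * (H / Real.log N ^ r) ≤ (((Ioc y (y + H)).filter P).card : ℝ))).card : ℝ)

/-- the property of a vector of gaps `g` -/
def GoodV {l : ℕ} (κ ρ : ℝ) (m : ℕ) (D : ℝ) (u N : ℕ) (g : Fin l → ℕ) : Prop :=
  κ * (N / Real.log N ^ (l + 1)) ≤ (Pos g u N).card ∧
    ∀ U ⊆ Pos g u N, ρ * (Pos g u N).card ≤ U.card → EvW κ (l + 1) u N (FirstAP m D U)

set_option maxHeartbeats 4000000 in
open Classical in
/-- **Vectors of gaps in windows with many primes, in all short intervals.** -/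
theorem strings (l : ℕ) (c1 : ℝ) (hc1 : 0 < c1) : ∃ K η : ℝ, 0 < K ∧ 0 < η ∧ ∀ (m : ℕ) (ρ : ℝ), 0 < ρ →
    ∃ κ : ℝ, 0 < κ ∧ ∃ B : ℕ, ∀ᶠ N : ℕ in atTop, ∀ u : ℕ, N ≤ u →
      c1 * N / Real.log N ≤ ((primesIn u N).card : ℝ) →
      η * Real.log N ^ l ≤ (((box l ⌊K * Real.log N⌋₊).filter (GoodV κ ρ m (Real.log N ^ B) u N)).card : ℝ) := by
  obtain ⟨K, c, M, η, hK, hc, hM, hη, hbox⟩ := box_low l c1 hc1
  obtain ⟨C, hC, X₀, hup⟩ := pos_up l
  refine ⟨K, η, hK, hη, fun m ρ hρ => ?_⟩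
  obtain ⟨κ1, hκ1, B, hforms⟩ := intforms_all (l + 1) m (by omega) 0 (ρ * c / M) le_rfl (by positivity)
  -- the lower bound for the singular series
  obtain ⟨s, hs⟩ : ∃ s : ℝ, s = c / C := ⟨_, rfl⟩
  have hs0 : 0 < s := by rw [hs]; positivity
  refine ⟨min (min κ1 (κ1 * s)) (min s c), by positivity, B, ?_⟩
  have tN : Tendsto (fun N : ℕ => (N : ℝ)) atTop atTop := tendsto_natCast_atTop_atTop
  have tL : Tendsto (fun N : ℕ => Real.log (N : ℝ)) atTop atTop := Real.tendsto_log_atTop.comp tN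
  filter_upwards [hbox, hforms, eventually_ge_atTop X₀, eventually_ge_atTop 3] with N g1 g2 g3 g4
  intro u hu hP
  refine (g1 u hu hP).trans ?_
  rw [Nat.cast_le]
  apply card_le_card
  intro g hg
  rw [mem_filter] at hg ⊢
  obtain ⟨hgb, hgc, hgM⟩ := hg
  refine ⟨hgb, ?_⟩
  have hg1 : ∀ i, 1 ≤ g i := fun i => ((mem_box.1 hgb) i).1
  have hN0 : (0 : ℝ) < N := by exact_mod_cast (by omega : 0 < N)
  obtain ⟨L, hL⟩ : ∃ L : ℝ, L = Real.log (N : ℝ) := ⟨_, rfl⟩
  have hL0 : 0 < L := by rw [hL]; exact Real.log_pos (by exact_mod_cast (by omega : 1 < N))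
  have hLp : 0 < L ^ (l + 1) := by positivity
  rw [← hL] at hgc g2 ⊢
  obtain ⟨κ, hκ⟩ : ∃ κ : ℝ, κ = min (min κ1 (κ1 * s)) (min s c) := ⟨_, rfl⟩
  rw [← hκ]
  have hκ0 : 0 < κ := by rw [hκ]; positivity
  have hκa : κ ≤ κ1 := by rw [hκ]; exact (min_le_left _ _).trans (min_le_left _ _)
  have hκb : κ ≤ κ1 * s := by rw [hκ]; exact (min_le_left _ _).trans (min_le_right _ _)
  have hκc : κ ≤ s := by rw [hκ]; exact (min_le_right _ _).trans (min_le_left _ _)
  have hκd : κ ≤ c := by rw [hκ]; exact (min_le_right _ _).trans (min_le_right _ _)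
  have hCTs : s ≤ CT (pat g) := by
    have h1 := hup u N g3 hu g hg1
    rw [← hL] at h1
    have h2 : c * (N / L ^ (l + 1)) ≤ C * CT (pat g) * (N / L ^ (l + 1)) := by
      calc c * (N / L ^ (l + 1)) = c * N / L ^ (l + 1) := by ring
        _ ≤ _ := hgc.trans h1
        _ = _ := by ring
    have h3 := le_of_mul_le_mul_right h2 (by positivity)
    rw [hs, div_le_iff₀ hC]
    linarith
  have hCTpos : 0 < CT (pat g) := hs0.trans_le hCTs
  refine ⟨?_, fun U hU hUc => ?_⟩
  · rw [← hL]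
    calc κ * (N / L ^ (l + 1)) ≤ c * (N / L ^ (l + 1)) := mul_le_mul_of_nonneg_right hκd (by positivity)
      _ = c * N / L ^ (l + 1) := by ring
      _ ≤ _ := hgc
  · have hUmem : ∀ n ∈ U, u < n ∧ n ≤ u + N ∧ ∀ t ∈ pat g, (n + t).Prime := by
      intro n hn
      have h1 := hU hn
      refine ⟨?_, ?_, pos_prime h1⟩
      · unfold Pos at h1
        rw [mem_filter, mem_Ioc] at h1
        exact h1.1.1
      · unfold Pos at h1
        rw [mem_filter, mem_Ioc] at h1
        exact h1.1.2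
    have hSI : SI ((pat g).map (emI u)) = CT (pat g) := SI_emI u (pat g)
    have key := g2 ((pat g).map (emI u)) (by
      intro M' hM'
      rw [Finset.mem_map] at hM'
      obtain ⟨t, -, rfl⟩ := hM'
      refine ⟨le_rfl, ?_⟩
      show IsCoprime (((1 : ℕ) : ℤ)) _
      rw [Nat.cast_one]
      exact isCoprime_one_left) (by rw [card_map, pat_card hg1]) (by
      intro M' hM'
      rw [Finset.mem_map] at hM'
      obtain ⟨t, -, rfl⟩ := hM'
      show ((1 : ℕ) : ℝ) ≤ (N : ℝ) ^ (0 : ℝ)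
      simp) (by rw [hSI]; exact hCTpos) (U.image (fun n => n - u)) (by
      intro n hn
      rw [mem_image] at hn
      obtain ⟨z, hz, rfl⟩ := hn
      obtain ⟨b1, b2, b3⟩ := hUmem z hz
      refine ⟨by omega, by omega, ?_⟩
      intro M' hM'
      rw [Finset.mem_map] at hM'
      obtain ⟨t, ht, rfl⟩ := hM'
      refine ⟨z + t, b3 t ht, ?_⟩
      show (((1 : ℕ) : ℤ)) * ((z - u : ℕ) : ℤ) + ((u + t : ℕ) : ℤ) = ((z + t : ℕ) : ℤ)
      push_cast [Nat.cast_sub b1.le]
      ring) (by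
      have hcU : (U.image (fun n => n - u)).card = U.card := by
        apply card_image_of_injOn
        intro p hp q hq hpq
        have h1 := (hUmem p hp).1
        have h2 := (hUmem q hq).1
        simp only at hpq
        omega
      rw [hcU, hSI]
      refine le_trans ?_ hUc
      calc ρ * c / M * (CT (pat g) * (N / L ^ (l + 1))) ≤ ρ * c / M * (M * (N / L ^ (l + 1))) := by gcongr
        _ = ρ * (c * N / L ^ (l + 1)) := by field_simp
        _ ≤ ρ * (Pos g u N).card := mul_le_mul_of_nonneg_left hgc hρ.le)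
    rw [hSI] at key
    have hall := AllW_of (le_refl κ1) (by positivity) (fun n hn => (hUmem n hn).1) key
    unfold AllW at hall
    unfold EvW
    rw [← hL]
    refine (mul_le_mul_of_nonneg_right hκa hN0.le).trans (hall.trans ?_)
    rw [Nat.cast_le]
    apply card_le_card
    intro y hy
    rw [mem_filter] at hy ⊢
    refine ⟨hy.1, fun H hH1 hH2 => ?_⟩
    have hH0 : (0 : ℝ) ≤ H := Nat.cast_nonneg H
    have hq : 0 ≤ (H : ℝ) / L ^ (l + 1) := by positivity
    have h1 : 1 ≤ CT (pat g) / L ^ (l + 1) * H := by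
      have h2 : L ^ (l + 1) ≤ CT (pat g) * H :=
        hH1.trans (mul_le_mul_of_nonneg_right (hκc.trans hCTs) hH0)
      rw [div_mul_eq_mul_div, le_div_iff₀ hLp, one_mul]
      exact h2
    refine le_trans ?_ (hy.2 H h1 hH2)
    calc κ * ((H : ℝ) / L ^ (l + 1)) ≤ κ1 * s * ((H : ℝ) / L ^ (l + 1)) := mul_le_mul_of_nonneg_right hκb hq
      _ ≤ κ1 * CT (pat g) * ((H : ℝ) / L ^ (l + 1)) := by gcongr
      _ = κ1 * (CT (pat g) / L ^ (l + 1) * H) := by ring

end Pool.Agent.U28.SF
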