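import Pool.Agent.U28.SF.SF18

set_option autoImplicit false

/-!
# The number of windows without the right order of vectors of gaps in all short intervals
-/

namespace Pool.Agent.U28.SF

open Finset Filter Topology
open Pool.Agent.Q240.KS (MAINP pic)
open Pool.Agent.U766.OP (primesIn pic_nat)
open Pool.Agent.R527.LV (box)

/-- few separated windows with few primes -/
theorem poor_few {lam0 e0 : ℝ} (hM : MAINP lam0 e0) (hl0 : 0 ≤ lam0) (hl : lam0 ≤ 0.82) (he : e0 ≤ 1) :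
    ∃ c δ : ℝ, 0 < c ∧ 0 < δ ∧ δ ≤ 0.01 ∧
    ∀ᶠ X : ℕ in atTop, ∀ N : ℕ, (X : ℝ) ^ (1 - lam0 - δ) ≤ N → (N : ℝ) ≤ (X : ℝ) ^ (0.9 : ℝ) →
    ∀ P : Finset ℕ, (∀ u ∈ P, X ≤ u ∧ u ≤ 2 * X ∧ ((primesIn u N).card : ℝ) < c * N / Real.log N) →
    (∀ u ∈ P, ∀ u' ∈ P, u < u' → u + N ≤ u') → (P.card : ℝ) ≤ (X : ℝ) ^ (e0 - δ) := by
  classical
  obtain ⟨c0, η, Y₀, hc0, hη, hm⟩ := hM
  obtain ⟨δ, hδ⟩ : ∃ δ : ℝ, δ = min (η / 2) 0.01 := ⟨_, rfl⟩
  have hδ0 : 0 < δ := by rw [hδ]; exact lt_min (by positivity) (by norm_num)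
  have hδ1 : δ ≤ η / 2 := by rw [hδ]; exact min_le_left _ _
  have hδ2 : δ ≤ 0.01 := by rw [hδ]; exact min_le_right _ _
  refine ⟨c0 / 10, δ, by positivity, hδ0, hδ2, ?_⟩
  have tN : Tendsto (fun N : ℕ => (N : ℝ)) atTop atTop := tendsto_natCast_atTop_atTop
  have tL : Tendsto (fun N : ℕ => Real.log (N : ℝ)) atTop atTop := Real.tendsto_log_atTop.comp tN
  filter_upwards [eventually_ge_atTop 3, tL.eventually_ge_atTop Y₀, tL.eventually_ge_atTop 1,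
    tL.eventually_ge_atTop (0.7 / η)] with X hX3 hA1 hA2 hA3
  intro N hN1 hN2 P hP hsep
  have hX0 : (0 : ℝ) < X := by exact_mod_cast (by omega : 0 < X)
  obtain ⟨A, hA⟩ : ∃ A : ℝ, A = Real.log (X : ℝ) := ⟨_, rfl⟩
  rw [← hA] at hA1 hA2 hA3
  have hA4 : 0.7 ≤ A * η := by rwa [div_le_iff₀ hη] at hA3
  have hpow : ∀ z : ℝ, (X : ℝ) ^ z = Real.exp (z * A) := by
    intro z
    rw [Real.rpow_def_of_pos hX0, hA]
    congr 1
    ring
  have hA0 : 0 < A := by linarith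
  have hδA : 0.35 ≤ (η - δ) * A := by nlinarith
  obtain ⟨Y, hY⟩ : ∃ Y : ℝ, Y = A + 0.35 := ⟨_, rfl⟩
  have hY0 : 0 < Y := by linarith
  have hNr : 0 < (N : ℝ) := lt_of_lt_of_le (Real.rpow_pos_of_pos hX0 _) hN1
  have hlogN : 0.17 * A ≤ Real.log N := by
    have h1 : Real.log ((X : ℝ) ^ (1 - lam0 - δ)) ≤ Real.log N := Real.log_le_log (Real.rpow_pos_of_pos hX0 _) hN1
    rw [Real.log_rpow hX0, ← hA] at h1
    have h2 : 0.17 * A ≤ (1 - lam0 - δ) * A := by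
      apply mul_le_mul_of_nonneg_right _ hA0.le
      linarith
    linarith
  have hlogN0 : 0 < Real.log (N : ℝ) := by
    have : 0 < 0.17 * A := by positivity
    linarith
  have key := hm Y (by linarith) N (by
    refine le_trans ?_ hN1
    rw [hpow]
    apply Real.exp_le_exp.2
    rw [hY]
    by_cases h1 : 0 ≤ 1 - lam0 - η
    · nlinarith
    · rw [not_le] at h1
      nlinarith) (by
    refine hN2.trans ?_
    rw [hpow]
    apply Real.exp_le_exp.2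
    rw [hY]
    linarith) (P.image (fun u : ℕ => (u : ℝ))) (by
    intro y hy
    rw [mem_image] at hy
    obtain ⟨u, hu, rfl⟩ := hy
    obtain ⟨b1, b2, b3⟩ := hP u hu
    have hu0 : (0 : ℝ) < u := by exact_mod_cast (by omega : 0 < u)
    have hb1 : (X : ℝ) ≤ u := by exact_mod_cast b1
    have hb2 : (u : ℝ) ≤ 2 * X := by exact_mod_cast b2
    refine ⟨hu0, ?_, ?_⟩
    · have h1 : A ≤ Real.log u := by rw [hA]; exact Real.log_le_log hX0 hb1
      have h2 : Real.log u ≤ Real.log 2 + A := by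
        have := Real.log_le_log hu0 hb2
        rwa [Real.log_mul (by norm_num) hX0.ne', ← hA] at this
      have h3 := Real.log_two_lt_d9
      rw [abs_le, hY]
      constructor
      · linarith
      · linarith
    · rw [pic_nat]
      refine lt_of_lt_of_le b3 ?_
      rw [div_le_div_iff₀ hlogN0 hY0]
      have h1 : Y ≤ 10 * Real.log N := by rw [hY]; nlinarith
      have h2 : 0 ≤ c0 * N := by positivity
      calc c0 / 10 * N * Y = c0 * N * Y / 10 := by ring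
        _ ≤ c0 * N * (10 * Real.log N) / 10 := by gcongr
        _ = c0 * N * Real.log N := by ring) (by
    intro y hy y' hy' hne
    rw [mem_image] at hy hy'
    obtain ⟨u, hu, rfl⟩ := hy
    obtain ⟨u', hu', rfl⟩ := hy'
    have hne' : u ≠ u' := fun h => hne (by rw [h])
    rcases Nat.lt_or_gt_of_ne hne' with h1 | h1
    · have h2 := hsep u hu u' hu' h1
      have h3 : (u : ℝ) + N ≤ u' := by exact_mod_cast h2
      rw [abs_sub_comm]
      exact (by linarith : (N : ℝ) ≤ u' - u).trans (le_abs_self _)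
    · have h2 := hsep u' hu' u hu h1
      have h3 : (u' : ℝ) + N ≤ u := by exact_mod_cast h2
      exact (by linarith : (N : ℝ) ≤ u - u').trans (le_abs_self _))
  rw [card_image_of_injective _ Nat.cast_injective] at key
  refine key.trans ?_
  rw [hpow]
  apply Real.exp_le_exp.2
  rw [hY]
  by_cases h1 : 0 ≤ e0 - η
  · nlinarith
  · rw [not_le] at h1
    nlinarith

open Classical in
/-- at least `η (log N) ^ l` vectors of gaps `≤ K log N` are good in the window `(u, u + N]` -/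
def RichW (l : ℕ) (K η κ ρ : ℝ) (m B u N : ℕ) : Prop :=
  η * Real.log N ^ l ≤ (((box l ⌊K * Real.log N⌋₊).filter (GoodV κ ρ m (Real.log N ^ B) u N)).card : ℝ)

theorem rich_few {lam0 e0 : ℝ} (hM : MAINP lam0 e0) (hl0 : 0 ≤ lam0) (hl : lam0 ≤ 0.82) (he : e0 ≤ 1) :
    ∃ δ : ℝ, 0 < δ ∧ ∀ l : ℕ, ∃ K η : ℝ, 0 < K ∧ 0 < η ∧ ∀ (m : ℕ) (ρ : ℝ), 0 < ρ → ∃ κ : ℝ, 0 < κ ∧ ∃ B : ℕ,
    ∀ᶠ X : ℕ in atTop, ∀ N : ℕ, (X : ℝ) ^ (1 - lam0 - δ) ≤ N → (N : ℝ) ≤ (X : ℝ) ^ (0.9 : ℝ) →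
    ∀ P : Finset ℕ, (∀ u ∈ P, X ≤ u ∧ u ≤ 2 * X ∧ ¬ RichW l K η κ ρ m B u N) →
    (∀ u ∈ P, ∀ u' ∈ P, u < u' → u + N ≤ u') → (P.card : ℝ) ≤ (X : ℝ) ^ (e0 - δ) := by
  obtain ⟨c, δ, hc, hδ, hδ1, hpoor⟩ := poor_few hM hl0 hl he
  refine ⟨δ, hδ, fun l => ?_⟩
  obtain ⟨K, η, hK, hη, hstr⟩ := strings l c hc
  refine ⟨K, η, hK, hη, fun m ρ hρ => ?_⟩
  obtain ⟨κ, hκ, B, h⟩ := hstr m ρ hρ
  obtain ⟨N₀, hN₀⟩ := eventually_atTop.1 h
  refine ⟨κ, hκ, B, ?_⟩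
  have tN : Tendsto (fun N : ℕ => (N : ℝ)) atTop atTop := tendsto_natCast_atTop_atTop
  have t1 : Tendsto (fun X : ℕ => (X : ℝ) ^ (0.17 : ℝ)) atTop atTop := (tendsto_rpow_atTop (by norm_num)).comp tN
  filter_upwards [hpoor, t1.eventually_ge_atTop (N₀ : ℝ), eventually_ge_atTop 1] with X h1 h2 h3
  intro N hN1 hN2 P hP hsep
  have hX1 : (1 : ℝ) ≤ X := by exact_mod_cast h3
  refine h1 N hN1 hN2 P (fun u hu => ?_) hsep
  obtain ⟨b1, b2, b3⟩ := hP u hu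
  refine ⟨b1, b2, ?_⟩
  by_contra hcon
  rw [not_lt] at hcon
  apply b3
  have hNN₀ : N₀ ≤ N := by
    have h4 : (X : ℝ) ^ (0.17 : ℝ) ≤ (X : ℝ) ^ (1 - lam0 - δ) := Real.rpow_le_rpow_of_exponent_le hX1 (by linarith)
    exact_mod_cast h2.trans (h4.trans hN1)
  have hNu : N ≤ u := by
    have h4 : (X : ℝ) ^ (0.9 : ℝ) ≤ X := by
      calc (X : ℝ) ^ (0.9 : ℝ) ≤ (X : ℝ) ^ (1 : ℝ) := Real.rpow_le_rpow_of_exponent_le hX1 (by norm_num)
        _ = X := Real.rpow_one _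
    have h5 : N ≤ X := by exact_mod_cast hN2.trans h4
    exact h5.trans b1
  exact hN₀ N hNN₀ u hNu hcon

end Pool.Agent.U28.SF
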