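import Pool.Agent.U28.SF.SF1

set_option autoImplicit false

/-!
# The energy of an arbitrary sifted set down to its mean spacing
-/

namespace Pool.Agent.U28.SF

open Finset Filter Topology
open Pool.Agent.Y843.HS (Pr VV Sv Om Co Coll Gd Dp mem_Om_iff card_Om)
open Pool.Agent.X58.IV (Adm upZ VV_split VV_pos VV_le_one fac)

/-- the sum of `1 / p` over the primes of collision -/
noncomputable def EH (Z : ℕ → Finset ℕ) (a b : ℕ) (h : ℤ) : ℝ := ∑ p ∈ Dp Z a b h, (1 : ℝ) / p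

lemma EH_nonneg (Z : ℕ → Finset ℕ) (a b : ℕ) (h : ℤ) : 0 ≤ EH Z a b h :=
  sum_nonneg fun _ _ => by positivity

lemma Gd_le_exp (K : ℕ) (Z : ℕ → Finset ℕ) (a b : ℕ) (h : ℤ) : Gd K Z a b h ≤ Real.exp (K * EH Z a b h) := by
  rw [Pool.Agent.Y843.HS.Gd_eq]
  refine (Pool.Agent.Y79.HS.prod_le_exp (Dp Z a b h) (fun p => (K : ℝ) / p) (fun p _ => by positivity)).trans
    (le_of_eq ?_)
  unfold EH
  rw [mul_sum]
  congr 1
  apply sum_congr rfl
  intro p _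
  ring

lemma Dp_split (Z : ℕ → Finset ℕ) {a b c : ℕ} (hab : a ≤ b) (hbc : b ≤ c) (h : ℤ) :
    Dp Z a c h = Dp Z a b h ∪ Dp Z b c h ∧ Disjoint (Dp Z a b h) (Dp Z b c h) := by
  classical
  constructor
  · ext p
    unfold Dp Pr
    simp only [mem_union, mem_filter, mem_Ioc]
    constructor
    · rintro ⟨⟨h1, hp⟩, h2⟩
      by_cases h9 : p ≤ b
      · exact Or.inl ⟨⟨⟨h1.1, h9⟩, hp⟩, h2⟩
      · exact Or.inr ⟨⟨⟨by omega, h1.2⟩, hp⟩, h2⟩
    · rintro (⟨⟨h1, hp⟩, h2⟩ | ⟨⟨h1, hp⟩, h2⟩)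
      · exact ⟨⟨⟨h1.1, by omega⟩, hp⟩, h2⟩
      · exact ⟨⟨⟨by omega, h1.2⟩, hp⟩, h2⟩
  · rw [disjoint_left]
    intro p hp hp'
    unfold Dp Pr at hp hp'
    rw [mem_filter, mem_filter, mem_Ioc] at hp hp'
    omega

lemma Gd_split (K : ℕ) (Z : ℕ → Finset ℕ) {a b c : ℕ} (hab : a ≤ b) (hbc : b ≤ c) (h : ℤ) :
    Gd K Z a c h = Gd K Z a b h * Gd K Z b c h := by
  classical
  obtain ⟨h1, h2⟩ := Dp_split Z hab hbc h
  rw [Pool.Agent.Y843.HS.Gd_eq, Pool.Agent.Y843.HS.Gd_eq, Pool.Agent.Y843.HS.Gd_eq, h1, prod_union h2]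

lemma sum_EH {l : ℕ} {Z : ℕ → Finset ℕ} {a b H : ℕ} (hZ : Sv l a b Z) (hH : H ≤ a) :
    ∑ h ∈ Icc 1 H, EH Z a b ((h : ℕ) : ℤ) ≤ (l : ℝ) ^ 2 * ∑ p ∈ Pr a b, (1 : ℝ) / p := by
  classical
  have e : ∀ h : ℕ, EH Z a b ((h : ℕ) : ℤ) = ∑ p ∈ Pr a b, (if p ∈ Dp Z a b ((h : ℕ) : ℤ) then (1 : ℝ) / p else 0) := by
    intro h
    unfold EH
    rw [← sum_filter]
    apply sum_congr _ fun _ _ => rfl
    ext p
    rw [mem_filter]
    constructor
    · intro hp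
      refine ⟨?_, hp⟩
      unfold Dp at hp
      exact (mem_filter.1 hp).1
    · exact fun hp => hp.2
  simp_rw [e]
  rw [sum_comm, mul_sum]
  apply sum_le_sum
  intro p hp
  rw [← sum_filter, sum_const, nsmul_eq_mul]
  have hpp := (mem_filter.1 hp).2
  have hpa : a < p := (mem_Ioc.1 (mem_filter.1 hp).1).1
  have hp0 : (0 : ℝ) < p := by exact_mod_cast hpp.pos
  apply mul_le_mul_of_nonneg_right _ (by positivity)
  have hsub : (Icc 1 H).filter (fun h : ℕ => p ∈ Dp Z a b ((h : ℕ) : ℤ)) ⊆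
      (Z p ×ˢ Z p).biUnion (fun cc => (Icc 1 H).filter (fun h : ℕ => (p : ℤ) ∣ (h : ℤ) - ((cc.1 : ℤ) - cc.2))) := by
    intro h hh
    rw [mem_filter] at hh
    obtain ⟨h1, h2⟩ := hh
    unfold Dp at h2
    rw [mem_filter] at h2
    obtain ⟨_, c, hc, c', hc', hd⟩ := h2
    rw [mem_biUnion]
    exact ⟨(c, c'), mem_product.2 ⟨hc, hc'⟩, mem_filter.2 ⟨h1, hd⟩⟩
  have hone : ∀ cc ∈ Z p ×ˢ Z p,
      ((Icc 1 H).filter (fun h : ℕ => (p : ℤ) ∣ (h : ℤ) - ((cc.1 : ℤ) - cc.2))).card ≤ 1 := by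
    intro cc _
    rw [card_le_one]
    intro x hx y hy
    rw [mem_filter, mem_Icc] at hx hy
    have hd := dvd_sub hx.2 hy.2
    have e1 : (x : ℤ) - ((cc.1 : ℤ) - cc.2) - ((y : ℤ) - ((cc.1 : ℤ) - cc.2)) = (x : ℤ) - y := by ring
    rw [e1] at hd
    have h3 : |(x : ℤ) - y| < p := by
      rw [abs_lt]
      omega
    have h4 := Int.eq_zero_of_abs_lt_dvd hd h3
    omega
  have h1 := (card_le_card hsub).trans (card_biUnion_le_card_mul _ _ 1 hone)
  rw [mul_one, card_product] at h1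
  have h2 : (Z p).card * (Z p).card ≤ l * l := Nat.mul_le_mul (hZ p hp).1 (hZ p hp).1
  have h3 := h1.trans h2
  calc (((Icc 1 H).filter (fun h : ℕ => p ∈ Dp Z a b ((h : ℕ) : ℤ))).card : ℝ) ≤ ((l * l : ℕ) : ℝ) := by
        exact_mod_cast h3
    _ = (l : ℝ) ^ 2 := by push_cast; ring

lemma sum_pr_le {C : ℝ} (hC : ∀ N : ℕ, 3 ≤ N →
    |∑ p ∈ (Finset.Icc 1 N).filter Nat.Prime, (1 : ℝ) / p - Real.log (Real.log N)| ≤ C) {s R : ℕ} (hR : 3 ≤ R) :
    ∑ p ∈ Pr s R, 1 / (p : ℝ) ≤ Real.log (Real.log R) + C := by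
  have h5 := (abs_le.1 (hC R hR)).2
  have h6 : ∑ p ∈ Pr s R, 1 / (p : ℝ) ≤ ∑ p ∈ (Icc 1 R).filter Nat.Prime, (1 : ℝ) / p := by
    apply Finset.sum_le_sum_of_subset_of_nonneg
    · intro p hp
      unfold Pr at hp
      rw [mem_filter, mem_Ioc] at hp
      rw [mem_filter, mem_Icc]
      exact ⟨⟨hp.2.one_lt.le, hp.1.2⟩, hp.2⟩
    · intro p _ _
      positivity
  linarith

lemma prod_pr_le {C : ℝ} (hC : ∀ N : ℕ, 3 ≤ N →
    |∑ p ∈ (Finset.Icc 1 N).filter Nat.Prime, (1 : ℝ) / p - Real.log (Real.log N)| ≤ C) (k : ℕ) {s R : ℕ}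
    (hR : 3 ≤ R) : ∏ p ∈ Pr s R, (1 + (k : ℝ) * (1 / (p : ℝ))) ≤ Real.exp (k * C) * Real.log R ^ k := by
  have hlR : 0 < Real.log (R : ℝ) := Real.log_pos (by exact_mod_cast (by omega : 1 < R))
  have h3 := Pool.Agent.Y79.HS.prod_le_exp (Pr s R) (fun p => (k : ℝ) * (1 / (p : ℝ))) (fun p _ => by positivity)
  rw [← Finset.mul_sum] at h3
  have h4 := sum_pr_le hC (s := s) hR
  have h5 : (k : ℝ) * ∑ p ∈ Pr s R, 1 / (p : ℝ) ≤ k * C + k * Real.log (Real.log R) := by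
    have := mul_le_mul_of_nonneg_left h4 (Nat.cast_nonneg (α := ℝ) k)
    linarith
  refine h3.trans ((Real.exp_le_exp.2 h5).trans (le_of_eq ?_))
  rw [Real.exp_add, Real.exp_nat_mul, Real.exp_nat_mul, Real.exp_log hlR]

/-- the parameters -/
lemma params (l k K s0 : ℕ) (κ c0 C C2 : ℝ) (hκ : 0 < κ) (hc0 : 0 < c0) (hC2 : 0 ≤ C2) :
    ∃ θ : ℝ, 0 < θ ∧
    ∀ᶠ X : ℕ in atTop, ∃ R0 : ℕ, 3 ≤ R0 ∧ s0 ≤ R0 ∧ Real.log X ^ (l + 2) ≤ R0 ∧ R0 ≤ ⌊(X : ℝ) ^ κ⌋₊ ∧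
      Real.exp (k * C) * Real.log R0 ^ k ≤ Real.log X ^ c0 ∧
      (Real.exp (K * C) * Real.log R0 ^ K) * Real.log X ^ (c0 / 4) * ((l : ℝ) ^ 2 * (Real.log (Real.log X) + C2)) ≤
        Real.log X ^ c0 ∧ max C2 1 ≤ Real.log (Real.log X) := by
  set θ : ℝ := min (1 / 2) (c0 / (4 * (k + K + 1))) with hθ
  have hkK : (0 : ℝ) < k + K + 1 := by positivity
  have hθ0 : 0 < θ := by positivity
  have hθk : θ * k ≤ c0 / 4 := by
    have h1 : θ ≤ c0 / (4 * (k + K + 1)) := min_le_right _ _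
    calc θ * k ≤ c0 / (4 * (k + K + 1)) * (k + K + 1) := by
          apply mul_le_mul h1 _ (Nat.cast_nonneg _) (by positivity)
          have : (0 : ℝ) ≤ K := Nat.cast_nonneg _
          linarith
      _ = c0 / 4 := by field_simp
  have hθK : θ * K ≤ c0 / 4 := by
    have h1 : θ ≤ c0 / (4 * (k + K + 1)) := min_le_right _ _
    calc θ * K ≤ c0 / (4 * (k + K + 1)) * (k + K + 1) := by
          apply mul_le_mul h1 _ (Nat.cast_nonneg _) (by positivity)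
          have : (0 : ℝ) ≤ k := Nat.cast_nonneg _
          linarith
      _ = c0 / 4 := by field_simp
  refine ⟨θ, hθ0, ?_⟩
  have tN : Tendsto (fun N : ℕ => (N : ℝ)) atTop atTop := tendsto_natCast_atTop_atTop
  have tL : Tendsto (fun N : ℕ => Real.log (N : ℝ)) atTop atTop := Real.tendsto_log_atTop.comp tN
  have tLL : Tendsto (fun N : ℕ => Real.log (Real.log (N : ℝ))) atTop atTop := Real.tendsto_log_atTop.comp tL
  have tθ : Tendsto (fun N : ℕ => Real.log (N : ℝ) ^ θ) atTop atTop := (tendsto_rpow_atTop hθ0).comp tL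
  have tc2 : Tendsto (fun N : ℕ => Real.log (N : ℝ) ^ (c0 / 4)) atTop atTop :=
    (tendsto_rpow_atTop (by positivity)).comp tL
  -- `L ^ (l + 2) + 1 ≤ exp (L ^ θ)`
  have hexp : ∀ᶠ N : ℕ in atTop, Real.log (N : ℝ) ^ (l + 2) + 1 ≤ Real.exp (Real.log (N : ℝ) ^ θ) - 1 := by
    obtain ⟨n, hn⟩ := exists_nat_gt (((l : ℝ) + 3) / θ)
    have h1 := tθ.eventually (Real.tendsto_pow_mul_exp_neg_atTop_nhds_zero n |>.eventually
      (ge_mem_nhds (show (0 : ℝ) < 1 by norm_num)))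
    filter_upwards [h1, tL.eventually_ge_atTop 3] with N h2 h3
    have hL0 : 0 < Real.log (N : ℝ) := by linarith
    have hL1 : 1 ≤ Real.log (N : ℝ) := by linarith
    set L := Real.log (N : ℝ) with hL
    have h4 : (L ^ θ) ^ n ≤ Real.exp (L ^ θ) := by
      rw [Real.exp_neg] at h2
      have h5 : (L ^ θ) ^ n * (Real.exp (L ^ θ))⁻¹ ≤ 1 := h2
      rwa [mul_inv_le_iff₀ (Real.exp_pos _), one_mul] at h5
    have h5 : L ^ (l + 3) ≤ (L ^ θ) ^ n := by
      rw [← Real.rpow_natCast, ← Real.rpow_natCast, ← Real.rpow_mul hL0.le]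
      apply Real.rpow_le_rpow_of_exponent_le hL1
      rw [div_lt_iff₀ hθ0] at hn
      push_cast
      linarith
    have h6 : L ^ (l + 2) + 2 ≤ L ^ (l + 3) := by
      have h7 : 1 ≤ L ^ (l + 2) := one_le_pow₀ hL1
      rw [pow_succ L (l + 2)]
      nlinarith
    linarith
  filter_upwards [hexp, tL.eventually_ge_atTop (max 3 (1 / κ ^ 2)), tθ.eventually_ge_atTop (Real.log (s0 + 4)),
    tLL.eventually_ge_atTop (max C2 1), tc2.eventually_ge_atTop (Real.exp (k * C)),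
    tc2.eventually_ge_atTop (Real.exp (K * C)),
    tL.eventually ((isLittleO_log_rpow_atTop (show 0 < c0 / 8 by positivity)).bound
      (show (0 : ℝ) < 1 by norm_num)),
    ((tendsto_rpow_atTop (show 0 < c0 / 8 by positivity)).comp tL).eventually_ge_atTop ((l : ℝ) ^ 2 * (1 + |C2|))]
    with N h1 h2 h3 h4 h5 h6 h7 h8
  set L := Real.log (N : ℝ) with hL
  have hL3 : 3 ≤ L := (le_max_left _ _).trans h2
  have hL0 : 0 < L := by linarith
  have hL1 : 1 ≤ L := by linarith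
  have hN0 : (0 : ℝ) < N := by
    by_contra hcon
    have : (N : ℝ) = 0 := le_antisymm (not_lt.1 hcon) (Nat.cast_nonneg _)
    rw [hL, this, Real.log_zero] at hL0
    exact lt_irrefl _ hL0
  set R0 := ⌊Real.exp (L ^ θ)⌋₊ with hR0
  have hR0le : (R0 : ℝ) ≤ Real.exp (L ^ θ) := Nat.floor_le (Real.exp_pos _).le
  have hR0ge : Real.exp (L ^ θ) - 1 < R0 := by
    have := Nat.lt_floor_add_one (Real.exp (L ^ θ))
    rw [← hR0] at this
    linarith
  have hexps : (s0 : ℝ) + 4 ≤ Real.exp (L ^ θ) := by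
    rw [← Real.log_le_iff_le_exp (by positivity)]
    exact h3
  have hR0s : (s0 : ℝ) + 3 < R0 := by linarith
  have hR0s' : s0 + 3 < R0 := by exact_mod_cast hR0s
  have hR01 : (0 : ℝ) < R0 := by linarith [(Nat.cast_nonneg s0 : (0 : ℝ) ≤ s0)]
  have hlogR0 : Real.log R0 ≤ L ^ θ := by
    have := Real.log_le_log hR01 hR0le
    rwa [Real.log_exp] at this
  have hlogR0' : 0 ≤ Real.log R0 := Real.log_nonneg (by linarith [(Nat.cast_nonneg s0 : (0 : ℝ) ≤ s0)])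
  refine ⟨R0, by omega, by omega, by linarith, ?_, ?_, ?_, h4⟩
  · apply Nat.floor_le_floor
    have e : (N : ℝ) ^ κ = Real.exp (κ * L) := by
      rw [Real.rpow_def_of_pos hN0, mul_comm]
    rw [e]
    apply Real.exp_le_exp.2
    have h9 : L ^ θ ≤ L ^ (1 / 2 : ℝ) := Real.rpow_le_rpow_of_exponent_le hL1 (min_le_left _ _)
    refine h9.trans ?_
    rw [← Real.sqrt_eq_rpow]
    have h10 : 1 / κ ^ 2 ≤ L := (le_max_right _ _).trans h2
    rw [div_le_iff₀ (by positivity)] at h10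
    rw [Real.sqrt_le_iff]
    constructor
    · positivity
    · nlinarith
  · have h9 : Real.log R0 ^ k ≤ L ^ (c0 / 4) := by
      calc Real.log R0 ^ k ≤ (L ^ θ) ^ k := pow_le_pow_left₀ hlogR0' hlogR0 k
        _ = L ^ (θ * k) := by rw [← Real.rpow_natCast, ← Real.rpow_mul hL0.le]
        _ ≤ L ^ (c0 / 4) := Real.rpow_le_rpow_of_exponent_le hL1 hθk
    calc Real.exp (k * C) * Real.log R0 ^ k ≤ L ^ (c0 / 4) * L ^ (c0 / 4) :=
          mul_le_mul h5 h9 (by positivity) (by positivity)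
      _ = L ^ (c0 / 2) := by rw [← Real.rpow_add hL0]; congr 1; ring
      _ ≤ L ^ c0 := Real.rpow_le_rpow_of_exponent_le hL1 (by linarith)
  · have h9 : Real.log R0 ^ K ≤ L ^ (c0 / 4) := by
      calc Real.log R0 ^ K ≤ (L ^ θ) ^ K := pow_le_pow_left₀ hlogR0' hlogR0 K
        _ = L ^ (θ * K) := by rw [← Real.rpow_natCast, ← Real.rpow_mul hL0.le]
        _ ≤ L ^ (c0 / 4) := Real.rpow_le_rpow_of_exponent_le hL1 hθK
    have hLL1 : 1 ≤ Real.log L := (le_max_right _ _).trans h4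
    have h10 : (l : ℝ) ^ 2 * (Real.log L + C2) ≤ L ^ (c0 / 4) := by
      have q1 : Real.log L ≤ L ^ (c0 / 8) := by
        have := h7
        simp only [Real.norm_eq_abs, one_mul] at this
        rw [abs_of_nonneg (by linarith : 0 ≤ Real.log L), abs_of_nonneg (by positivity)] at this
        exact this
      have q2 : (l : ℝ) ^ 2 * (Real.log L + C2) ≤ ((l : ℝ) ^ 2 * (1 + |C2|)) * Real.log L := by
        have q3 : Real.log L + C2 ≤ (1 + |C2|) * Real.log L := by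
          have := le_abs_self C2
          nlinarith [abs_nonneg C2]
        calc (l : ℝ) ^ 2 * (Real.log L + C2) ≤ (l : ℝ) ^ 2 * ((1 + |C2|) * Real.log L) := by gcongr
          _ = _ := by ring
      have q4 : ((l : ℝ) ^ 2 * (1 + |C2|)) ≤ L ^ (c0 / 8) := h8
      calc (l : ℝ) ^ 2 * (Real.log L + C2) ≤ ((l : ℝ) ^ 2 * (1 + |C2|)) * Real.log L := q2
        _ ≤ L ^ (c0 / 8) * L ^ (c0 / 8) := mul_le_mul q4 q1 (by linarith) (by positivity)
        _ = L ^ (c0 / 4) := by rw [← Real.rpow_add hL0]; congr 1; ring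
    have hnn : 0 ≤ Real.exp (K * C) * Real.log R0 ^ K := by positivity
    calc (Real.exp (K * C) * Real.log R0 ^ K) * L ^ (c0 / 4) * ((l : ℝ) ^ 2 * (Real.log L + C2))
        ≤ (L ^ (c0 / 4) * L ^ (c0 / 4)) * L ^ (c0 / 4) * L ^ (c0 / 4) := by
          apply mul_le_mul _ h10 _ (by positivity)
          · apply mul_le_mul_of_nonneg_right _ (by positivity)
            exact mul_le_mul h6 h9 (by positivity) (by positivity)
          · exact mul_nonneg (by positivity) (by linarith)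
      _ = L ^ c0 := by
          rw [← Real.rpow_add hL0, ← Real.rpow_add hL0, ← Real.rpow_add hL0]
          congr 1
          ring

end Pool.Agent.U28.SF
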