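import Pool.Agent.U28.SF.SF19
import Pool.Agent.U766.OP.Exa

set_option autoImplicit false

/-!
# Prime tuples in short windows
-/

namespace Pool.Agent.U28.SF

open Finset Filter Topology
open Pool.Agent.H387R2
open Pool.Agent.Q240.KS (MAINP pic)
open Pool.Agent.U766.OP (primesIn pic_nat)
open Pool.Agent.R527.LV (box)

open Classical in
/-- for all `H` between `lam log N` and `(log N) ^ C` the patterns `T ⊆ [1, H]` with `k + 1` elements which are good in the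
window `(u, u + N]` have total weight at least `c H ^ (k + 1)` -/
def RichT (k : ℕ) (lam c κ ρ : ℝ) (m B : ℕ) (C : ℝ) (u N : ℕ) : Prop :=
  ∀ H : ℕ, lam * Real.log N ≤ H → (H : ℝ) ≤ Real.log N ^ C → c * (H : ℝ) ^ (k + 1) ≤
    ∑ T ∈ ((Icc 1 H).powersetCard (k + 1)).filter (GoodW κ ρ m (Real.log N ^ B) u N), Uni.CT T

theorem tuples_rich (k : ℕ) (δ : ℝ) (hδ : 0 < δ) : ∃ lam c : ℝ, 0 < lam ∧ 0 < c ∧ ∀ (m : ℕ) (ρ : ℝ), 0 < ρ →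
    ∃ κ : ℝ, 0 < κ ∧ ∃ B : ℕ, ∀ C : ℝ, ∀ᶠ N : ℕ in atTop, ∀ u : ℕ, N ≤ u →
    δ * N / Real.log N ≤ ((primesIn u N).card : ℝ) → RichT k lam c κ ρ m B C u N := by
  have hlam : (k : ℝ) < δ * ((k + 1) / δ) := by
    rw [mul_div_cancel₀ _ hδ.ne']
    linarith
  obtain ⟨c, hc, h⟩ := windows k δ ((k + 1) / δ) hδ hlam
  refine ⟨(k + 1) / δ, c, by positivity, hc, fun m ρ hρ => ?_⟩
  obtain ⟨κ, hκ, B, h⟩ := h m ρ hρ
  refine ⟨κ, hκ, B, fun C => ?_⟩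
  filter_upwards [h C] with N hN
  intro u hu hP H hH1 hH2
  refine hN u H (by omega) hH1 hH2 ?_
  unfold primesIn at hP
  refine le_trans (le_of_eq ?_) hP
  ring

theorem tuples_few {lam0 e0 : ℝ} (hM : MAINP lam0 e0) (hl0 : 0 ≤ lam0) (hl : lam0 ≤ 0.82) (he : e0 ≤ 1) :
    ∃ δ : ℝ, 0 < δ ∧ ∀ k : ℕ, ∃ lam c : ℝ, 0 < lam ∧ 0 < c ∧ ∀ (m : ℕ) (ρ : ℝ), 0 < ρ → ∃ κ : ℝ, 0 < κ ∧ ∃ B : ℕ,
    ∀ C : ℝ, ∀ᶠ X : ℕ in atTop, ∀ N : ℕ, (X : ℝ) ^ (1 - lam0 - δ) ≤ N → (N : ℝ) ≤ (X : ℝ) ^ (0.9 : ℝ) →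
    ∀ P : Finset ℕ, (∀ u ∈ P, X ≤ u ∧ u ≤ 2 * X ∧ ¬ RichT k lam c κ ρ m B C u N) →
    (∀ u ∈ P, ∀ u' ∈ P, u < u' → u + N ≤ u') → (P.card : ℝ) ≤ (X : ℝ) ^ (e0 - δ) := by
  obtain ⟨c1, δ, hc1, hδ, hδ1, hpoor⟩ := poor_few hM hl0 hl he
  refine ⟨δ, hδ, fun k => ?_⟩
  obtain ⟨lam, c, hlam, hc, hstr⟩ := tuples_rich k c1 hc1
  refine ⟨lam, c, hlam, hc, fun m ρ hρ => ?_⟩
  obtain ⟨κ, hκ, B, h⟩ := hstr m ρ hρ
  refine ⟨κ, hκ, B, fun C => ?_⟩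
  obtain ⟨N₀, hN₀⟩ := eventually_atTop.1 (h C)
  have tN : Tendsto (fun N : ℕ => (N : ℝ)) atTop atTop := tendsto_natCast_atTop_atTop
  have t1 : Tendsto (fun X : ℕ => (X : ℝ) ^ (0.17 : ℝ)) atTop atTop := (tendsto_rpow_atTop (by norm_num)).comp tN
  filter_upwards [hpoor, t1.eventually_ge_atTop (N₀ : ℝ), eventually_ge_atTop 1] with X h1 h2 h3
  intro N hN1 hN2 P hP hsep
  have hX1 : (1 : ℝ) ≤ X := by exact_mod_cast h3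
  refine h1 N hN1 hN2 P (fun u hu => ?_) hsep
  obtain ⟨b1, b2, b3⟩ := hP u hu
  refine ⟨b1, b2, ?_⟩
  by_contra hcon
  rw [not_lt] at hcon
  apply b3
  have hNN₀ : N₀ ≤ N := by
    have h4 : (X : ℝ) ^ (0.17 : ℝ) ≤ (X : ℝ) ^ (1 - lam0 - δ) := Real.rpow_le_rpow_of_exponent_le hX1 (by linarith)
    exact_mod_cast h2.trans (h4.trans hN1)
  have hNu : N ≤ u := by
    have h4 : (X : ℝ) ^ (0.9 : ℝ) ≤ X := by
      calc (X : ℝ) ^ (0.9 : ℝ) ≤ (X : ℝ) ^ (1 : ℝ) := Real.rpow_le_rpow_of_exponent_le hX1 (by norm_num)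
        _ = X := Real.rpow_one _
    have h5 : N ≤ X := by exact_mod_cast hN2.trans h4
    exact h5.trans b1
  exact hN₀ N hNN₀ u hNu hcon

/-- all long windows contain many primes -/
theorem long_primes {lam0 e0 : ℝ} (hM : MAINP lam0 e0) (hl0 : 0.2 ≤ lam0) (hl1 : lam0 ≤ 0.9) (he0 : 0.01 ≤ e0)
    (he1 : e0 ≤ 1) (hθ : 0.1 ≤ 1 - lam0 + e0 - 0.01) :
    ∃ c δ : ℝ, 0 < c ∧ 0 < δ ∧ δ ≤ 0.01 ∧ ∀ᶠ u : ℕ in atTop, ∀ N : ℕ, (u : ℝ) ^ (1 - lam0 + e0 - δ) ≤ N → N ≤ u →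
      c * N / Real.log N ≤ ((primesIn u N).card : ℝ) := by
  obtain ⟨c, δ, hc, hδ, hδ1, h⟩ := Pool.Agent.U766.OP.all_long hM hl0 hl1 he0 he1
  refine ⟨c / 10, δ, by positivity, hδ, hδ1, ?_⟩
  have tN : Tendsto (fun N : ℕ => (N : ℝ)) atTop atTop := tendsto_natCast_atTop_atTop
  filter_upwards [tN.eventually h, eventually_ge_atTop 3] with u hu h3
  intro N hN1 hN2
  have hu0 : (0 : ℝ) < u := by exact_mod_cast (by omega : 0 < u)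
  have hu1 : (1 : ℝ) ≤ u := by exact_mod_cast (by omega : 1 ≤ u)
  have hlu : 0 < Real.log (u : ℝ) := Real.log_pos (by exact_mod_cast (by omega : 1 < u))
  have hNu : (N : ℝ) ≤ u := by exact_mod_cast hN2
  have h1 := hu (u : ℝ) (N : ℝ) le_rfl (by linarith) hN1
  rw [pic_nat] at h1
  refine le_trans ?_ h1
  have hNr : 0 < (N : ℝ) := lt_of_lt_of_le (Real.rpow_pos_of_pos hu0 _) hN1
  have hlogN : 0.1 * Real.log u ≤ Real.log N := by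
    have h2 : Real.log ((u : ℝ) ^ (1 - lam0 + e0 - δ)) ≤ Real.log N :=
      Real.log_le_log (Real.rpow_pos_of_pos hu0 _) hN1
    rw [Real.log_rpow hu0] at h2
    have h4 : 0.1 * Real.log u ≤ (1 - lam0 + e0 - δ) * Real.log u := by
      apply mul_le_mul_of_nonneg_right _ hlu.le
      linarith
    linarith
  have hlN : 0 < Real.log (N : ℝ) := by
    have : 0 < 0.1 * Real.log (u : ℝ) := by positivity
    linarith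
  rw [div_le_div_iff₀ hlN hlu]
  calc c / 10 * N * Real.log u = c * N * (0.1 * Real.log u) := by ring
    _ ≤ c * N * Real.log N := by gcongr

theorem tuples_long {lam0 e0 : ℝ} (hM : MAINP lam0 e0) (hl0 : 0.2 ≤ lam0) (hl1 : lam0 ≤ 0.9) (he0 : 0.01 ≤ e0)
    (he1 : e0 ≤ 1) (hθ : 0.1 ≤ 1 - lam0 + e0 - 0.01) :
    ∃ δ : ℝ, 0 < δ ∧ δ ≤ 0.01 ∧ ∀ k : ℕ, ∃ lam c : ℝ, 0 < lam ∧ 0 < c ∧ ∀ (m : ℕ) (ρ : ℝ), 0 < ρ → ∃ κ : ℝ, 0 < κ ∧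
    ∃ B : ℕ, ∀ C : ℝ, ∀ᶠ u : ℕ in atTop, ∀ N : ℕ, (u : ℝ) ^ (1 - lam0 + e0 - δ) ≤ N → N ≤ u →
      RichT k lam c κ ρ m B C u N := by
  obtain ⟨c1, δ, hc1, hδ, hδ1, hlong⟩ := long_primes hM hl0 hl1 he0 he1 hθ
  refine ⟨δ, hδ, hδ1, fun k => ?_⟩
  obtain ⟨lam, c, hlam, hc, hstr⟩ := tuples_rich k c1 hc1
  refine ⟨lam, c, hlam, hc, fun m ρ hρ => ?_⟩
  obtain ⟨κ, hκ, B, h⟩ := hstr m ρ hρ
  refine ⟨κ, hκ, B, fun C => ?_⟩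
  obtain ⟨N₀, hN₀⟩ := eventually_atTop.1 (h C)
  have tN : Tendsto (fun N : ℕ => (N : ℝ)) atTop atTop := tendsto_natCast_atTop_atTop
  have t1 : Tendsto (fun X : ℕ => (X : ℝ) ^ (0.1 : ℝ)) atTop atTop := (tendsto_rpow_atTop (by norm_num)).comp tN
  filter_upwards [hlong, t1.eventually_ge_atTop (N₀ : ℝ), eventually_ge_atTop 1] with u h1 h2 h3
  intro N hN1 hN2
  have hu1 : (1 : ℝ) ≤ u := by exact_mod_cast h3
  have hNN₀ : N₀ ≤ N := by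
    have h4 : (u : ℝ) ^ (0.1 : ℝ) ≤ (u : ℝ) ^ (1 - lam0 + e0 - δ) :=
      Real.rpow_le_rpow_of_exponent_le hu1 (by linarith)
    exact_mod_cast h2.trans (h4.trans hN1)
  exact hN₀ N hNN₀ u hN2 (h1 N hN1 hN2)

end Pool.Agent.U28.SF
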