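import Pool.Agent.U28.SF.SF20

set_option autoImplicit false

/-!
# Vectors of gaps in every long window
-/

namespace Pool.Agent.U28.SF

open Finset Filter Topology
open Pool.Agent.Q240.KS (MAINP pic)
open Pool.Agent.U766.OP (primesIn pic_nat)
open Pool.Agent.R527.LV (box)

theorem strings_long {lam0 e0 : ℝ} (hM : MAINP lam0 e0) (hl0 : 0.2 ≤ lam0) (hl1 : lam0 ≤ 0.9) (he0 : 0.01 ≤ e0)
    (he1 : e0 ≤ 1) (hθ : 0.1 ≤ 1 - lam0 + e0 - 0.01) :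
    ∃ δ : ℝ, 0 < δ ∧ δ ≤ 0.01 ∧ ∀ l : ℕ, ∃ K η : ℝ, 0 < K ∧ 0 < η ∧ ∀ (m : ℕ) (ρ : ℝ), 0 < ρ → ∃ κ : ℝ, 0 < κ ∧
    ∃ B : ℕ, ∀ᶠ u : ℕ in atTop, ∀ N : ℕ, (u : ℝ) ^ (1 - lam0 + e0 - δ) ≤ N → N ≤ u → RichW l K η κ ρ m B u N := by
  obtain ⟨c1, δ, hc1, hδ, hδ1, hlong⟩ := long_primes hM hl0 hl1 he0 he1 hθ
  refine ⟨δ, hδ, hδ1, fun l => ?_⟩
  obtain ⟨K, η, hK, hη, hstr⟩ := strings l c1 hc1
  refine ⟨K, η, hK, hη, fun m ρ hρ => ?_⟩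
  obtain ⟨κ, hκ, B, h⟩ := hstr m ρ hρ
  refine ⟨κ, hκ, B, ?_⟩
  obtain ⟨N₀, hN₀⟩ := eventually_atTop.1 h
  have tN : Tendsto (fun N : ℕ => (N : ℝ)) atTop atTop := tendsto_natCast_atTop_atTop
  have t1 : Tendsto (fun X : ℕ => (X : ℝ) ^ (0.1 : ℝ)) atTop atTop := (tendsto_rpow_atTop (by norm_num)).comp tN
  filter_upwards [hlong, t1.eventually_ge_atTop (N₀ : ℝ), eventually_ge_atTop 1] with u h1 h2 h3
  intro N hN1 hN2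
  have hu1 : (1 : ℝ) ≤ u := by exact_mod_cast h3
  have hNN₀ : N₀ ≤ N := by
    have h4 : (u : ℝ) ^ (0.1 : ℝ) ≤ (u : ℝ) ^ (1 - lam0 + e0 - δ) :=
      Real.rpow_le_rpow_of_exponent_le hu1 (by linarith)
    exact_mod_cast h2.trans (h4.trans hN1)
  exact hN₀ N hNN₀ u hN2 (h1 N hN1 hN2)

end Pool.Agent.U28.SF
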