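import Pool.Agent.U28.SF.SF20

set_option autoImplicit false

/-!
# Prime tuples in almost all the intervals of Oppermann's conjecture
-/

namespace Pool.Agent.U28.SF

open Finset Filter Topology
open Pool.Agent.Q240.KS (MAINP pic)
open Pool.Agent.U766.OP (primesIn pic_nat)

/-- a sequence of windows of length `M` -/
def Wnd (f : ℕ → ℕ) : Prop :=
  ∀ n : ℕ, 2 ≤ n → n ^ 2 - n ≤ f n ∧ f n ≤ n ^ 2 ∧ ∀ n' : ℕ, n < n' → f n + n ≤ f n'

lemma wnd_sq : Wnd (fun n => n ^ 2) := by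
  intro n hn
  refine ⟨Nat.sub_le _ _, le_rfl, fun n' hn' => ?_⟩
  show n ^ 2 + n ≤ n' ^ 2
  nlinarith

lemma wnd_sub : Wnd (fun n => n ^ 2 - n) := by
  intro n hn
  refine ⟨le_rfl, Nat.sub_le _ _, fun n' hn' => ?_⟩
  show n ^ 2 - n + n ≤ n' ^ 2 - n'
  have h1 : n ≤ n ^ 2 := by nlinarith
  rw [Nat.sub_add_cancel h1]
  have h2 : n' ≤ n' ^ 2 := by nlinarith
  zify [h2]
  have h3 : (n : ℤ) + 1 ≤ n' := by exact_mod_cast hn'
  have h4 : (2 : ℤ) ≤ n := by exact_mod_cast hn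
  nlinarith

lemma primesIn_mono {u N N' : ℕ} (h : N ≤ N') : ((primesIn u N).card : ℝ) ≤ ((primesIn u N').card : ℝ) := by
  have : primesIn u N ⊆ primesIn u N' := by
    intro p hp
    unfold primesIn at hp ⊢
    simp only [mem_filter, mem_Ioc] at hp ⊢
    exact ⟨⟨hp.1.1, hp.1.2.trans (by omega)⟩, hp.2⟩
  exact_mod_cast card_le_card this

theorem wnd_poor {e0 : ℝ} (hM : MAINP (1 / 2) e0) (he0 : 0.01 ≤ e0) (he : e0 ≤ 1) :
    ∃ c δ : ℝ, 0 < c ∧ 0 < δ ∧ δ ≤ 0.01 ∧ ∀ f : ℕ → ℕ, Wnd f → ∀ᶠ M : ℕ in atTop,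
    ((((Icc M (2 * M)).filter (fun n => ((primesIn (f n) n).card : ℝ) < c * n / Real.log n)).card : ℝ)) ≤
      12 * (M : ℝ) ^ (2 * e0 - 2 * δ) := by
  classical
  obtain ⟨c1, δ, hc1, hδ, hδ1, hpoor⟩ := poor_few hM (by norm_num) (by norm_num) he
  refine ⟨c1 / 2, δ, by positivity, hδ, hδ1, fun f hf => ?_⟩
  have tN : Tendsto (fun M : ℕ => (M : ℝ)) atTop atTop := tendsto_natCast_atTop_atTop
  have t1 : Tendsto (fun M : ℕ => (M : ℝ) ^ (2 * δ)) atTop atTop := (tendsto_rpow_atTop (by positivity)).comp tN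
  have t2 : Tendsto (fun M : ℕ => (M : ℝ) ^ (0.8 : ℝ)) atTop atTop := (tendsto_rpow_atTop (by norm_num)).comp tN
  obtain ⟨X₀, hX₀⟩ := eventually_atTop.1 hpoor
  filter_upwards [eventually_ge_atTop (X₀ + 4), t1.eventually_ge_atTop 2, t2.eventually_ge_atTop 2] with M hM1 hM2 hM3
  have hM0 : (0 : ℝ) < M := by exact_mod_cast (by omega : 0 < M)
  have hM11 : (1 : ℝ) ≤ M := by exact_mod_cast (by omega : 1 ≤ M)
  have hMr : (4 : ℝ) ≤ M := by exact_mod_cast (by omega : 4 ≤ M)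
  have hlM : 0 < Real.log (M : ℝ) := Real.log_pos (by linarith)
  -- one dyadic range
  have one : ∀ X : ℕ, M ^ 2 - M ≤ X → X ≤ 4 * M ^ 2 →
      ((((Icc M (2 * M)).filter (fun n => (((primesIn (f n) n).card : ℝ) < c1 / 2 * n / Real.log n) ∧
        X ≤ f n ∧ f n ≤ 2 * X)).card : ℝ)) ≤ 4 * (M : ℝ) ^ (2 * e0 - 2 * δ) := by
    intro X hX1 hX2
    have hsq : M ≤ M ^ 2 := by nlinarith
    have hXr1 : (M : ℝ) ^ 2 / 2 ≤ X := by
      have h1 : ((M ^ 2 - M : ℕ) : ℝ) ≤ X := by exact_mod_cast hX1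
      rw [Nat.cast_sub hsq, Nat.cast_pow] at h1
      nlinarith
    have hXr2 : (X : ℝ) ≤ 4 * (M : ℝ) ^ 2 := by exact_mod_cast hX2
    have hX0 : (0 : ℝ) < X := lt_of_lt_of_le (by positivity) hXr1
    have hXX₀ : X₀ ≤ X := by
      have h1 : M ≤ M ^ 2 - M := by
        have : 2 * M ≤ M ^ 2 := by nlinarith
        omega
      omega
    have e1 : (X : ℝ) ^ (1 - 1 / 2 - δ) ≤ M := by
      calc (X : ℝ) ^ (1 - 1 / 2 - δ) ≤ (4 * (M : ℝ) ^ 2) ^ (1 - 1 / 2 - δ) :=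
            Real.rpow_le_rpow hX0.le hXr2 (by linarith)
        _ = (4 : ℝ) ^ (1 / 2 - δ) * (M : ℝ) ^ (1 - 2 * δ) := by
            rw [Real.mul_rpow (by norm_num) (by positivity), ← Real.rpow_natCast, ← Real.rpow_mul hM0.le]
            congr 1
            · congr 1
              ring
            · congr 1
              push_cast
              ring
        _ ≤ 2 * (M : ℝ) ^ (1 - 2 * δ) := by
            apply mul_le_mul_of_nonneg_right _ (by positivity)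
            calc (4 : ℝ) ^ (1 / 2 - δ) ≤ (4 : ℝ) ^ (1 / 2 : ℝ) :=
                  Real.rpow_le_rpow_of_exponent_le (by norm_num) (by linarith)
              _ = 2 := by
                  rw [show (4 : ℝ) = (2 : ℝ) ^ (2 : ℝ) by norm_num, ← Real.rpow_mul (by norm_num)]
                  norm_num
        _ ≤ (M : ℝ) ^ (2 * δ) * (M : ℝ) ^ (1 - 2 * δ) := by gcongr
        _ = M := by
            rw [← Real.rpow_add hM0]
            rw [show 2 * δ + (1 - 2 * δ) = 1 by ring, Real.rpow_one]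
    have e2 : (M : ℝ) ≤ (X : ℝ) ^ (0.9 : ℝ) := by
      calc (M : ℝ) = (M : ℝ) ^ (1 : ℝ) := (Real.rpow_one _).symm
        _ ≤ ((M : ℝ) ^ (1.2 : ℝ)) ^ (0.9 : ℝ) := by
            rw [← Real.rpow_mul hM0.le]
            exact Real.rpow_le_rpow_of_exponent_le hM11 (by norm_num)
        _ ≤ (X : ℝ) ^ (0.9 : ℝ) := by
            apply Real.rpow_le_rpow (by positivity) _ (by norm_num)
            refine le_trans ?_ hXr1
            rw [le_div_iff₀ (by norm_num)]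
            calc (M : ℝ) ^ (1.2 : ℝ) * 2 ≤ (M : ℝ) ^ (1.2 : ℝ) * (M : ℝ) ^ (0.8 : ℝ) := by gcongr
              _ = (M : ℝ) ^ (2 : ℝ) := by
                  rw [← Real.rpow_add hM0]
                  norm_num
              _ = (M : ℝ) ^ 2 := by exact_mod_cast Real.rpow_natCast (M : ℝ) 2
    obtain ⟨S, hS⟩ : ∃ S, S = (Icc M (2 * M)).filter (fun n => (((primesIn (f n) n).card : ℝ) < c1 / 2 * n / Real.log n) ∧
        X ≤ f n ∧ f n ≤ 2 * X) := ⟨_, rfl⟩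
    rw [← hS]
    have hmem : ∀ n ∈ S, M ≤ n ∧ n ≤ 2 * M ∧ ((primesIn (f n) n).card : ℝ) < c1 / 2 * n / Real.log n ∧
        X ≤ f n ∧ f n ≤ 2 * X := by
      intro n hn
      rw [hS, mem_filter, mem_Icc] at hn
      exact ⟨hn.1.1, hn.1.2, hn.2⟩
    have hinc : ∀ n ∈ S, ∀ n' ∈ S, n < n' → f n + M ≤ f n' := by
      intro n hn n' _ hlt
      have := (hf n (by have := (hmem n hn).1; omega)).2.2 n' hlt
      have := (hmem n hn).1
      omega
    have hinj : Set.InjOn f S := by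
      intro n hn n' hn' he
      rcases lt_trichotomy n n' with h | h | h
      · have := hinc n hn n' hn' h
        omega
      · exact h
      · have := hinc n' hn' n hn h
        omega
    have key := hX₀ X hXX₀ M e1 e2 (S.image f) (by
      intro u hu
      rw [mem_image] at hu
      obtain ⟨n, hn, rfl⟩ := hu
      obtain ⟨b1, b2, b3, b4, b5⟩ := hmem n hn
      refine ⟨b4, b5, ?_⟩
      have b1r : (M : ℝ) ≤ n := by exact_mod_cast b1
      have b2r : (n : ℝ) ≤ 2 * M := by exact_mod_cast b2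
      refine lt_of_le_of_lt (primesIn_mono b1) (lt_of_lt_of_le b3 ?_)
      calc c1 / 2 * n / Real.log n ≤ c1 / 2 * (2 * M) / Real.log M := by
            have := Real.log_le_log hM0 b1r
            gcongr
        _ = c1 * M / Real.log M := by ring) (by
      intro u hu u' hu' hlt
      rw [mem_image] at hu hu'
      obtain ⟨n, hn, rfl⟩ := hu
      obtain ⟨n', hn', rfl⟩ := hu'
      rcases lt_trichotomy n n' with h | h | h
      · exact hinc n hn n' hn' h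
      · subst h
        omega
      · have := hinc n' hn' n hn h
        omega)
    rw [card_image_of_injOn hinj] at key
    refine key.trans ?_
    calc (X : ℝ) ^ (e0 - δ) ≤ (4 * (M : ℝ) ^ 2) ^ (e0 - δ) := Real.rpow_le_rpow hX0.le hXr2 (by linarith)
      _ = (4 : ℝ) ^ (e0 - δ) * (M : ℝ) ^ (2 * e0 - 2 * δ) := by
          rw [Real.mul_rpow (by norm_num) (by positivity), ← Real.rpow_natCast, ← Real.rpow_mul hM0.le]
          congr 1
          congr 1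
          push_cast
          ring
      _ ≤ 4 * (M : ℝ) ^ (2 * e0 - 2 * δ) := by
          apply mul_le_mul_of_nonneg_right _ (by positivity)
          calc (4 : ℝ) ^ (e0 - δ) ≤ (4 : ℝ) ^ (1 : ℝ) := Real.rpow_le_rpow_of_exponent_le (by norm_num) (by linarith)
            _ = 4 := Real.rpow_one _
  obtain ⟨X, hX⟩ : ∃ X, X = M ^ 2 - M := ⟨_, rfl⟩
  have hX4 : 4 * X ≤ 4 * M ^ 2 := by omega
  have hX8 : 4 * M ^ 2 ≤ 8 * X := by
    have h1 : M ≤ M ^ 2 := by nlinarith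
    rw [hX]
    zify [h1]
    have h2 : (4 : ℤ) ≤ M := by exact_mod_cast (by omega : 4 ≤ M)
    nlinarith
  have hsub : (Icc M (2 * M)).filter (fun n => ((primesIn (f n) n).card : ℝ) < c1 / 2 * n / Real.log n) ⊆
      ((Icc M (2 * M)).filter (fun n => (((primesIn (f n) n).card : ℝ) < c1 / 2 * n / Real.log n) ∧
        X ≤ f n ∧ f n ≤ 2 * X)) ∪
      (((Icc M (2 * M)).filter (fun n => (((primesIn (f n) n).card : ℝ) < c1 / 2 * n / Real.log n) ∧
        2 * X ≤ f n ∧ f n ≤ 2 * (2 * X))) ∪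
      ((Icc M (2 * M)).filter (fun n => (((primesIn (f n) n).card : ℝ) < c1 / 2 * n / Real.log n) ∧
        4 * X ≤ f n ∧ f n ≤ 2 * (4 * X)))) := by
    intro n hn
    rw [mem_filter, mem_Icc] at hn
    obtain ⟨⟨a1, a2⟩, a3⟩ := hn
    obtain ⟨b1, b2, -⟩ := hf n (by omega)
    have c1' : X ≤ f n := by
      refine le_trans ?_ b1
      have h1 : M ≤ M ^ 2 := by nlinarith
      have h2 : n ≤ n ^ 2 := by nlinarith
      rw [hX]
      zify [h1, h2]
      have h3 : (M : ℤ) ≤ n := by exact_mod_cast a1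
      have h4 : (4 : ℤ) ≤ M := by exact_mod_cast (by omega : 4 ≤ M)
      nlinarith
    have c2 : f n ≤ 8 * X := by
      refine b2.trans (le_trans ?_ hX8)
      nlinarith
    rw [mem_union, mem_union, mem_filter, mem_filter, mem_filter, mem_Icc]
    rcases le_total (f n) (2 * X) with h | h
    · exact Or.inl ⟨⟨a1, a2⟩, a3, c1', h⟩
    rcases le_total (f n) (4 * X) with h' | h'
    · exact Or.inr (Or.inl ⟨⟨a1, a2⟩, a3, h, by omega⟩)
    · exact Or.inr (Or.inr ⟨⟨a1, a2⟩, a3, h', by omega⟩)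
  have h1 := one X (by omega) (by omega)
  have h2 := one (2 * X) (by omega) (by omega)
  have h3 := one (4 * X) (by omega) (by omega)
  have hc := (card_le_card hsub).trans ((card_union_le _ _).trans (Nat.add_le_add_left (card_union_le _ _) _))
  have hcr := (Nat.cast_le (α := ℝ)).2 hc
  push_cast at hcr
  linarith

/-- With few exceptions both the intervals `(n ^ 2 - n, n ^ 2]` and `(n ^ 2, n ^ 2 + n]` are rich in prime tuples. -/
theorem oppermann {e0 : ℝ} (hM : MAINP (1 / 2) e0) (he0 : 0.01 ≤ e0) (he : e0 ≤ 1) :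
    ∃ δ : ℝ, 0 < δ ∧ ∀ k : ℕ, ∃ lam c : ℝ, 0 < lam ∧ 0 < c ∧ ∀ (m : ℕ) (ρ : ℝ), 0 < ρ → ∃ κ : ℝ, 0 < κ ∧ ∃ B : ℕ,
    ∀ C : ℝ, ∀ᶠ M : ℕ in atTop, ∀ P : Finset ℕ, (∀ n ∈ P, M ≤ n ∧ n ≤ 2 * M ∧
      ¬ (RichT k lam c κ ρ m B C (n ^ 2 - n) n ∧ RichT k lam c κ ρ m B C (n ^ 2) n)) →
      (P.card : ℝ) ≤ (M : ℝ) ^ (2 * e0 - δ) := by
  classical
  obtain ⟨c1, δ, hc1, hδ, hδ1, hpoor⟩ := wnd_poor hM he0 he
  refine ⟨δ, hδ, fun k => ?_⟩
  obtain ⟨lam, c, hlam, hc, hstr⟩ := tuples_rich k c1 hc1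
  refine ⟨lam, c, hlam, hc, fun m ρ hρ => ?_⟩
  obtain ⟨κ, hκ, B, h⟩ := hstr m ρ hρ
  refine ⟨κ, hκ, B, fun C => ?_⟩
  obtain ⟨N₀, hN₀⟩ := eventually_atTop.1 (h C)
  have tN : Tendsto (fun M : ℕ => (M : ℝ)) atTop atTop := tendsto_natCast_atTop_atTop
  have t1 : Tendsto (fun M : ℕ => (M : ℝ) ^ δ) atTop atTop := (tendsto_rpow_atTop hδ).comp tN
  filter_upwards [hpoor _ wnd_sq, hpoor _ wnd_sub, eventually_ge_atTop (N₀ + 4), t1.eventually_ge_atTop 24] with M h1 h2 h3 h4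
  intro P hP
  have hM0 : (0 : ℝ) < M := by exact_mod_cast (by omega : 0 < M)
  have hsub : P ⊆ ((Icc M (2 * M)).filter (fun n => ((primesIn (n ^ 2) n).card : ℝ) < c1 * n / Real.log n)) ∪
      ((Icc M (2 * M)).filter (fun n => ((primesIn (n ^ 2 - n) n).card : ℝ) < c1 * n / Real.log n)) := by
    intro n hn
    obtain ⟨a1, a2, a3⟩ := hP n hn
    rw [mem_union, mem_filter, mem_filter, mem_Icc]
    by_contra hcon
    rw [not_or, not_and, not_and, not_lt, not_lt] at hcon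
    apply a3
    refine ⟨hN₀ n (by omega) _ ?_ (hcon.2 ⟨a1, a2⟩), hN₀ n (by omega) _ ?_ (hcon.1 ⟨a1, a2⟩)⟩
    · have : 2 * n ≤ n ^ 2 := by nlinarith
      omega
    · nlinarith
  have hcr : (P.card : ℝ) ≤
      ((((Icc M (2 * M)).filter (fun n => ((primesIn (n ^ 2) n).card : ℝ) < c1 * n / Real.log n)).card : ℝ)) +
      ((((Icc M (2 * M)).filter (fun n => ((primesIn (n ^ 2 - n) n).card : ℝ) < c1 * n / Real.log n)).card : ℝ)) := by
    exact_mod_cast (card_le_card hsub).trans (card_union_le _ _)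
  calc (P.card : ℝ) ≤ 12 * (M : ℝ) ^ (2 * e0 - 2 * δ) + 12 * (M : ℝ) ^ (2 * e0 - 2 * δ) := hcr.trans (add_le_add h1 h2)
    _ = 24 * (M : ℝ) ^ (2 * e0 - 2 * δ) := by ring
    _ ≤ (M : ℝ) ^ δ * (M : ℝ) ^ (2 * e0 - 2 * δ) := by gcongr
    _ = (M : ℝ) ^ (2 * e0 - δ) := by
        rw [← Real.rpow_add hM0]
        congr 1
        ring

/-- With few exceptions the interval between `(2 n - 1) ^ 2` and `(2 n + 1) ^ 2` is rich in prime tuples. -/
theorem odd_squares {e0 : ℝ} (hM : MAINP (1 / 2) e0) (he0 : 0.01 ≤ e0) (he : e0 ≤ 1) :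
    ∃ δ : ℝ, 0 < δ ∧ ∀ k : ℕ, ∃ lam c : ℝ, 0 < lam ∧ 0 < c ∧ ∀ (m : ℕ) (ρ : ℝ), 0 < ρ → ∃ κ : ℝ, 0 < κ ∧ ∃ B : ℕ,
    ∀ C : ℝ, ∀ᶠ M : ℕ in atTop, ∀ P : Finset ℕ, (∀ n ∈ P, M ≤ n ∧ n ≤ 2 * M ∧
      ¬ RichT k lam c κ ρ m B C ((2 * n - 1) ^ 2) (8 * n - 1)) →
      (P.card : ℝ) ≤ (M : ℝ) ^ (2 * e0 - δ) := by
  classical
  obtain ⟨c1, δ, hc1, hδ, hδ1, hpoor⟩ := wnd_poor hM he0 he
  refine ⟨δ, hδ, fun k => ?_⟩
  obtain ⟨lam, c, hlam, hc, hstr⟩ := tuples_rich k (c1 / 8) (by positivity)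
  refine ⟨lam, c, hlam, hc, fun m ρ hρ => ?_⟩
  obtain ⟨κ, hκ, B, h⟩ := hstr m ρ hρ
  refine ⟨κ, hκ, B, fun C => ?_⟩
  obtain ⟨N₀, hN₀⟩ := eventually_atTop.1 (h C)
  obtain ⟨M₁, hM₁⟩ := eventually_atTop.1 (hpoor _ wnd_sq)
  have tN : Tendsto (fun M : ℕ => (M : ℝ)) atTop atTop := tendsto_natCast_atTop_atTop
  have t1 : Tendsto (fun M : ℕ => (M : ℝ) ^ δ) atTop atTop := (tendsto_rpow_atTop hδ).comp tN
  filter_upwards [eventually_ge_atTop (N₀ + M₁ + 8), t1.eventually_ge_atTop 384] with M h3 h4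
  intro P hP
  have hM0 : (0 : ℝ) < M := by exact_mod_cast (by omega : 0 < M)
  have h1 := hM₁ (2 * M - 1) (by omega)
  have h2 := hM₁ (2 * (2 * M - 1)) (by omega)
  obtain ⟨F, hF⟩ : ∃ F : ℕ → Finset ℕ, F = fun L => (Icc L (2 * L)).filter
      (fun n => ((primesIn (n ^ 2) n).card : ℝ) < c1 * n / Real.log n) := ⟨_, rfl⟩
  have hinj : Set.InjOn (fun n : ℕ => 2 * n - 1) P := by
    intro n hn n' hn' he
    have a1 := (hP n hn).1
    have a2 := (hP n' hn').1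
    have : 2 * n - 1 = 2 * n' - 1 := he
    omega
  have hsub : P.image (fun n : ℕ => 2 * n - 1) ⊆ F (2 * M - 1) ∪ F (2 * (2 * M - 1)) := by
    intro x hx
    rw [mem_image] at hx
    obtain ⟨n, hn, rfl⟩ := hx
    obtain ⟨a1, a2, a3⟩ := hP n hn
    obtain ⟨x, hx⟩ : ∃ x, x = 2 * n - 1 := ⟨_, rfl⟩
    have hxM : M ≤ x := by omega
    have hx0 : (0 : ℝ) < x := by exact_mod_cast (by omega : 0 < x)
    have hlx : 0 < Real.log (x : ℝ) := Real.log_pos (by exact_mod_cast (by omega : 1 < x))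
    have hbad : ((primesIn (x ^ 2) x).card : ℝ) < c1 * x / Real.log x := by
      by_contra hcon
      rw [not_lt] at hcon
      apply a3
      refine hN₀ (8 * n - 1) (by omega) _ ?_ ?_
      · rw [← hx]
        have : 8 * n - 1 ≤ 4 * x + 3 := by omega
        refine this.trans ?_
        nlinarith
      · rw [← hx]
        refine le_trans ?_ (hcon.trans (primesIn_mono (by omega : x ≤ 8 * n - 1)))
        have b1 : (((8 * n - 1 : ℕ)) : ℝ) ≤ 8 * x := by exact_mod_cast (by omega : 8 * n - 1 ≤ 8 * x)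
        have b2 : (x : ℝ) ≤ (((8 * n - 1 : ℕ)) : ℝ) := by exact_mod_cast (by omega : x ≤ 8 * n - 1)
        calc c1 / 8 * (((8 * n - 1 : ℕ)) : ℝ) / Real.log (((8 * n - 1 : ℕ)) : ℝ) ≤ c1 / 8 * (8 * x) / Real.log x := by
              have := Real.log_le_log hx0 b2
              gcongr
          _ = c1 * x / Real.log x := by ring
    rw [mem_union, hF]
    show (2 * n - 1) ∈ _ ∨ (2 * n - 1) ∈ _
    rw [← hx]
    simp only [mem_filter, mem_Icc]
    rcases le_total x (2 * (2 * M - 1)) with h | h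
    · exact Or.inl ⟨⟨by omega, h⟩, hbad⟩
    · exact Or.inr ⟨⟨h, by omega⟩, hbad⟩
  have hcard : P.card ≤ (F (2 * M - 1)).card + (F (2 * (2 * M - 1))).card := by
    rw [← card_image_of_injOn hinj]
    exact (card_le_card hsub).trans (card_union_le _ _)
  have hcr : (P.card : ℝ) ≤ ((F (2 * M - 1)).card : ℝ) + ((F (2 * (2 * M - 1))).card : ℝ) := by exact_mod_cast hcard
  have g1 : ((F (2 * M - 1)).card : ℝ) ≤ 12 * ((2 * M - 1 : ℕ) : ℝ) ^ (2 * e0 - 2 * δ) := by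
    rw [hF]
    exact h1
  have g2 : ((F (2 * (2 * M - 1))).card : ℝ) ≤ 12 * ((2 * (2 * M - 1) : ℕ) : ℝ) ^ (2 * e0 - 2 * δ) := by
    rw [hF]
    exact h2
  have g3 : ∀ y : ℕ, y ≤ 4 * M → (y : ℝ) ^ (2 * e0 - 2 * δ) ≤ 16 * (M : ℝ) ^ (2 * e0 - 2 * δ) := by
    intro y hy
    have hyr : (y : ℝ) ≤ 4 * M := by exact_mod_cast hy
    calc (y : ℝ) ^ (2 * e0 - 2 * δ) ≤ (4 * (M : ℝ)) ^ (2 * e0 - 2 * δ) :=
          Real.rpow_le_rpow (Nat.cast_nonneg _) hyr (by linarith)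
      _ = (4 : ℝ) ^ (2 * e0 - 2 * δ) * (M : ℝ) ^ (2 * e0 - 2 * δ) := Real.mul_rpow (by norm_num) hM0.le
      _ ≤ 16 * (M : ℝ) ^ (2 * e0 - 2 * δ) := by
          apply mul_le_mul_of_nonneg_right _ (by positivity)
          calc (4 : ℝ) ^ (2 * e0 - 2 * δ) ≤ (4 : ℝ) ^ (2 : ℝ) := Real.rpow_le_rpow_of_exponent_le (by norm_num) (by linarith)
            _ = 16 := by norm_num
  calc (P.card : ℝ) ≤ 12 * (16 * (M : ℝ) ^ (2 * e0 - 2 * δ)) + 12 * (16 * (M : ℝ) ^ (2 * e0 - 2 * δ)) :=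
        hcr.trans (add_le_add (g1.trans (mul_le_mul_of_nonneg_left (g3 _ (by omega)) (by norm_num)))
          (g2.trans (mul_le_mul_of_nonneg_left (g3 _ (by omega)) (by norm_num))))
    _ = 384 * (M : ℝ) ^ (2 * e0 - 2 * δ) := by ring
    _ ≤ (M : ℝ) ^ δ * (M : ℝ) ^ (2 * e0 - 2 * δ) := by gcongr
    _ = (M : ℝ) ^ (2 * e0 - δ) := by
        rw [← Real.rpow_add hM0]
        congr 1
        ring

end Pool.Agent.U28.SF
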