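import Pool.Agent.U28.SF.SF21

set_option autoImplicit false

/-!
# Both bounds for the primes in all the intervals to the right of many points of a window
-/

namespace Pool.Agent.U28.SF

open Finset Filter Topology
open Pool.Agent.Q240.KS (MAINP pic)
open Pool.Agent.U766.OP (Pos primesIn pic_nat)
open Pool.Agent.R527.LV (box)
open Pool.Agent.H387R2
open Pool.Agent.U28.PG (FirstAP)

/-- a maximal inequality -/
theorem max_few (A B : Finset ℕ) {t : ℝ} (ht : 0 < t)
    (hB : ∀ y ∈ B, ∃ H : ℕ, 1 ≤ H ∧ t * H ≤ (((Ioc y (y + H)) ∩ A).card : ℝ)) : t * B.card ≤ A.card := by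
  have key : ∀ n s : ℕ, (B.filter (fun y => s ≤ y)).card ≤ n →
      t * ((B.filter (fun y => s ≤ y)).card : ℝ) ≤ ((A.filter (fun a => s < a)).card : ℝ) := by
    intro n
    induction n with
    | zero =>
      intro s hs
      rw [Nat.le_zero.1 hs, Nat.cast_zero, mul_zero]
      exact Nat.cast_nonneg _
    | succ n ih =>
      intro s hs
      rcases (B.filter (fun y => s ≤ y)).eq_empty_or_nonempty with h0 | h0
      · rw [h0, card_empty, Nat.cast_zero, mul_zero]
        exact Nat.cast_nonneg _
      · obtain ⟨y, hy⟩ : ∃ y, y = (B.filter (fun y => s ≤ y)).min' h0 := ⟨_, rfl⟩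
        have hymem : y ∈ B.filter (fun y => s ≤ y) := by
          rw [hy]
          exact min'_mem _ h0
        have hyB := hymem
        rw [mem_filter] at hyB
        obtain ⟨H, hH, hHA⟩ := hB y hyB.1
        have hsub : B.filter (fun z => s ≤ z) ⊆ Ico y (y + H) ∪ B.filter (fun z => y + H ≤ z) := by
          intro z hz
          have hz1 : y ≤ z := by
            rw [hy]
            exact min'_le _ _ hz
          rw [mem_filter] at hz
          rw [mem_union, mem_Ico, mem_filter]
          rcases lt_or_ge z (y + H) with h | h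
          · exact Or.inl ⟨hz1, h⟩
          · exact Or.inr ⟨hz.1, h⟩
        have hlt : (B.filter (fun z => y + H ≤ z)).card ≤ n := by
          have h1 : (B.filter (fun z => y + H ≤ z)) ⊆ (B.filter (fun z => s ≤ z)).erase y := by
            intro z hz
            rw [mem_filter] at hz
            rw [mem_erase, mem_filter]
            exact ⟨by omega, hz.1, by omega⟩
          have h2 := card_le_card h1
          rw [card_erase_of_mem hymem] at h2
          omega
        have h1 := ih (y + H) hlt
        have h2 : ((B.filter (fun z => s ≤ z)).card : ℝ) ≤ H + ((B.filter (fun z => y + H ≤ z)).card : ℝ) := by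
          have h3 := (card_le_card hsub).trans (card_union_le _ _)
          rw [Nat.card_Ico] at h3
          have h4 : (B.filter (fun z => s ≤ z)).card ≤ H + (B.filter (fun z => y + H ≤ z)).card := by omega
          exact_mod_cast h4
        have h3 : (((Ioc y (y + H)) ∩ A).card : ℝ) + ((A.filter (fun a => y + H < a)).card : ℝ) ≤
            ((A.filter (fun a => s < a)).card : ℝ) := by
          have hd : Disjoint ((Ioc y (y + H)) ∩ A) (A.filter (fun a => y + H < a)) := by
            rw [disjoint_left]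
            intro a ha hb
            rw [mem_inter, mem_Ioc] at ha
            rw [mem_filter] at hb
            omega
          have hs2 : ((Ioc y (y + H)) ∩ A) ∪ (A.filter (fun a => y + H < a)) ⊆ A.filter (fun a => s < a) := by
            intro a ha
            rw [mem_union, mem_inter, mem_Ioc, mem_filter] at ha
            rw [mem_filter]
            rcases ha with h | h
            · exact ⟨h.2, by omega⟩
            · exact ⟨h.1, by omega⟩
          have h4 := card_le_card hs2
          rw [card_union_of_disjoint hd] at h4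
          exact_mod_cast h4
        have h5 := mul_le_mul_of_nonneg_left h2 ht.le
        rw [mul_add] at h5
        linarith
  have h1 := key (B.filter (fun y => 0 ≤ y)).card 0 le_rfl
  have h2 : B.filter (fun y => 0 ≤ y) = B := filter_true_of_mem (fun y _ => Nat.zero_le y)
  rw [h2] at h1
  refine h1.trans ?_
  exact_mod_cast card_filter_le A _

open Classical in
/-- Every set of primes of the window of relative density at least `ρ` has right order to the right of at least `κ N`
points, at which the upper bound holds as well. -/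
def TwoS (κ K ρ : ℝ) (m B u N : ℕ) : Prop :=
  ∀ U ⊆ primesIn u N, ρ * (primesIn u N).card ≤ U.card →
    κ * N ≤ (((Icc u (u + N)).filter (fun y : ℕ => ∀ h : ℕ, K * Real.log y ≤ h → h ≤ N →
      κ * (h / Real.log y) ≤ (((Ioc y (y + h)).filter (FirstAP m (Real.log y ^ B) U)).card : ℝ) ∧
      ((primesIn y h).card : ℝ) ≤ K * (h / Real.log y))).card : ℝ)

lemma pos_zero (g : Fin 0 → ℕ) (u N : ℕ) : Pos g u N = primesIn u N := by
  classical
  ext q
  simp only [Pos, primesIn, mem_filter]
  constructor
  · rintro ⟨h1, n, rfl, -, -⟩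
    exact ⟨h1, Nat.prime_nth_prime n⟩
  · rintro ⟨h1, h2⟩
    refine ⟨h1, Nat.count Nat.Prime q, Pool.Agent.U766.OP.pr_count h2, ?_, fun i => Fin.elim0 i⟩
    rw [Nat.add_zero, Pool.Agent.U766.OP.pr_count h2]
    exact (mem_Ioc.1 h1).2

theorem two_windows (c1 : ℝ) (hc1 : 0 < c1) (m : ℕ) (ρ : ℝ) (hρ : 0 < ρ) : ∃ κ K : ℝ, 0 < κ ∧ 0 < K ∧ ∃ B : ℕ,
    ∀ᶠ N : ℕ in atTop, ∀ u : ℕ, N ≤ u → (u : ℝ) ^ (0.1 : ℝ) ≤ N →
      c1 * N / Real.log N ≤ ((primesIn u N).card : ℝ) → TwoS κ K ρ m B u N := by
  classical
  obtain ⟨K', η, hK', hη, h⟩ := strings 0 c1 hc1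
  obtain ⟨κ1, hκ1, B, h⟩ := h m ρ hρ
  obtain ⟨C, hC, X₀, hup⟩ := QW_up 1
  obtain ⟨C0, hC0⟩ : ∃ C0, C0 = C * Uni.CT {0} := ⟨_, rfl⟩
  have hC00 : 0 ≤ C0 := by
    rw [hC0]
    exact mul_nonneg hC.le (Uni.CT_nonneg _)
  obtain ⟨K0, hK0⟩ : ∃ K0, K0 = 4 * (C0 + 1) / κ1 := ⟨_, rfl⟩
  have hK0p : 0 < K0 := by
    rw [hK0]
    positivity
  obtain ⟨K, hK⟩ : ∃ K, K = max (11 * K0) (1 / κ1) := ⟨_, rfl⟩
  have hKp : 0 < K := by
    rw [hK]
    exact lt_max_of_lt_left (by positivity)
  have hK1 : 11 * K0 ≤ K := by
    rw [hK]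
    exact le_max_left _ _
  have hK2 : 1 / κ1 ≤ K := by
    rw [hK]
    exact le_max_right _ _
  refine ⟨κ1 / 2, K, by positivity, hKp, B, ?_⟩
  have tN : Tendsto (fun N : ℕ => (N : ℝ)) atTop atTop := tendsto_natCast_atTop_atTop
  have tL : Tendsto (fun N : ℕ => Real.log (N : ℝ)) atTop atTop := Real.tendsto_log_atTop.comp tN
  filter_upwards [h, eventually_ge_atTop (X₀ + 3), tL.eventually_ge_atTop 1] with N hN hN0 hlN
  intro u hu hu01 hprimes U hU hUc
  have hNr : (0 : ℝ) < N := by exact_mod_cast (by omega : 0 < N)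
  have hlN0 : 0 < Real.log (N : ℝ) := by linarith
  have hu0 : (0 : ℝ) < u := by exact_mod_cast (by omega : 0 < u)
  have hlu : Real.log (u : ℝ) ≤ 10 * Real.log N := by
    have h1 := Real.log_le_log (Real.rpow_pos_of_pos hu0 _) hu01
    rw [Real.log_rpow hu0] at h1
    linarith
  -- the good points for the lower bound
  have hgood := hN u hu hprimes
  rw [pow_zero, mul_one] at hgood
  have hne : (((box 0 ⌊K' * Real.log N⌋₊).filter (GoodV κ1 ρ m (Real.log N ^ B) u N))).Nonempty := by
    rw [← card_pos]
    have : (0 : ℝ) < (((box 0 ⌊K' * Real.log N⌋₊).filter (GoodV κ1 ρ m (Real.log N ^ B) u N)).card : ℝ) := by linarith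
    exact_mod_cast this
  obtain ⟨g, hg⟩ := hne
  rw [mem_filter] at hg
  obtain ⟨-, -, hg⟩ := hg
  rw [pos_zero] at hg
  have hEv := hg U hU hUc
  unfold EvW at hEv
  rw [zero_add, pow_one] at hEv
  obtain ⟨G, hG⟩ : ∃ G, G = (Icc u (u + N)).filter (fun y => ∀ H : ℕ, Real.log N ≤ κ1 * H → H ≤ N →
    κ1 * (H / Real.log N) ≤ (((Ioc y (y + H)).filter (FirstAP m (Real.log N ^ B) U)).card : ℝ)) := ⟨_, rfl⟩
  have hGc : κ1 * N ≤ (G.card : ℝ) := by
    rw [hG]
    refine le_trans hEv (le_of_eq ?_)
    congr 2
  -- the bad points for the upper bound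
  obtain ⟨A, hA⟩ : ∃ A, A = primesIn u N ∪ primesIn (u + N) N := ⟨_, rfl⟩
  have hone : ∀ v : ℕ, N ≤ v + 1 → ((primesIn v N).card : ℝ) ≤ C0 * (N / Real.log N) := by
    intro v hv
    have h1 := hup N v (by omega) hv {0} (card_singleton _)
    rw [pow_one] at h1
    have h2 : QW v N {0} = primesIn v N := by
      unfold QW primesIn
      apply filter_congr
      intro n _
      simp
    rw [h2] at h1
    rw [hC0]
    linarith
  have hAc : (A.card : ℝ) ≤ 2 * C0 * (N / Real.log N) := by
    have h1 : (A.card : ℝ) ≤ (primesIn u N).card + (primesIn (u + N) N).card := by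
      rw [hA]
      exact_mod_cast card_union_le _ _
    have h2 := hone u (by omega)
    have h3 := hone (u + N) (by omega)
    linarith
  obtain ⟨t, ht⟩ : ∃ t, t = K0 / Real.log N := ⟨_, rfl⟩
  have ht0 : 0 < t := by
    rw [ht]
    positivity
  obtain ⟨D, hD⟩ : ∃ D, D = (Icc u (u + N)).filter (fun y => ∃ H : ℕ, 1 ≤ H ∧
    t * H ≤ (((Ioc y (y + H)) ∩ A).card : ℝ)) := ⟨_, rfl⟩
  have hDc : (D.card : ℝ) ≤ κ1 / 2 * N := by
    have h1 := max_few A D ht0 (by
      intro y hy
      rw [hD, mem_filter] at hy
      exact hy.2)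
    have h2 : K0 * D.card ≤ 2 * C0 * N := by
      have h3 := h1.trans hAc
      rw [ht] at h3
      have h4 := mul_le_mul_of_nonneg_right h3 hlN0.le
      have e1 : K0 / Real.log N * D.card * Real.log N = K0 * D.card := by
        field_simp
      have e2 : 2 * C0 * (N / Real.log N) * Real.log N = 2 * C0 * N := by
        field_simp
      rw [e1, e2] at h4
      exact h4
    have h3 : K0 * D.card ≤ K0 * (κ1 / 2 * N) := by
      refine h2.trans ?_
      rw [hK0]
      have e : 4 * (C0 + 1) / κ1 * (κ1 / 2 * N) = 2 * (C0 + 1) * N := by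
        field_simp
        ring
      rw [e]
      nlinarith
    exact le_of_mul_le_mul_left h3 hK0p
  have hsub : G ⊆ ((Icc u (u + N)).filter (fun y : ℕ => ∀ h : ℕ, K * Real.log y ≤ h → h ≤ N →
      κ1 / 2 * (h / Real.log y) ≤ (((Ioc y (y + h)).filter (FirstAP m (Real.log y ^ B) U)).card : ℝ) ∧
      ((primesIn y h).card : ℝ) ≤ K * (h / Real.log y))) ∪ D := by
    intro y hy
    rw [hG, mem_filter] at hy
    obtain ⟨hy1, hy2⟩ := hy
    rw [mem_union]
    by_cases hyD : y ∈ D
    · exact Or.inr hyD
    left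
    rw [mem_filter]
    refine ⟨hy1, fun h hh1 hh2 => ?_⟩
    rw [mem_Icc] at hy1
    have hyr : (N : ℝ) ≤ y := by exact_mod_cast (by omega : N ≤ y)
    have hy0 : (0 : ℝ) < y := by linarith
    have hly1 : Real.log N ≤ Real.log y := Real.log_le_log hNr hyr
    have hly0 : 0 < Real.log (y : ℝ) := by linarith
    have hly2 : Real.log (y : ℝ) ≤ 11 * Real.log N := by
      have h1 : (y : ℝ) ≤ 2 * u := by exact_mod_cast (by omega : y ≤ 2 * u)
      have h2 := Real.log_le_log hy0 h1
      rw [Real.log_mul (by norm_num) hu0.ne'] at h2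
      have h3 : Real.log 2 ≤ 1 := by
        have := Real.log_two_lt_d9
        linarith
      linarith
    have hh0 : (0 : ℝ) ≤ h := Nat.cast_nonneg _
    constructor
    · have h1 := hy2 h (by
        have h3 : 1 ≤ κ1 * K := by
          rw [div_le_iff₀ hκ1] at hK2
          linarith
        calc Real.log N ≤ Real.log y := hly1
          _ = 1 * Real.log y := (one_mul _).symm
          _ ≤ κ1 * K * Real.log y := by gcongr
          _ = κ1 * (K * Real.log y) := by ring
          _ ≤ κ1 * h := by gcongr) hh2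
      calc κ1 / 2 * (h / Real.log y) ≤ κ1 * (h / Real.log N) := by
            have h3 : (h : ℝ) / Real.log y ≤ h / Real.log N := by gcongr
            have h4 : 0 ≤ (h : ℝ) / Real.log y := by positivity
            nlinarith
        _ ≤ _ := h1
        _ ≤ _ := by
            rw [Nat.cast_le]
            apply card_le_card
            intro q hq
            rw [mem_filter] at hq ⊢
            obtain ⟨a1, d, a2, a3, a4⟩ := hq
            refine ⟨a1, d, a2, a3.trans ?_, a4⟩
            gcongr
    · rw [hD, mem_filter, not_and] at hyD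
      have h1 := hyD (by rw [mem_Icc]; exact hy1)
      rw [not_exists] at h1
      have h2 := h1 h
      have hh1' : 1 ≤ h := by
        have h3 : (0 : ℝ) < h := lt_of_lt_of_le (by positivity) hh1
        have h4 : 0 < h := by exact_mod_cast h3
        omega
      rw [not_and, not_le] at h2
      have h3 := h2 hh1'
      have h4 : ((primesIn y h).card : ℝ) ≤ (((Ioc y (y + h)) ∩ A).card : ℝ) := by
        rw [Nat.cast_le]
        apply card_le_card
        intro q hq
        unfold primesIn at hq
        rw [mem_filter, mem_Ioc] at hq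
        rw [mem_inter, mem_Ioc, hA, mem_union]
        refine ⟨hq.1, ?_⟩
        unfold primesIn
        rw [mem_filter, mem_filter, mem_Ioc, mem_Ioc]
        rcases le_or_gt q (u + N) with h5 | h5
        · exact Or.inl ⟨⟨by omega, h5⟩, hq.2⟩
        · exact Or.inr ⟨⟨h5, by omega⟩, hq.2⟩
      calc ((primesIn y h).card : ℝ) ≤ t * h := h4.trans h3.le
        _ = K0 * h / Real.log N := by
            rw [ht]
            ring
        _ ≤ K0 * h / (Real.log y / 11) := by
            gcongr
            linarith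
        _ = 11 * K0 * (h / Real.log y) := by
            field_simp
        _ ≤ K * (h / Real.log y) := by gcongr
  have h1 : (G.card : ℝ) ≤ ((((Icc u (u + N)).filter (fun y : ℕ => ∀ h : ℕ, K * Real.log y ≤ h → h ≤ N →
      κ1 / 2 * (h / Real.log y) ≤ (((Ioc y (y + h)).filter (FirstAP m (Real.log y ^ B) U)).card : ℝ) ∧
      ((primesIn y h).card : ℝ) ≤ K * (h / Real.log y)))).card : ℝ) + D.card := by
    exact_mod_cast (card_le_card hsub).trans (card_union_le _ _)
  linarith

end Pool.Agent.U28.SF
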