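import Pool.Agent.U28.SF.SF20
import Pool.Agent.H442R2.KF.BvY
import Pool.Agent.Q278.KT.Fin

set_option autoImplicit false

/-!
# The primes of all residue classes of almost all moduli, in all short intervals
-/

namespace Pool.Agent.U28.SF

open Finset Filter Topology
open Pool.Agent.U28.PG (AllLengths FirstAP)
open Pool.Agent.U766.OP (primesIn)
open Pool.Agent.H442R2.KF (Er piAP piN bvY)

/-- the `1 ≤ n ≤ X` with `q n + a` prime -/
def PosQ (q a X : ℕ) : Finset ℕ := (Icc 1 X).filter (fun n => (q * n + a).Prime)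

lemma wI_one {q a : ℕ} (hqa : IsCoprime (q : ℤ) (a : ℤ)) {p : ℕ} (hp : p.Prime) :
    wI {(q, (a : ℤ))} p = if p ∣ q then 0 else 1 := by
  classical
  haveI : Fact p.Prime := ⟨hp⟩
  unfold wI
  split_ifs with hd
  · rw [card_eq_zero, filter_eq_empty_iff]
    rintro n - ⟨L, hL, h⟩
    rw [mem_singleton] at hL
    subst hL
    have h1 : (p : ℤ) ∣ (q : ℤ) := by exact_mod_cast hd
    have h2 : (p : ℤ) ∣ (a : ℤ) := by
      have h3 : (p : ℤ) ∣ (q : ℤ) * n := Dvd.dvd.mul_right h1 _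
      exact (Int.dvd_add_right h3).1 h
    have h4 : (p : ℤ) ∣ 1 := by
      obtain ⟨r, s, hrs⟩ := hqa
      rw [← hrs]
      exact dvd_add (Dvd.dvd.mul_left h1 _) (Dvd.dvd.mul_left h2 _)
    have h5 := Int.le_of_dvd one_pos h4
    have := hp.two_le
    omega
  · rw [card_eq_one]
    have hq0 : ((q : ℕ) : ZMod p) ≠ 0 := by
      rw [Ne, ZMod.natCast_eq_zero_iff]
      exact hd
    refine ⟨(-(a : ZMod p) * ((q : ℕ) : ZMod p)⁻¹).val, ?_⟩
    ext n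
    rw [mem_filter, mem_range, mem_singleton]
    have key : (p : ℤ) ∣ (q : ℤ) * n + a ↔ (n : ZMod p) = -(a : ZMod p) * ((q : ℕ) : ZMod p)⁻¹ := by
      rw [← ZMod.intCast_zmod_eq_zero_iff_dvd _ p]
      push_cast
      constructor
      · intro h
        have h1 : ((q : ℕ) : ZMod p) * n = -a := by linear_combination h
        rw [← h1]
        field_simp
      · intro h
        rw [h]
        field_simp
        ring
    constructor
    · rintro ⟨hn, L, hL, h⟩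
      rw [mem_singleton] at hL
      subst hL
      rw [← key.1 h, ZMod.val_natCast, Nat.mod_eq_of_lt hn]
    · intro h
      refine ⟨by rw [h]; exact ZMod.val_lt _, _, mem_singleton_self _, ?_⟩
      rw [key, h, ZMod.natCast_zmod_val]

lemma SI_one {q a : ℕ} (hq : 1 ≤ q) (hqa : IsCoprime (q : ℤ) (a : ℤ)) :
    SI {(q, (a : ℤ))} = (q : ℝ) / (Nat.totient q : ℝ) := by
  classical
  have hq0 : (q : ℝ) ≠ 0 := by
    have : (1 : ℝ) ≤ q := by exact_mod_cast hq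
    linarith
  unfold SI
  have hf : ∀ p : Nat.Primes, (1 - (wI {(q, (a : ℤ))} p : ℝ) / ((p : ℕ) : ℝ)) / (1 - 1 / ((p : ℕ) : ℝ)) ^
      (({(q, (a : ℤ))} : Finset (ℕ × ℤ))).card = (fun x : ℕ => if x ∣ q then (1 - (x : ℝ)⁻¹)⁻¹ else 1) p := by
    intro p
    have hp := p.2
    have hp2 : (2 : ℝ) ≤ ((p : ℕ) : ℝ) := by exact_mod_cast hp.two_le
    have h1 : (1 - 1 / ((p : ℕ) : ℝ)) ≠ 0 := by
      have : 1 / ((p : ℕ) : ℝ) ≤ 1 / 2 := one_div_le_one_div_of_le (by norm_num) hp2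
      linarith
    rw [wI_one hqa hp, card_singleton, pow_one]
    simp only
    split_ifs with hd
    · rw [Nat.cast_zero, zero_div, sub_zero, one_div, one_div]
    · rw [Nat.cast_one, div_self h1]
  obtain ⟨F, hF⟩ : ∃ F : ℕ → ℝ, F = fun x : ℕ => if x ∣ q then (1 - (x : ℝ)⁻¹)⁻¹ else 1 := ⟨_, rfl⟩
  have hf' : ∀ p : Nat.Primes, (1 - (wI {(q, (a : ℤ))} p : ℝ) / ((p : ℕ) : ℝ)) / (1 - 1 / ((p : ℕ) : ℝ)) ^
      (({(q, (a : ℤ))} : Finset (ℕ × ℤ))).card = F p := by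
    intro p
    rw [hf p, hF]
  obtain ⟨s, hs⟩ : ∃ s : Finset Nat.Primes, s = (q.primeFactors).subtype Nat.Prime := ⟨_, rfl⟩
  have h1 : ∏ b ∈ s, F (b : ℕ) = ∏ x ∈ q.primeFactors, F x := by
    subst hs
    exact prod_subtype_of_mem F (fun x hx => Nat.prime_of_mem_primeFactors hx)
  have hsupp : ∀ p : Nat.Primes, p ∉ s → F p = 1 := by
    intro p hp
    rw [hF]
    simp only
    rw [if_neg]
    intro hd
    apply hp
    subst hs
    exact mem_subtype.2 (Nat.mem_primeFactors.2 ⟨p.2, hd, by omega⟩)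
  have h0 : ∏' p : Nat.Primes, F p = ∏ b ∈ s, F (b : ℕ) := tprod_eq_prod hsupp
  rw [tprod_congr hf', h0, h1]
  have h2 : ∏ x ∈ q.primeFactors, F x = ∏ x ∈ q.primeFactors, (1 - (x : ℝ)⁻¹)⁻¹ := by
    apply prod_congr rfl
    intro x hx
    rw [hF]
    simp only
    rw [if_pos (Nat.dvd_of_mem_primeFactors hx)]
  rw [h2]
  have h3 := Nat.totient_eq_mul_prod_factors q
  have h4 : (Nat.totient q : ℝ) = q * ∏ x ∈ q.primeFactors, (1 - (x : ℝ)⁻¹) := by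
    have := congrArg (fun z : ℚ => (z : ℝ)) h3
    push_cast at this
    exact this
  rw [h4, prod_inv_distrib, div_mul_eq_div_div, div_self hq0, one_div]

lemma piAP_le (N q a : ℕ) (hq : 1 ≤ q) (ha1 : 1 ≤ a) (ha2 : a ≤ q) :
    piAP N q a ≤ (PosQ q a (N / q)).card + 1 := by
  classical
  unfold piAP
  have hsub : (Icc 1 N).filter (fun p => p.Prime ∧ p ≡ a [MOD q]) ⊆
      (insert 0 (PosQ q a (N / q))).image (fun n => q * n + a) := by
    intro p hp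
    rw [mem_filter, mem_Icc] at hp
    obtain ⟨⟨h1, h2⟩, h3, h4⟩ := hp
    have hpa : a ≤ p := by
      by_contra hcon
      rw [not_le] at hcon
      have h5 := (Nat.modEq_iff_dvd' hcon.le).1 h4
      have h6 := Nat.le_of_dvd (by omega) h5
      omega
    obtain ⟨n, hn⟩ : q ∣ p - a := (Nat.modEq_iff_dvd' hpa).1 h4.symm
    have hp' : p = q * n + a := by omega
    rw [mem_image]
    refine ⟨n, ?_, hp'.symm⟩
    rw [mem_insert]
    rcases Nat.eq_zero_or_pos n with h0 | h0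
    · left
      exact h0
    · right
      unfold PosQ
      rw [mem_filter, mem_Icc]
      refine ⟨⟨h0, ?_⟩, by rw [← hp']; exact h3⟩
      rw [Nat.le_div_iff_mul_le hq]
      nlinarith
  exact (card_le_card hsub).trans (card_image_le.trans (card_insert_le _ _))

theorem piN_low : ∃ c1 : ℝ, 0 < c1 ∧ ∀ᶠ N : ℕ in atTop, c1 * N / Real.log N ≤ (piN N : ℝ) := by
  obtain ⟨c, δ, hc, hδ, hδ1, hlong⟩ := long_primes Pool.Agent.Q278.KT.mainp_043 (by norm_num) (by norm_num)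
    (by norm_num) (by norm_num) (by norm_num)
  refine ⟨c / 3, by positivity, ?_⟩
  obtain ⟨u₀, hu₀⟩ := eventually_atTop.1 hlong
  filter_upwards [eventually_ge_atTop (2 * u₀ + 12)] with N hN
  obtain ⟨u, hu⟩ : ∃ u, u = N / 2 := ⟨_, rfl⟩
  have h2 : 6 ≤ u := by omega
  have hu1 : (1 : ℝ) ≤ u := by exact_mod_cast (by omega : 1 ≤ u)
  have hu6 : (6 : ℝ) ≤ u := by exact_mod_cast h2
  have h3 := hu₀ u (by omega) u (by
    refine (Real.rpow_le_rpow_of_exponent_le hu1 (by linarith : _ ≤ (1 : ℝ))).trans (le_of_eq (Real.rpow_one _))) le_rfl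
  have h4 : ((primesIn u u).card : ℝ) ≤ (piN N : ℝ) := by
    rw [Nat.cast_le]
    unfold primesIn piN
    apply card_le_card
    intro p hp
    rw [mem_filter, mem_Ioc] at hp
    rw [mem_filter, mem_Icc]
    exact ⟨⟨by omega, by omega⟩, hp.2⟩
  refine le_trans ?_ (h3.trans h4)
  have hlu : 0 < Real.log (u : ℝ) := Real.log_pos (by linarith)
  have huN : (u : ℝ) ≤ N := by exact_mod_cast (by omega : u ≤ N)
  have hNu : (N : ℝ) ≤ 3 * u := by exact_mod_cast (by omega : N ≤ 3 * u)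
  have hlN : Real.log (u : ℝ) ≤ Real.log N := Real.log_le_log (by linarith) huN
  calc c / 3 * N / Real.log N ≤ c / 3 * (3 * u) / Real.log u := by gcongr
    _ = c * u / Real.log u := by ring

theorem ap_count : ∃ c0 : ℝ, 0 < c0 ∧ ∀ θ : ℝ, θ < 1 / 2 → ∀ U : ℕ, ∀ᶠ N : ℕ in atTop,
    ∃ E ⊆ Icc 1 ⌊(N : ℝ) ^ θ⌋₊, ∑ q ∈ E, 1 / (Nat.totient q : ℝ) ≤ 1 / Real.log N ^ U ∧
    ∀ q ∈ Icc 1 ⌊(N : ℝ) ^ θ⌋₊, (N : ℝ) ^ (0.4 : ℝ) ≤ (N / q : ℕ) ∧ (q ∉ E → ∀ a : ℕ, 1 ≤ a → a ≤ q → a.Coprime q →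
      c0 * ((q : ℝ) / Nat.totient q * ((N / q : ℕ) / Real.log (N / q : ℕ))) ≤ ((PosQ q a (N / q)).card : ℝ)) := by
  classical
  obtain ⟨c1, hc1, hpi⟩ := piN_low
  refine ⟨c1 / 5, by positivity, fun θ hθ U => ?_⟩
  obtain ⟨C, hC, hbv⟩ := bvY θ hθ (U + 2)
  have tN : Tendsto (fun N : ℕ => (N : ℝ)) atTop atTop := tendsto_natCast_atTop_atTop
  have tL : Tendsto (fun N : ℕ => Real.log (N : ℝ)) atTop atTop := Real.tendsto_log_atTop.comp tN
  have t1 : Tendsto (fun X : ℕ => (X : ℝ) ^ (0.1 : ℝ)) atTop atTop := (tendsto_rpow_atTop (by norm_num)).comp tN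
  have hlo := (isLittleO_log_rpow_atTop (show (0 : ℝ) < 1 / 2 by norm_num)).bound (show (0 : ℝ) < c1 / 4 by positivity)
  filter_upwards [hpi, eventually_ge_atTop 3, tL.eventually_ge_atTop 1, tL.eventually_ge_atTop (4 * C / c1),
    t1.eventually_ge_atTop 2, tN.eventually hlo] with N hpiN hN3 hL1 hL2 h01 hlogN
  have hN0 : (0 : ℝ) < N := by exact_mod_cast (by omega : 0 < N)
  have hN1 : (1 : ℝ) ≤ N := by exact_mod_cast (by omega : 1 ≤ N)
  obtain ⟨L, hL⟩ : ∃ L, L = Real.log (N : ℝ) := ⟨_, rfl⟩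
  rw [← hL] at hL1 hL2
  have hL0 : 0 < L := by linarith
  rw [← hL] at hpiN
  have hlog2 : L ≤ c1 / 4 * (N : ℝ) ^ (1 / 2 : ℝ) := by
    rw [Real.norm_eq_abs, Real.norm_eq_abs, ← hL, abs_of_pos hL0, abs_of_nonneg (by positivity)] at hlogN
    exact hlogN
  -- facts on the moduli
  have hmod : ∀ q ∈ Icc 1 ⌊(N : ℝ) ^ θ⌋₊, 1 ≤ q ∧ (q : ℝ) ≤ (N : ℝ) ^ (1 / 2 : ℝ) ∧ (N : ℝ) ^ (0.4 : ℝ) ≤ (N / q : ℕ) := by
    intro q hq
    rw [mem_Icc] at hq
    have h1 : (q : ℝ) ≤ (N : ℝ) ^ θ := (Nat.le_floor_iff (by positivity)).1 hq.2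
    have h2 : (q : ℝ) ≤ (N : ℝ) ^ (1 / 2 : ℝ) := h1.trans (Real.rpow_le_rpow_of_exponent_le hN1 hθ.le)
    refine ⟨hq.1, h2, ?_⟩
    have hq0 : (0 : ℝ) < q := by exact_mod_cast hq.1
    have h3 : (N : ℝ) < q * ((N / q : ℕ) + 1) := by exact_mod_cast Nat.lt_mul_div_succ N (by omega : 0 < q)
    have h4 : (N : ℝ) = (N : ℝ) ^ (1 / 2 : ℝ) * (N : ℝ) ^ (1 / 2 : ℝ) := by
      rw [← Real.rpow_add hN0]
      norm_num
    have h5 : (N : ℝ) ^ (1 / 2 : ℝ) < (N / q : ℕ) + 1 := by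
      have h6 : (N : ℝ) ^ (1 / 2 : ℝ) * (N : ℝ) ^ (1 / 2 : ℝ) < (N : ℝ) ^ (1 / 2 : ℝ) * ((N / q : ℕ) + 1) := by
        rw [← h4]
        refine h3.trans_le (mul_le_mul_of_nonneg_right h2 (by positivity))
      exact lt_of_mul_lt_mul_left h6 (by positivity)
    have h7 : (N : ℝ) ^ (1 / 2 : ℝ) = (N : ℝ) ^ (0.1 : ℝ) * (N : ℝ) ^ (0.4 : ℝ) := by
      rw [← Real.rpow_add hN0]
      norm_num
    have h8 : (1 : ℝ) ≤ (N : ℝ) ^ (0.4 : ℝ) := Real.one_le_rpow hN1 (by norm_num)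
    nlinarith
  -- the bad moduli
  obtain ⟨Bd, hBd⟩ : ∃ Bd : ℕ → ℕ → Prop, Bd = fun q a => 1 ≤ a ∧ a ≤ q ∧ a.Coprime q ∧
    ((PosQ q a (N / q)).card : ℝ) < c1 / 5 * ((q : ℝ) / Nat.totient q * ((N / q : ℕ) / Real.log (N / q : ℕ))) := ⟨_, rfl⟩
  obtain ⟨E, hE⟩ : ∃ E, E = (Icc 1 ⌊(N : ℝ) ^ θ⌋₊).filter (fun q => ∃ a, Bd q a) := ⟨_, rfl⟩
  refine ⟨E, by rw [hE]; exact filter_subset _ _, ?_, ?_⟩
  · obtain ⟨a, ha⟩ : ∃ a : ℕ → ℕ, ∀ q, (1 ≤ q → (a q).Coprime q) ∧ ((∃ b, Bd q b) → Bd q (a q)) := by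
      have h1 : ∀ q : ℕ, ∃ b : ℕ, (1 ≤ q → b.Coprime q) ∧ ((∃ b, Bd q b) → Bd q b) := by
        intro q
        by_cases h : ∃ b, Bd q b
        · obtain ⟨b, hb⟩ := h
          have hb' := hb
          rw [hBd] at hb'
          exact ⟨b, fun _ => hb'.2.2.1, fun _ => hb⟩
        · exact ⟨1, fun _ => Nat.coprime_one_left q, fun h2 => absurd h2 h⟩
      choose a ha using h1
      exact ⟨a, ha⟩
    have key := hbv N hN3 N le_rfl a (fun d hd => (ha d).1 hd)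
    rw [← hL] at key
    have hbig : ∀ q ∈ E, c1 / 4 * (N / L) * (1 / (Nat.totient q : ℝ)) ≤ |Er N q (a q)| := by
      intro q hq
      rw [hE, mem_filter] at hq
      obtain ⟨hq1, hq2⟩ := hq
      have hbad := (ha q).2 hq2
      rw [hBd] at hbad
      obtain ⟨b1, b2, b3, b4⟩ := hbad
      obtain ⟨m1, m2, m3⟩ := hmod q hq1
      obtain ⟨φ, hφ⟩ : ∃ φ : ℝ, φ = (Nat.totient q : ℝ) := ⟨_, rfl⟩
      have hφ0 : 0 < φ := by
        rw [hφ]
        exact_mod_cast Nat.totient_pos.2 m1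
      have hφq : φ ≤ (N : ℝ) ^ (1 / 2 : ℝ) := by
        refine le_trans ?_ m2
        rw [hφ]
        exact_mod_cast Nat.totient_le q
      have hq0 : (0 : ℝ) < q := by exact_mod_cast m1
      rw [← hφ] at b4 ⊢
      have hX1 : ((N / q : ℕ) : ℝ) ≤ N / q := Nat.cast_div_le
      have hX0 : (0 : ℝ) < ((N / q : ℕ) : ℝ) := lt_of_lt_of_le (by positivity) m3
      have hlX : 0.4 * L ≤ Real.log ((N / q : ℕ) : ℝ) := by
        have := Real.log_le_log (by positivity) m3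
        rw [Real.log_rpow hN0, ← hL] at this
        exact this
      have e1 : (q : ℝ) / φ * ((N / q : ℕ) / Real.log (N / q : ℕ)) ≤ 5 / 2 * (N / L * (1 / φ)) := by
        calc (q : ℝ) / φ * ((N / q : ℕ) / Real.log (N / q : ℕ)) ≤ (q : ℝ) / φ * ((N / q) / (0.4 * L)) := by gcongr
          _ = 5 / 2 * (N / L * (1 / φ)) := by
              field_simp
              norm_num
      have e2 : (piAP N q (a q) : ℝ) ≤ c1 / 2 * (N / L * (1 / φ)) + 1 := by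
        have h1 : (piAP N q (a q) : ℝ) ≤ ((PosQ q (a q) (N / q)).card : ℝ) + 1 := by
          exact_mod_cast piAP_le N q (a q) m1 b1 b2
        have h2 := mul_le_mul_of_nonneg_left e1 (by positivity : 0 ≤ c1 / 5)
        linarith
      have e3 : c1 * (N / L * (1 / φ)) ≤ (piN N : ℝ) / φ := by
        rw [le_div_iff₀ hφ0]
        refine le_trans (le_of_eq ?_) hpiN
        field_simp
      have e4 : 1 ≤ c1 / 4 * (N / L * (1 / φ)) := by
        have h4 : (N : ℝ) = (N : ℝ) ^ (1 / 2 : ℝ) * (N : ℝ) ^ (1 / 2 : ℝ) := by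
          rw [← Real.rpow_add hN0]
          norm_num
        have h5 : φ * L ≤ c1 / 4 * N := by
          calc φ * L ≤ (N : ℝ) ^ (1 / 2 : ℝ) * (c1 / 4 * (N : ℝ) ^ (1 / 2 : ℝ)) := by gcongr
            _ = c1 / 4 * ((N : ℝ) ^ (1 / 2 : ℝ) * (N : ℝ) ^ (1 / 2 : ℝ)) := by ring
            _ = c1 / 4 * N := by rw [← h4]
        have h6 : c1 / 4 * (N / L * (1 / φ)) = c1 / 4 * N / (φ * L) := by
          field_simp
        rw [h6, le_div_iff₀ (by positivity), one_mul]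
        exact h5
      have e5 : Er N q (a q) = (piAP N q (a q) : ℝ) - (piN N : ℝ) / φ := by
        rw [hφ]
        rfl
      rw [e5, mul_assoc]
      refine le_trans ?_ (neg_le_abs _)
      linarith
    have hsum : c1 / 4 * (N / L) * ∑ q ∈ E, 1 / (Nat.totient q : ℝ) ≤ C * (N / L ^ (U + 2)) := by
      rw [mul_sum]
      refine (sum_le_sum hbig).trans (le_trans ?_ key)
      exact sum_le_sum_of_subset_of_nonneg (by rw [hE]; exact filter_subset _ _) (fun _ _ _ => abs_nonneg _)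
    rw [← hL]
    rw [le_div_iff₀ (by positivity)]
    obtain ⟨S1, hS1⟩ : ∃ S2 : ℝ, S2 = ∑ q ∈ E, 1 / (Nat.totient q : ℝ) := ⟨_, rfl⟩
    rw [← hS1] at hsum ⊢
    have h1 : c1 / 4 * (N / L) * S1 * (L ^ (U + 2) / N) ≤ C := by
      calc c1 / 4 * (N / L) * S1 * (L ^ (U + 2) / N) ≤ C * (N / L ^ (U + 2)) * (L ^ (U + 2) / N) := by gcongr
        _ = C := by field_simp
    have h2 : c1 / 4 * (N / L) * S1 * (L ^ (U + 2) / N) = c1 / 4 * L * (S1 * L ^ U) := by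
      field_simp
      ring
    rw [h2] at h1
    have h3 : C ≤ c1 / 4 * L := by
      rw [div_le_iff₀ hc1] at hL2
      linarith
    have h4 : c1 / 4 * L * (S1 * L ^ U) ≤ c1 / 4 * L * 1 := by linarith
    exact le_of_mul_le_mul_left h4 (by positivity)
  · intro q hq
    refine ⟨(hmod q hq).2.2, fun hqE a h1 h2 h3 => ?_⟩
    by_contra hcon
    rw [not_le] at hcon
    apply hqE
    rw [hE, mem_filter]
    refine ⟨hq, a, ?_⟩
    rw [hBd]
    exact ⟨h1, h2, h3, hcon⟩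

theorem ap_short : ∃ c0 : ℝ, 0 < c0 ∧ ∀ (m : ℕ) (ρ : ℝ), 0 < ρ → ∃ κ : ℝ, 0 < κ ∧ ∃ B : ℕ,
    ∀ θ : ℝ, θ < 1 / 2 → ∀ U : ℕ, ∀ᶠ N : ℕ in atTop,
    ∃ E ⊆ Icc 1 ⌊(N : ℝ) ^ θ⌋₊, ∑ q ∈ E, 1 / (Nat.totient q : ℝ) ≤ 1 / Real.log N ^ U ∧
    ∀ q ∈ Icc 1 ⌊(N : ℝ) ^ θ⌋₊, q ∉ E → ∀ a : ℕ, 1 ≤ a → a ≤ q → a.Coprime q →
      c0 * ((q : ℝ) / Nat.totient q * ((N / q : ℕ) / Real.log (N / q : ℕ))) ≤ ((PosQ q a (N / q)).card : ℝ) ∧
      ∀ V ⊆ PosQ q a (N / q), ρ * (PosQ q a (N / q)).card ≤ V.card →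
        AllLengths κ ((q : ℝ) / Nat.totient q / Real.log (N / q : ℕ)) (N / q)
          (FirstAP m (Real.log (N / q : ℕ) ^ B) V) := by
  classical
  obtain ⟨c0, hc0, hcount⟩ := ap_count
  refine ⟨c0, hc0, fun m ρ hρ => ?_⟩
  obtain ⟨κ, hκ, B, hforms⟩ := intforms_all 1 m le_rfl 2 (ρ * c0) (by norm_num) (by positivity)
  refine ⟨κ, hκ, B, fun θ hθ U => ?_⟩
  obtain ⟨X₀, hX₀⟩ := eventually_atTop.1 hforms
  have tN : Tendsto (fun N : ℕ => (N : ℝ)) atTop atTop := tendsto_natCast_atTop_atTop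
  have t1 : Tendsto (fun X : ℕ => (X : ℝ) ^ (0.4 : ℝ)) atTop atTop := (tendsto_rpow_atTop (by norm_num)).comp tN
  filter_upwards [hcount θ hθ U, eventually_ge_atTop 1, t1.eventually_ge_atTop (X₀ : ℝ)] with N hN hN1 hNX
  obtain ⟨E, hE, hsum, h⟩ := hN
  refine ⟨E, hE, hsum, fun q hq hqE a ha1 ha2 ha3 => ?_⟩
  obtain ⟨g1, g2⟩ := h q hq
  have hlow := g2 hqE a ha1 ha2 ha3
  refine ⟨hlow, fun V hV hVc => ?_⟩
  have hq1 : 1 ≤ q := (mem_Icc.1 hq).1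
  have hN1r : (1 : ℝ) ≤ N := by exact_mod_cast hN1
  have hN0 : (0 : ℝ) < N := by linarith
  have hcop : IsCoprime (q : ℤ) (a : ℤ) := by
    rw [Nat.isCoprime_iff_coprime]
    exact ha3.symm
  have hXX₀ : X₀ ≤ N / q := by exact_mod_cast hNX.trans g1
  have hSI := SI_one hq1 hcop
  have hφ0 : (0 : ℝ) < Nat.totient q := by exact_mod_cast Nat.totient_pos.2 hq1
  have hq0 : (0 : ℝ) < q := by exact_mod_cast hq1
  have key := hX₀ (N / q) hXX₀ {(q, (a : ℤ))} (by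
    intro L hL
    rw [mem_singleton] at hL
    subst hL
    exact ⟨hq1, hcop⟩) (card_singleton _) (by
    intro L hL
    rw [mem_singleton] at hL
    subst hL
    show (q : ℝ) ≤ ((N / q : ℕ) : ℝ) ^ (2 : ℝ)
    have h1 : (q : ℝ) ≤ (N : ℝ) ^ θ := (Nat.le_floor_iff (by positivity)).1 (mem_Icc.1 hq).2
    calc (q : ℝ) ≤ (N : ℝ) ^ θ := h1
      _ ≤ (N : ℝ) ^ (0.8 : ℝ) := Real.rpow_le_rpow_of_exponent_le hN1r (by linarith)
      _ = ((N : ℝ) ^ (0.4 : ℝ)) ^ (2 : ℝ) := by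
          rw [← Real.rpow_mul hN0.le]
          norm_num
      _ ≤ ((N / q : ℕ) : ℝ) ^ (2 : ℝ) := Real.rpow_le_rpow (by positivity) g1 (by norm_num)) (by
    rw [hSI]
    positivity) V (by
    intro n hn
    have hn' := hV hn
    unfold PosQ at hn'
    rw [mem_filter, mem_Icc] at hn'
    refine ⟨hn'.1.1, hn'.1.2, fun L hL => ?_⟩
    rw [mem_singleton] at hL
    subst hL
    exact ⟨q * n + a, hn'.2, by push_cast; ring⟩) (by
    rw [hSI, pow_one]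
    calc ρ * c0 * ((q : ℝ) / Nat.totient q * ((N / q : ℕ) / Real.log (N / q : ℕ)))
        = ρ * (c0 * ((q : ℝ) / Nat.totient q * ((N / q : ℕ) / Real.log (N / q : ℕ)))) := by ring
      _ ≤ ρ * (PosQ q a (N / q)).card := by gcongr
      _ ≤ V.card := hVc)
  rw [hSI, pow_one] at key
  exact key

end Pool.Agent.U28.SF
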