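import Pool.Agent.U28.SF.SF2

set_option autoImplicit false

/-!
# The energy of an arbitrary sifted set down to its mean spacing: the estimate
-/

namespace Pool.Agent.U28.SF

open Finset Filter Topology
open Pool.Agent.Y843.HS (Pr VV Sv Om Co Coll Gd Dp mem_Om_iff card_Om)
open Pool.Agent.X58.IV (Adm upZ VV_split VV_pos VV_le_one fac)

set_option maxHeartbeats 8000000 in
open Classical in
/-- **the energy of a sifted set** -/
theorem energy (l : ℕ) (κ : ℝ) (hκ : 0 < κ) (c0 : ℝ) (hc0 : 0 < c0) : ∃ C : ℝ, 0 < C ∧ ∃ X₀ : ℕ, ∀ X A : ℕ, X₀ ≤ X →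
    ∀ Z : ℕ → Finset ℕ, Adm l Z → ∀ S : Finset ℕ, S ⊆ Ioc A (A + X) → Free Z κ X S →
    ∀ H : ℕ, Real.log X ^ c0 ≤ H → (H : ℝ) ≤ Real.log X ^ (l + 2) →
    ∑ h ∈ Icc 1 H, ((S.filter (fun n => n + h ∈ S)).card : ℝ) ≤
      C * X * (VV Z 0 ⌊(X : ℝ) ^ κ⌋₊ ^ 2 * H + VV Z 0 ⌊(X : ℝ) ^ κ⌋₊) := by
  obtain ⟨Cp, K, s0, hCp, hs01, Xp, hpair⟩ := pair_up l κ hκ
  obtain ⟨Cu, hCu, Xu, hup⟩ := upZ l κ hκ
  obtain ⟨C, hC⟩ := Pool.Agent.Helper256.KM.mertens_inv
  have hC0 : 0 ≤ C := (abs_nonneg _).trans (hC 3 le_rfl)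
  set k : ℕ := K * l ^ 2 with hk
  set C2 : ℝ := C + |Real.log κ| with hC2
  have hC20 : 0 ≤ C2 := by positivity
  obtain ⟨θ, hθ, hpar⟩ := params l k K s0 κ c0 C C2 hκ hc0 hC20
  set e1 : ℝ := c0 / (4 * (K + 1)) with he1
  have he10 : 0 < e1 := by positivity
  have hKe1 : K * e1 ≤ c0 / 4 := by
    rw [he1]
    calc (K : ℝ) * (c0 / (4 * (K + 1))) ≤ (K + 1) * (c0 / (4 * (K + 1))) := by
          apply mul_le_mul_of_nonneg_right _ (by positivity)
          linarith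
      _ = c0 / 4 := by field_simp
  set Ca : ℝ := 2 + 4 * Real.exp k with hCa
  have hCa0 : 0 < Ca := by positivity
  refine ⟨Cp * Real.exp K * Ca + Cp + 2 * (l : ℝ) ^ 2 / e1 * Cu, by positivity, ?_⟩
  have tN : Tendsto (fun N : ℕ => (N : ℝ)) atTop atTop := tendsto_natCast_atTop_atTop
  have tL : Tendsto (fun N : ℕ => Real.log (N : ℝ)) atTop atTop := Real.tendsto_log_atTop.comp tN
  obtain ⟨X₁, hX₁⟩ := eventually_atTop.1 (hpar.and (tL.eventually_ge_atTop 1))
  refine ⟨max X₁ (max Xp Xu), ?_⟩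
  intro X A hX Z hZ S hS hfree H hH1 hH2
  obtain ⟨⟨R0, r1, r2, r3, r4, r5, r6, r7⟩, hL1⟩ := hX₁ X ((le_max_left _ _).trans hX)
  have hXp : Xp ≤ X := ((le_max_left _ _).trans (le_max_right _ _)).trans hX
  have hXu : Xu ≤ X := ((le_max_right _ _).trans (le_max_right _ _)).trans hX
  set L := Real.log (X : ℝ) with hL
  set z := ⌊(X : ℝ) ^ κ⌋₊ with hz
  set V := VV Z 0 z with hV
  have hV0 : 0 < V := VV_pos hZ 0 z
  have hL0 : 0 < L := by linarith
  have hX0 : (0 : ℝ) < X := by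
    by_contra hcon
    have : (X : ℝ) = 0 := le_antisymm (not_lt.1 hcon) (Nat.cast_nonneg _)
    rw [hL, this, Real.log_zero] at hL0
    exact lt_irrefl _ hL0
  have hH1' : (1 : ℝ) ≤ H := (Real.one_le_rpow hL1 hc0.le).trans hH1
  have hHpos : 1 ≤ H := by exact_mod_cast hH1'
  have hHR : H ≤ R0 := by exact_mod_cast hH2.trans r3
  have hSv1 : Sv l s0 R0 Z := fun p hp => by
    have hpp := (mem_filter.1 hp).2
    exact ⟨(hZ p hpp).1, (hZ p hpp).2.2⟩
  have hSv2 : Sv l R0 z Z := fun p hp => by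
    have hpp := (mem_filter.1 hp).2
    exact ⟨(hZ p hpp).1, (hZ p hpp).2.2⟩
  -- small primes
  set g : ℕ → ℝ := fun h => Gd K Z s0 R0 ((h : ℕ) : ℤ) with hg
  set E : ℕ → ℝ := fun h => EH Z R0 z ((h : ℕ) : ℤ) with hE
  have hg1 : ∀ h, 1 ≤ g h := fun h => Pool.Agent.Y843.HS.one_le_Gd K _
  have hgsum : ∑ h ∈ Icc 1 H, g h ≤ Ca * H := by
    have q1 := Pool.Agent.Y79.HS.sum_bound (K := K) (N := H + 1) hSv1
    have q2 : ∑ h ∈ Icc 1 H, (g h - 1) ≤ ∑ h ∈ Ioo (-((H + 1 : ℕ) : ℤ)) ((H + 1 : ℕ) : ℤ), (Gd K Z s0 R0 h - 1) := by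
      have e : ∑ h ∈ Icc 1 H, (g h - 1) = ∑ h ∈ (Icc 1 H).image (fun h : ℕ => (h : ℤ)), (Gd K Z s0 R0 h - 1) := by
        rw [sum_image]
        intro a _ b _ hab
        have hab' : (a : ℤ) = b := hab
        exact_mod_cast hab'
      rw [e]
      apply sum_le_sum_of_subset_of_nonneg
      · intro h hh
        obtain ⟨h', hh', rfl⟩ := mem_image.1 hh
        rw [mem_Icc] at hh'
        rw [mem_Ioo]
        push_cast
        omega
      · intro h _ _
        have := Pool.Agent.Y843.HS.one_le_Gd (Z := Z) (s := s0) (R := R0) K h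
        linarith
    have q3 : ∏ p ∈ Pr s0 R0, (1 + ((K * l ^ 2 : ℕ) : ℝ) * (1 / (p : ℝ) ^ 2)) ≤ Real.exp k := by
      have w1 := Pool.Agent.Y79.HS.prod_le_exp (Pr s0 R0) (fun p => ((K * l ^ 2 : ℕ) : ℝ) * (1 / (p : ℝ) ^ 2))
        (fun p _ => by positivity)
      rw [← Finset.mul_sum] at w1
      refine w1.trans (Real.exp_le_exp.2 ?_)
      have w2 := Pool.Agent.Y79.HS.sum_sq_le (s := s0) (z := R0) hs01
      have w3 : (1 : ℝ) / s0 ≤ 1 := by
        rw [div_le_one (by exact_mod_cast hs01)]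
        exact_mod_cast hs01
      calc ((K * l ^ 2 : ℕ) : ℝ) * ∑ p ∈ Pr s0 R0, 1 / (p : ℝ) ^ 2 ≤ ((K * l ^ 2 : ℕ) : ℝ) * 1 :=
            mul_le_mul_of_nonneg_left (w2.trans w3) (Nat.cast_nonneg _)
        _ = k := by rw [mul_one]
    have q4 : ∏ p ∈ Pr s0 R0, (1 + ((K * l ^ 2 : ℕ) : ℝ) * (1 / (p : ℝ))) ≤ H :=
      (prod_pr_le hC k r1).trans (r5.trans hH1)
    have q5 : ∑ h ∈ Icc 1 H, (g h - 1) = ∑ h ∈ Icc 1 H, g h - H := by
      rw [sum_sub_distrib, sum_const, Nat.card_Icc, nsmul_eq_mul, mul_one]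
      simp
    have q6 : 2 * ((H + 1 : ℕ) : ℝ) * (∏ p ∈ Pr s0 R0, (1 + ((K * l ^ 2 : ℕ) : ℝ) * (1 / (p : ℝ) ^ 2)) - 1) ≤
        2 * ((H + 1 : ℕ) : ℝ) * Real.exp k := by
      apply mul_le_mul_of_nonneg_left _ (by positivity)
      linarith
    have q7 : 2 * ((H + 1 : ℕ) : ℝ) * Real.exp k ≤ 4 * Real.exp k * H := by
      push_cast
      nlinarith [Real.exp_pos (k : ℝ)]
    rw [hCa]
    linarith
  have hgmax : ∀ h, g h ≤ Real.exp (K * C) * Real.log R0 ^ K := by
    intro h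
    refine le_trans ?_ (prod_pr_le hC K (s := s0) r1)
    show Gd K Z s0 R0 ((h : ℕ) : ℤ) ≤ _
    rw [Pool.Agent.Y843.HS.Gd_eq]
    have e : ∏ p ∈ Pr s0 R0, (1 + (K : ℝ) * (1 / (p : ℝ))) = ∏ p ∈ Pr s0 R0, (1 + (K : ℝ) / p) :=
      prod_congr rfl fun p _ => by ring
    rw [e]
    apply Pool.Agent.Y843.HS.prod_fac_mono
    unfold Dp
    exact filter_subset _ _
  -- large primes
  set Λ : ℝ := (l : ℝ) ^ 2 * (Real.log L + C2) with hΛ
  have hLL1 : 1 ≤ Real.log L := (le_max_right _ _).trans r7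
  have hΛ0 : 0 ≤ Λ := mul_nonneg (by positivity) (by linarith)
  have hEsum : ∑ h ∈ Icc 1 H, E h ≤ Λ := by
    refine (sum_EH hSv2 hHR).trans ?_
    rw [hΛ]
    apply mul_le_mul_of_nonneg_left _ (by positivity)
    have hz3 : 3 ≤ z := r1.trans r4
    refine (sum_pr_le hC hz3).trans ?_
    have hzr : (0 : ℝ) < z := by exact_mod_cast (by omega : 0 < z)
    have hz1 : (1 : ℝ) < z := by exact_mod_cast (by omega : 1 < z)
    have w1 : Real.log z ≤ κ * L := by
      have := Real.log_le_log hzr (Nat.floor_le (Real.rpow_nonneg hX0.le κ))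
      rwa [Real.log_rpow hX0] at this
    have w2 : Real.log (Real.log z) ≤ Real.log κ + Real.log L := by
      have := Real.log_le_log (Real.log_pos hz1) w1
      rwa [Real.log_mul hκ.ne' hL0.ne'] at this
    have w3 := le_abs_self (Real.log κ)
    rw [hC2]
    linarith
  have hE0 : ∀ h, 0 ≤ E h := fun h => EH_nonneg _ _ _ _
  have hcount : ∀ t : ℝ, 0 < t → (((Icc 1 H).filter (fun h => t < E h)).card : ℝ) ≤ Λ / t := by
    intro t ht
    rw [le_div_iff₀ ht]
    calc (((Icc 1 H).filter (fun h => t < E h)).card : ℝ) * t = ∑ _h ∈ (Icc 1 H).filter (fun h => t < E h), t := by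
          rw [sum_const, nsmul_eq_mul]
      _ ≤ ∑ h ∈ (Icc 1 H).filter (fun h => t < E h), E h := sum_le_sum fun h hh => (mem_filter.1 hh).2.le
      _ ≤ ∑ h ∈ Icc 1 H, E h := sum_le_sum_of_subset_of_nonneg (filter_subset _ _) fun h _ _ => hE0 h
      _ ≤ Λ := hEsum
  -- one distance
  set P : ℕ → ℝ := fun h => ((S.filter (fun n => n + h ∈ S)).card : ℝ) with hP
  have hP0 : ∀ h, 0 ≤ P h := fun h => Nat.cast_nonneg _
  have hPu : ∀ h, P h ≤ Cu * X * V := by
    intro h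
    refine le_trans ?_ (hup X A hXu Z hZ S hS hfree)
    show ((S.filter (fun n => n + h ∈ S)).card : ℝ) ≤ _
    exact_mod_cast card_le_card (filter_subset _ _)
  have hPp : ∀ h, P h ≤ Cp * X * V ^ 2 * (g h * Real.exp (K * E h)) := by
    intro h
    refine (hpair X A hXp Z hZ S hS hfree h).trans ?_
    rw [Gd_split K Z r2 r4]
    apply mul_le_mul_of_nonneg_left _ (by positivity)
    exact mul_le_mul_of_nonneg_left (Gd_le_exp K Z R0 z _) (zero_le_one.trans (hg1 h))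
  -- the three ranges
  have hsplit : ∑ h ∈ Icc 1 H, P h ≤ ∑ h ∈ (Icc 1 H).filter (fun h => ¬ (1 < E h)), P h +
      (∑ h ∈ (Icc 1 H).filter (fun h => 1 < E h ∧ ¬ (e1 * Real.log L < E h)), P h +
        ∑ h ∈ (Icc 1 H).filter (fun h => e1 * Real.log L < E h), P h) := by
    rw [← sum_filter_add_sum_filter_not (Icc 1 H) (fun h => ¬ (1 < E h)) P]
    apply add_le_add le_rfl
    rw [← sum_filter_add_sum_filter_not ((Icc 1 H).filter (fun h => ¬ ¬ (1 < E h)))
      (fun h => ¬ (e1 * Real.log L < E h)) P]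
    apply add_le_add
    · apply sum_le_sum_of_subset_of_nonneg _ fun h _ _ => hP0 h
      intro h hh
      rw [mem_filter, mem_filter, not_not] at hh
      exact mem_filter.2 ⟨hh.1.1, hh.1.2, hh.2⟩
    · apply sum_le_sum_of_subset_of_nonneg _ fun h _ _ => hP0 h
      intro h hh
      rw [mem_filter, mem_filter, not_not, not_not] at hh
      exact mem_filter.2 ⟨hh.1.1, hh.2⟩
  have hr1 : ∑ h ∈ (Icc 1 H).filter (fun h => ¬ (1 < E h)), P h ≤ Cp * Real.exp K * Ca * (X * (V ^ 2 * H)) := by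
    calc ∑ h ∈ (Icc 1 H).filter (fun h => ¬ (1 < E h)), P h
        ≤ ∑ h ∈ (Icc 1 H).filter (fun h => ¬ (1 < E h)), Cp * X * V ^ 2 * Real.exp K * g h := by
          apply sum_le_sum
          intro h hh
          have h9 := not_lt.1 (mem_filter.1 hh).2
          refine (hPp h).trans ?_
          have h10 : Real.exp (K * E h) ≤ Real.exp K := by
            apply Real.exp_le_exp.2
            calc (K : ℝ) * E h ≤ K * 1 := mul_le_mul_of_nonneg_left h9 (Nat.cast_nonneg _)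
              _ = K := mul_one _
          have h11 := zero_le_one.trans (hg1 h)
          calc Cp * X * V ^ 2 * (g h * Real.exp (K * E h)) ≤ Cp * X * V ^ 2 * (g h * Real.exp K) := by gcongr
            _ = _ := by ring
      _ ≤ ∑ h ∈ Icc 1 H, Cp * X * V ^ 2 * Real.exp K * g h := by
          apply sum_le_sum_of_subset_of_nonneg (filter_subset _ _)
          intro h _ _
          have h11 := zero_le_one.trans (hg1 h)
          positivity
      _ = Cp * X * V ^ 2 * Real.exp K * ∑ h ∈ Icc 1 H, g h := by rw [mul_sum]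
      _ ≤ Cp * X * V ^ 2 * Real.exp K * (Ca * H) := by gcongr
      _ = _ := by ring
  have hr2 : ∑ h ∈ (Icc 1 H).filter (fun h => 1 < E h ∧ ¬ (e1 * Real.log L < E h)), P h ≤
      Cp * (X * (V ^ 2 * H)) := by
    set M : ℝ := (Real.exp (K * C) * Real.log R0 ^ K) * L ^ (c0 / 4) with hM
    have hlogR0' : 0 ≤ Real.log R0 := Real.log_nonneg (by exact_mod_cast (by omega : 1 ≤ R0))
    have hM0 : 0 ≤ M := by positivity
    have hterm : ∀ h ∈ (Icc 1 H).filter (fun h => 1 < E h ∧ ¬ (e1 * Real.log L < E h)),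
        P h ≤ Cp * X * V ^ 2 * M := by
      intro h hh
      have h9 := not_lt.1 (mem_filter.1 hh).2.2
      refine (hPp h).trans ?_
      apply mul_le_mul_of_nonneg_left _ (by positivity)
      apply mul_le_mul (hgmax h) _ (Real.exp_pos _).le (by positivity)
      calc Real.exp (K * E h) ≤ Real.exp (K * (e1 * Real.log L)) := by
            apply Real.exp_le_exp.2
            exact mul_le_mul_of_nonneg_left h9 (Nat.cast_nonneg _)
        _ ≤ Real.exp (Real.log L * (c0 / 4)) := by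
            apply Real.exp_le_exp.2
            have := mul_le_mul_of_nonneg_right hKe1 (by linarith : 0 ≤ Real.log L)
            linarith
        _ = L ^ (c0 / 4) := by rw [Real.rpow_def_of_pos hL0]
    have hcard : (((Icc 1 H).filter (fun h => 1 < E h ∧ ¬ (e1 * Real.log L < E h))).card : ℝ) ≤ Λ := by
      have h9 := hcount 1 one_pos
      rw [div_one] at h9
      refine le_trans ?_ h9
      rw [Nat.cast_le]
      apply card_le_card
      intro h hh
      rw [mem_filter] at hh ⊢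
      exact ⟨hh.1, hh.2.1⟩
    calc ∑ h ∈ (Icc 1 H).filter (fun h => 1 < E h ∧ ¬ (e1 * Real.log L < E h)), P h
        ≤ ∑ _h ∈ (Icc 1 H).filter (fun h => 1 < E h ∧ ¬ (e1 * Real.log L < E h)), Cp * X * V ^ 2 * M :=
          sum_le_sum hterm
      _ = (((Icc 1 H).filter (fun h => 1 < E h ∧ ¬ (e1 * Real.log L < E h))).card : ℝ) * (Cp * X * V ^ 2 * M) := by
          rw [sum_const, nsmul_eq_mul]
      _ ≤ Λ * (Cp * X * V ^ 2 * M) := mul_le_mul_of_nonneg_right hcard (by positivity)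
      _ = Cp * X * V ^ 2 * (M * Λ) := by ring
      _ ≤ Cp * X * V ^ 2 * H := by
          apply mul_le_mul_of_nonneg_left _ (by positivity)
          exact r6.trans hH1
      _ = _ := by ring
  have hr3 : ∑ h ∈ (Icc 1 H).filter (fun h => e1 * Real.log L < E h), P h ≤
      2 * (l : ℝ) ^ 2 / e1 * Cu * (X * V) := by
    have hcard : (((Icc 1 H).filter (fun h => e1 * Real.log L < E h)).card : ℝ) ≤ 2 * (l : ℝ) ^ 2 / e1 := by
      refine (hcount (e1 * Real.log L) (by positivity)).trans ?_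
      rw [div_le_div_iff₀ (by positivity) he10, hΛ]
      have h9 : C2 ≤ Real.log L := (le_max_left _ _).trans r7
      have h10 : (l : ℝ) ^ 2 * (Real.log L + C2) ≤ (l : ℝ) ^ 2 * (2 * Real.log L) := by
        apply mul_le_mul_of_nonneg_left _ (by positivity)
        linarith
      calc (l : ℝ) ^ 2 * (Real.log L + C2) * e1 ≤ (l : ℝ) ^ 2 * (2 * Real.log L) * e1 := by gcongr
        _ = _ := by ring
    calc ∑ h ∈ (Icc 1 H).filter (fun h => e1 * Real.log L < E h), P h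
        ≤ ∑ _h ∈ (Icc 1 H).filter (fun h => e1 * Real.log L < E h), Cu * X * V := sum_le_sum fun h _ => hPu h
      _ = (((Icc 1 H).filter (fun h => e1 * Real.log L < E h)).card : ℝ) * (Cu * X * V) := by
          rw [sum_const, nsmul_eq_mul]
      _ ≤ (2 * (l : ℝ) ^ 2 / e1) * (Cu * X * V) := mul_le_mul_of_nonneg_right hcard (by positivity)
      _ = _ := by ring
  have hfin : ∑ h ∈ Icc 1 H, P h ≤ Cp * Real.exp K * Ca * (X * (V ^ 2 * H)) + (Cp * (X * (V ^ 2 * H)) +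
      2 * (l : ℝ) ^ 2 / e1 * Cu * (X * V)) := hsplit.trans (add_le_add hr1 (add_le_add hr2 hr3))
  refine hfin.trans ?_
  have a1 : 0 ≤ X * (V ^ 2 * H) := by positivity
  have a2 : 0 ≤ X * V := by positivity
  have b1 : 0 ≤ Cp * Real.exp K * Ca := by positivity
  have b3 : 0 ≤ 2 * (l : ℝ) ^ 2 / e1 * Cu := by positivity
  have e : (Cp * Real.exp K * Ca + Cp + 2 * (l : ℝ) ^ 2 / e1 * Cu) * X * (V ^ 2 * H + V) =
      Cp * Real.exp K * Ca * (X * (V ^ 2 * H)) + (Cp * (X * (V ^ 2 * H)) +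
      2 * (l : ℝ) ^ 2 / e1 * Cu * (X * V)) + (2 * (l : ℝ) ^ 2 / e1 * Cu * (X * (V ^ 2 * H)) +
      Cp * Real.exp K * Ca * (X * V) + Cp * (X * V)) := by ring
  rw [e]
  have : 0 ≤ 2 * (l : ℝ) ^ 2 / e1 * Cu * (X * (V ^ 2 * H)) + Cp * Real.exp K * Ca * (X * V) + Cp * (X * V) := by
    positivity
  linarith

end Pool.Agent.U28.SF
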