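import Pool.Agent.U28.SF.SF3
import Pool.Agent.U28.PG.HL3

set_option autoImplicit false

/-!
# Dense subsets of an arbitrary sifted set in all short intervals
-/

namespace Pool.Agent.U28.SF

open Finset Filter Topology
open Pool.Agent.Y843.HS (Pr VV)
open Pool.Agent.X58.IV (Adm upZ VV_split VV_pos VV_le_one fac)
open Pool.Agent.U28.PG (AllLengths to_scales al_of sparse_card)

/-- the sifting density is not too small -/
lemma VV_low (l : ℕ) (κ : ℝ) (hκ : 0 < κ) : ∃ c : ℝ, 0 < c ∧ ∃ X₀ : ℕ, ∀ X : ℕ, X₀ ≤ X → ∀ Z : ℕ → Finset ℕ,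
    Adm l Z → c / Real.log X ^ l ≤ VV Z 0 ⌊(X : ℝ) ^ κ⌋₊ := by
  obtain ⟨c, hc, hV⟩ := Pool.Agent.X58.IV.VV_ge l
  obtain ⟨X2, hX2⟩ := eventually_atTop.1 (Pool.Agent.Y840.PT.floor_pow hκ 2)
  refine ⟨c / κ ^ l, by positivity, max X2 2, ?_⟩
  intro X hX Z hZ
  obtain ⟨h1, h2, h3⟩ := hX2 X ((le_max_left _ _).trans hX)
  have hX2' : 2 ≤ X := (le_max_right _ _).trans hX
  set z := ⌊(X : ℝ) ^ κ⌋₊ with hz
  have hX0 : (0 : ℝ) < X := by exact_mod_cast (by omega : 0 < X)
  have hL0 : 0 < Real.log (X : ℝ) := Real.log_pos (by exact_mod_cast (by omega : 1 < X))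
  have hzX : (z : ℝ) ≤ (X : ℝ) ^ κ := Nat.floor_le (Real.rpow_nonneg hX0.le _)
  have hzr : (0 : ℝ) < z := by exact_mod_cast (by omega : 0 < z)
  have hz1 : (1 : ℝ) < z := by exact_mod_cast (by omega : 1 < z)
  have w0 : 0 < Real.log z := Real.log_pos hz1
  have w1 : Real.log z ≤ κ * Real.log X := by
    have := Real.log_le_log hzr hzX
    rwa [Real.log_rpow hX0] at this
  refine le_trans ?_ (hV Z hZ z h1)
  rw [div_div]
  apply div_le_div_of_nonneg_left hc.le (by positivity)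
  rw [← mul_pow]
  exact pow_le_pow_left₀ w0.le w1 l

set_option maxHeartbeats 8000000 in
open Classical in
/-- **Dense subsets of a sifted set in all short intervals.** If a set `S` of integers `n ≤ X` outside of the classes
of `Z p`, `p ≤ X ^ κ`, has at least `δ μ X` elements, where the density `V ≤ (log X) ^ (-c0)` of the sifted set is at
most `M μ`, then `S` has the right frequency in all the intervals of a positive proportion of starting points, down to
the length `1 / μ`. -/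
theorem sifted_all (l : ℕ) (κ c0 δ M : ℝ) (hκ : 0 < κ) (hc0 : 0 < c0) (hδ : 0 < δ) (hM : 0 < M) : ∃ κ1 : ℝ, 0 < κ1 ∧
    ∃ X₀ : ℕ, ∀ X : ℕ, X₀ ≤ X → ∀ Z : ℕ → Finset ℕ, Adm l Z → VV Z 0 ⌊(X : ℝ) ^ κ⌋₊ * Real.log X ^ c0 ≤ 1 →
    ∀ μ : ℝ, 0 < μ → VV Z 0 ⌊(X : ℝ) ^ κ⌋₊ ≤ M * μ → ∀ S : Finset ℕ, S ⊆ Icc 1 X → Free Z κ X S →
    δ * (μ * X) ≤ S.card → AllLengths κ1 μ X (fun n => n ∈ S) := by
  obtain ⟨C, hC, X1, hen⟩ := energy l κ hκ (c0 / 2) (by positivity)
  obtain ⟨c, hc, X2, hVlow⟩ := VV_low l κ hκ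
  obtain ⟨Cu, hCu, Xu, hup⟩ := upZ l κ hκ
  set E : ℝ := C * ((2 * M + 1) * M) with hEdef
  have hE0 : 0 < E := by positivity
  set R : ℝ := 4 * E / δ with hR
  have hR0 : 0 < R := by positivity
  have tN : Tendsto (fun N : ℕ => (N : ℝ)) atTop atTop := tendsto_natCast_atTop_atTop
  have tL : Tendsto (fun N : ℕ => Real.log (N : ℝ)) atTop atTop := Real.tendsto_log_atTop.comp tN
  have tc : Tendsto (fun N : ℕ => Real.log (N : ℝ) ^ (c0 / 2)) atTop atTop :=
    (tendsto_rpow_atTop (by positivity)).comp tL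
  have hbig : ∀ᶠ N : ℕ in atTop, Real.log (N : ℝ) ^ (2 * l) ≤ (c ^ 2 * δ / (8 * M ^ 2)) * N := by
    have h1 := (Real.isLittleO_pow_log_id_atTop (n := 2 * l)).bound (show 0 < c ^ 2 * δ / (8 * M ^ 2) by positivity)
    have h2 := tN.eventually h1
    filter_upwards [h2, tL.eventually_ge_atTop 0] with N h3 h4
    simp only [Real.norm_eq_abs, id] at h3
    rw [abs_of_nonneg (by positivity), abs_of_nonneg (Nat.cast_nonneg _)] at h3
    exact h3
  obtain ⟨X3, hX3⟩ := eventually_atTop.1 (hbig.and ((tL.eventually_ge_atTop (max 1 (2 * M / c))).and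
    (tc.eventually_ge_atTop (max 1 (Cu / δ)))))
  refine ⟨min (δ / 2 / (8 * (R + 1))) (δ / 2 / 16), by positivity, max (max X1 X2) (max X3 (max Xu 2)), ?_⟩
  intro X hX Z hZ hVc μ hμ hVM S hS hfree hcard
  have hX1 : X1 ≤ X := ((le_max_left _ _).trans (le_max_left _ _)).trans hX
  have hX2 : X2 ≤ X := ((le_max_right _ _).trans (le_max_left _ _)).trans hX
  obtain ⟨g1, g2, g3⟩ := hX3 X (((le_max_left _ _).trans (le_max_right _ _)).trans hX)
  have hXu : Xu ≤ X := (((le_max_left _ _).trans (le_max_right _ _)).trans (le_max_right _ _)).trans hX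
  have hX22 : 2 ≤ X := (((le_max_right _ _).trans (le_max_right _ _)).trans (le_max_right _ _)).trans hX
  set L := Real.log (X : ℝ) with hL
  have hL1 : 1 ≤ L := (le_max_left _ _).trans g2
  have hLc : 2 * M / c ≤ L := (le_max_right _ _).trans g2
  have hL0 : 0 < L := by linarith
  have hLc0 : 1 ≤ L ^ (c0 / 2) := (le_max_left _ _).trans g3
  have hLCu : Cu / δ ≤ L ^ (c0 / 2) := (le_max_right _ _).trans g3
  have hX0 : (0 : ℝ) < X := by exact_mod_cast (by omega : 0 < X)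
  set V := VV Z 0 ⌊(X : ℝ) ^ κ⌋₊ with hV
  have hV0 : 0 < V := VV_pos hZ 0 _
  have hVl : c / L ^ l ≤ V := hVlow X hX2 Z hZ
  have hSI : S ⊆ Ioc 0 (0 + X) := by
    intro n hn
    have := mem_Icc.1 (hS hn)
    rw [mem_Ioc]
    omega
  -- `μ` and `V` are of the same size
  have hμV : μ ≤ Cu / δ * V := by
    have h1 := hup X 0 hXu Z hZ S hSI hfree
    have h2 : δ * (μ * X) ≤ Cu * X * V := hcard.trans h1
    have h3 : (δ * μ) * X ≤ (Cu * V) * X := by linarith
    have h4 := le_of_mul_le_mul_right h3 hX0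
    rw [div_mul_eq_mul_div, le_div_iff₀ hδ, mul_comm]
    exact h4
  have hsplit : L ^ c0 = L ^ (c0 / 2) * L ^ (c0 / 2) := by
    rw [← Real.rpow_add hL0]
    congr 1
    ring
  have hμL : μ * L ^ (c0 / 2) ≤ 1 := by
    calc μ * L ^ (c0 / 2) ≤ (Cu / δ * V) * L ^ (c0 / 2) := by gcongr
      _ ≤ (L ^ (c0 / 2) * V) * L ^ (c0 / 2) := by gcongr
      _ = V * L ^ c0 := by rw [hsplit]; ring
      _ ≤ 1 := hVc
  set Q : ℝ := 1 / μ with hQ
  have hQ0 : 0 < Q := by positivity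
  have hQL : L ^ (c0 / 2) ≤ Q := by
    rw [hQ, le_div_iff₀ hμ, mul_comm]
    exact hμL
  have hQ1 : 1 ≤ Q := hLc0.trans hQL
  have hLl : 0 < L ^ l := by positivity
  have hQup : Q ≤ M * L ^ l / c := by
    rw [hQ, div_le_div_iff₀ hμ hc, one_mul]
    rw [div_le_iff₀ hLl] at hVl
    calc c ≤ V * L ^ l := hVl
      _ ≤ (M * μ) * L ^ l := by gcongr
      _ = M * L ^ l * μ := by ring
  set H0 := ⌈Q⌉₊ with hH0
  have hH01 : Q ≤ H0 := Nat.le_ceil _
  have hH02 : (H0 : ℝ) ≤ 2 * Q := by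
    have := Nat.ceil_lt_add_one hQ0.le
    linarith
  have hH0r : (1 : ℝ) ≤ H0 := hQ1.trans hH01
  have hH0pos : 1 ≤ H0 := by exact_mod_cast hH0r
  have hH0up : (H0 : ℝ) ≤ L ^ (l + 2) := by
    calc (H0 : ℝ) ≤ 2 * Q := hH02
      _ ≤ 2 * (M * L ^ l / c) := by linarith
      _ = L ^ l * (2 * M / c) := by ring
      _ ≤ L ^ l * L := by gcongr
      _ ≤ L ^ l * (L * L) := by
          apply mul_le_mul_of_nonneg_left _ hLl.le
          nlinarith
      _ = L ^ (l + 2) := by ring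
  -- the energy
  have hEn := hen X 0 hX1 Z hZ S hSI hfree H0 (hQL.trans hH01) hH0up
  set r : ℕ → ℝ := fun n => (((Icc 1 H0).filter (fun d => n + d ∈ S)).card : ℝ) with hr
  have hr0 : ∀ n, 0 ≤ r n := fun n => Nat.cast_nonneg _
  have hsum : ∑ n ∈ S, r n ≤ E * (μ * X) := by
    have q1 : ∑ n ∈ S, r n = ∑ h ∈ Icc 1 H0, ((S.filter (fun n => n + h ∈ S)).card : ℝ) := by
      simp only [hr, card_filter]
      push_cast
      rw [sum_comm]
    rw [q1]
    refine hEn.trans ?_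
    have q2 : V ^ 2 * H0 ≤ 2 * M * V := by
      calc V ^ 2 * H0 ≤ V ^ 2 * (2 * Q) := by gcongr
        _ = V * (2 * (V / μ)) := by rw [hQ]; field_simp
        _ ≤ V * (2 * M) := by
            have : V / μ ≤ M := by rw [div_le_iff₀ hμ]; exact hVM
            gcongr
        _ = _ := by ring
    calc C * X * (V ^ 2 * H0 + V) ≤ C * X * (2 * M * V + V) := by gcongr
      _ = C * X * (2 * M + 1) * V := by ring
      _ ≤ C * X * (2 * M + 1) * (M * μ) := by gcongr
      _ = _ := by rw [hEdef]; ring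
  set G := S.filter (fun n => r n ≤ R ∧ H0 ≤ n) with hG
  have hGcard : δ / 2 * (μ * X) ≤ (G.card : ℝ) := by
    have k1 : S ⊆ G ∪ (S.filter (fun n => ¬ r n ≤ R) ∪ range H0) := by
      intro n hn
      rw [mem_union, mem_union, hG, mem_filter, mem_filter, mem_range]
      by_cases h1 : r n ≤ R
      · by_cases h2 : H0 ≤ n
        · exact Or.inl ⟨hn, h1, h2⟩
        · exact Or.inr (Or.inr (not_le.1 h2))
      · exact Or.inr (Or.inl ⟨hn, h1⟩)
    have k2 : (S.card : ℝ) ≤ G.card + (((S.filter (fun n => ¬ r n ≤ R)).card : ℝ) + H0) := by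
      have e1 := card_le_card k1
      have e2 := card_union_le G (S.filter (fun n => ¬ r n ≤ R) ∪ range H0)
      have e3 := card_union_le (S.filter (fun n => ¬ r n ≤ R)) (range H0)
      rw [card_range] at e3
      have e4 : S.card ≤ G.card + ((S.filter (fun n => ¬ r n ≤ R)).card + H0) := by omega
      exact_mod_cast e4
    have k3 : R * ((S.filter (fun n => ¬ r n ≤ R)).card : ℝ) ≤ ∑ n ∈ S, r n := by
      calc R * ((S.filter (fun n => ¬ r n ≤ R)).card : ℝ) = ∑ _n ∈ S.filter (fun n => ¬ r n ≤ R), R := by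
            rw [sum_const, nsmul_eq_mul, mul_comm]
        _ ≤ ∑ n ∈ S.filter (fun n => ¬ r n ≤ R), r n :=
            sum_le_sum fun n hn => (not_le.1 (mem_filter.1 hn).2).le
        _ ≤ ∑ n ∈ S, r n := sum_le_sum_of_subset_of_nonneg (filter_subset _ _) fun n _ _ => hr0 n
    have k4 : ((S.filter (fun n => ¬ r n ≤ R)).card : ℝ) ≤ δ / 4 * (μ * X) := by
      have k5 : R * ((S.filter (fun n => ¬ r n ≤ R)).card : ℝ) ≤ R * (δ / 4 * (μ * X)) := by
        refine (k3.trans hsum).trans (le_of_eq ?_)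
        rw [hR]
        field_simp
      exact le_of_mul_le_mul_left k5 hR0
    have k6 : (H0 : ℝ) ≤ δ / 4 * (μ * X) := by
      have e1 : 2 * Q ≤ δ / 4 * (μ * X) := by
        have e3 : (c / L ^ l) ^ 2 ≤ (M * μ) ^ 2 := pow_le_pow_left₀ (by positivity) (hVl.trans hVM) 2
        have e4 : c ^ 2 / L ^ (2 * l) ≤ (M * μ) ^ 2 := by
          refine le_trans (le_of_eq ?_) e3
          rw [div_pow, ← pow_mul, mul_comm l 2]
        have e5 : 1 ≤ (δ / (8 * M ^ 2) * X) * (M * μ) ^ 2 := by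
          calc (1 : ℝ) = L ^ (2 * l) * (1 / L ^ (2 * l)) := by field_simp
            _ ≤ ((c ^ 2 * δ / (8 * M ^ 2)) * X) * (1 / L ^ (2 * l)) := by gcongr
            _ = (δ / (8 * M ^ 2) * X) * (c ^ 2 / L ^ (2 * l)) := by ring
            _ ≤ _ := by gcongr
        have e6 : (δ / (8 * M ^ 2) * X) * (M * μ) ^ 2 = δ / 8 * X * μ ^ 2 := by
          field_simp
        rw [e6] at e5
        rw [hQ, mul_one_div, div_le_iff₀ hμ]
        nlinarith
      exact hH02.trans e1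
    have k7 : δ * (μ * X) ≤ S.card := hcard
    linarith
  have hGc : δ / 2 * ((X : ℝ) / H0) ≤ G.card := by
    refine le_trans ?_ hGcard
    have e1 : μ * X = X / Q := by rw [hQ]; field_simp
    rw [e1]
    gcongr
  have hsp : ∀ b, ((G.filter (fun n => n ∈ Ioc b (b + H0))).card : ℝ) ≤ R + 1 := by
    intro b
    apply sparse_card (fun n => n ∈ S) G H0 R hR0.le
    · intro n hn
      exact (mem_filter.1 hn).1
    · intro n hn
      exact (mem_filter.1 hn).2.1
  have hts := to_scales (fun n => n ∈ S) G X H0 0 (by omega) (by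
    intro n hn
    have h1 := mem_filter.1 hn
    have h2 := mem_Icc.1 (hS h1.1)
    exact ⟨h1.2.2, by omega, by rw [add_zero]; exact h1.1⟩) hH0pos (R + 1) (δ / 2) Q (by positivity)
    (by positivity) hsp hGc hQ0 hH02
  exact al_of _ hμ rfl hH0 hts

end Pool.Agent.U28.SF
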