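import Pool.Agent.U28.SF.SF4
import Pool.Agent.U28.PG.AP1

set_option autoImplicit false

/-!
# Progressions in dense subsets of an arbitrary sifted set, in all short intervals
-/

namespace Pool.Agent.U28.SF

open Finset Filter Topology
open Pool.Agent.Y843.HS (Pr VV)
open Pool.Agent.X58.IV (Adm upZ VV_split VV_pos VV_le_one fac)
open Pool.Agent.U28.PG (AllLengths FirstAP)

lemma Free.mono {Z : ℕ → Finset ℕ} {κ : ℝ} {X : ℕ} {S S' : Finset ℕ} (h : Free Z κ X S) (hS : S' ⊆ S) :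
    Free Z κ X S' := fun n hn => h n (hS hn)

set_option maxHeartbeats 4000000 in
open Classical in
/-- **Szemerédi's theorem in all short intervals, for dense subsets of sifted sets** -/
theorem sifted_ap (l m : ℕ) (κ c0 δ M : ℝ) (hκ : 0 < κ) (hc0 : 0 < c0) (hδ : 0 < δ) (hM : 0 < M) :
    ∃ κ1 : ℝ, 0 < κ1 ∧
    ∃ B X₀ : ℕ, ∀ X : ℕ, X₀ ≤ X → ∀ Z : ℕ → Finset ℕ, Adm l Z → VV Z 0 ⌊(X : ℝ) ^ κ⌋₊ * Real.log X ^ c0 ≤ 1 →
    ∀ μ : ℝ, 0 < μ → VV Z 0 ⌊(X : ℝ) ^ κ⌋₊ ≤ M * μ → ∀ S : Finset ℕ, S ⊆ Icc 1 X → Free Z κ X S →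
    δ * (μ * X) ≤ S.card → AllLengths κ1 μ X (FirstAP m (Real.log X ^ B) S) := by
  obtain ⟨κ1, hκ1, X1, hall⟩ := sifted_all l κ c0 (δ / 2) M hκ hc0 (by positivity) hM
  obtain ⟨B, X2, hfin⟩ := Pool.Agent.Y843.HS.fin m l κ (δ / (2 * M)) hκ (by positivity)
  refine ⟨κ1, hκ1, B, max X1 (max X2 2), ?_⟩
  intro X hX Z hZ hVc μ hμ hVM S hS hfree hcard
  have hX1 : X1 ≤ X := (le_max_left _ _).trans hX
  have hX2 : X2 ≤ X := ((le_max_left _ _).trans (le_max_right _ _)).trans hX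
  have hX22 : 2 ≤ X := ((le_max_right _ _).trans (le_max_right _ _)).trans hX
  have hX0 : (0 : ℝ) < X := by exact_mod_cast (by omega : 0 < X)
  set V := VV Z 0 ⌊(X : ℝ) ^ κ⌋₊ with hV
  set A1 := S.filter (FirstAP m (Real.log X ^ B) S) with hA1
  set U := S.filter (fun n => ¬ FirstAP m (Real.log X ^ B) S n) with hU
  have hsplit : (S.card : ℝ) = A1.card + U.card := by
    rw [hA1, hU, ← Nat.cast_add, card_filter_add_card_filter_not]
  have hUsmall : (U.card : ℝ) < δ / 2 * (μ * X) := by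
    by_contra hcon
    rw [not_lt] at hcon
    have hUS : U ⊆ S := filter_subset _ _
    have q1 : δ / (2 * M) * X * V ≤ U.card := by
      refine le_trans ?_ hcon
      calc δ / (2 * M) * X * V ≤ δ / (2 * M) * X * (M * μ) := by gcongr
        _ = δ / 2 * (μ * X) := by field_simp
    have hUI : U ⊆ Ioc 0 (0 + X) := by
      intro n hn
      have := mem_Icc.1 (hS (hUS hn))
      rw [mem_Ioc]
      omega
    obtain ⟨a, d, hd1, hd2, hmem⟩ := hfin X 0 hX2 Z (fun p hp _ => hZ p hp) U hUI (hfree.mono hUS) q1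
    by_cases hm : 1 ≤ m
    · have ha := hmem 0 (by omega)
      rw [zero_mul, add_zero, hU, mem_filter] at ha
      exact ha.2 ⟨d, hd1, hd2, fun j hj => hUS (hmem j hj)⟩
    · have hne : U.Nonempty := by
        rw [← card_pos]
        have : (0 : ℝ) < U.card := lt_of_lt_of_le (by positivity) hcon
        exact_mod_cast this
      obtain ⟨n, hn⟩ := hne
      exact (mem_filter.1 hn).2 ⟨d, hd1, hd2, fun j hj => absurd hj (by omega)⟩
  have hA1c : δ / 2 * (μ * X) ≤ (A1.card : ℝ) := by linarith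
  have key := hall X hX1 Z hZ hVc μ hμ hVM A1 ((filter_subset _ _).trans hS) (hfree.mono (filter_subset _ _)) hA1c
  exact Pool.Agent.U28.PG.AllLengths.mono' (fun n hn => (mem_filter.1 hn).2) key

end Pool.Agent.U28.SF
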