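import Pool.Agent.U28.SF.SF5
import Pool.Agent.Y840.PT.Avg

set_option autoImplicit false

/-!
# Linear forms: the sifting density and the singular series
-/

namespace Pool.Agent.U28.SF

open Finset Filter Topology
open Pool.Agent.Y843.HS (Pr VV)
open Pool.Agent.X58.IV (Adm upZ VV_split VV_pos VV_le_one fac)
open Pool.Agent.U28.PG (AllLengths FirstAP)

/-- the sum of `1 / p` over the prime factors of an integer of size a power of `X` -/
lemma sum_dvd_le {C : ℝ} (hC : ∀ N : ℕ, 3 ≤ N →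
    |∑ p ∈ (Finset.Icc 1 N).filter Nat.Prime, (1 : ℝ) / p - Real.log (Real.log N)| ≤ C) {a y : ℕ} (ha : 1 ≤ a)
    (hy : 3 ≤ y) {K : ℝ} (hK : Real.log a ≤ K * y) (s : Finset ℕ) (hs : ∀ p ∈ s, p.Prime ∧ p ∣ a) :
    ∑ p ∈ s, (1 : ℝ) / p ≤ Real.log (Real.log y) + C + 2 * K := by
  classical
  have hy0 : (0 : ℝ) < y := by exact_mod_cast (by omega : 0 < y)
  rw [← sum_filter_add_sum_filter_not s (fun p => p ≤ y)]
  have h1 : ∑ p ∈ s.filter (fun p => p ≤ y), (1 : ℝ) / p ≤ Real.log (Real.log y) + C := by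
    have h5 := (abs_le.1 (hC y hy)).2
    have h6 : ∑ p ∈ s.filter (fun p => p ≤ y), (1 : ℝ) / p ≤ ∑ p ∈ (Icc 1 y).filter Nat.Prime, (1 : ℝ) / p := by
      apply Finset.sum_le_sum_of_subset_of_nonneg
      · intro p hp
        rw [mem_filter] at hp
        rw [mem_filter, mem_Icc]
        exact ⟨⟨(hs p hp.1).1.one_lt.le, hp.2⟩, (hs p hp.1).1⟩
      · intro p _ _
        positivity
    linarith
  have h2 : ∑ p ∈ s.filter (fun p => ¬ p ≤ y), (1 : ℝ) / p ≤ 2 * K := by
    have hsub : s.filter (fun p => ¬ p ≤ y) ⊆ a.primeFactors := by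
      intro p hp
      have hp' := (mem_filter.1 hp).1
      exact Nat.mem_primeFactors.2 ⟨(hs p hp').1, (hs p hp').2, by omega⟩
    have hcard : ((s.filter (fun p => ¬ p ≤ y)).card : ℝ) ≤ 2 * Real.log a := by
      have e1 : (2 : ℕ) ^ a.primeFactors.card ≤ a := by
        calc (2 : ℕ) ^ a.primeFactors.card = ∏ _p ∈ a.primeFactors, 2 := by rw [prod_const]
          _ ≤ ∏ p ∈ a.primeFactors, p := prod_le_prod' fun p hp => (Nat.prime_of_mem_primeFactors hp).two_le
          _ ≤ a := Nat.le_of_dvd (by omega) (Nat.prod_primeFactors_dvd a)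
      have e2 : (a.primeFactors.card : ℝ) * Real.log 2 ≤ Real.log a := by
        rw [← Real.log_pow]
        apply Real.log_le_log (by positivity)
        exact_mod_cast e1
      have e3 := Real.log_two_gt_d9
      have e4 : ((s.filter (fun p => ¬ p ≤ y)).card : ℝ) ≤ a.primeFactors.card := by
        exact_mod_cast card_le_card hsub
      have e5 : (0 : ℝ) ≤ a.primeFactors.card := Nat.cast_nonneg _
      nlinarith
    calc ∑ p ∈ s.filter (fun p => ¬ p ≤ y), (1 : ℝ) / p ≤ ∑ _p ∈ s.filter (fun p => ¬ p ≤ y), 1 / (y : ℝ) := by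
          apply sum_le_sum
          intro p hp
          have hp' := not_le.1 (mem_filter.1 hp).2
          apply one_div_le_one_div_of_le hy0
          exact_mod_cast hp'.le
      _ = ((s.filter (fun p => ¬ p ≤ y)).card : ℝ) * (1 / y) := by rw [sum_const, nsmul_eq_mul]
      _ ≤ (2 * Real.log a) * (1 / y) := by gcongr
      _ ≤ (2 * (K * y)) * (1 / y) := by gcongr
      _ = 2 * K := by field_simp
  linarith

set_option maxHeartbeats 4000000 in
/-- the density of the sifted set is small, if `Z p` is empty only for the prime factors of some `a ≤ X ^ A` -/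
lemma VV_small (l : ℕ) (κ A : ℝ) (hκ : 0 < κ) (hA : 0 ≤ A) : ∀ᶠ X : ℕ in atTop, ∀ Z : ℕ → Finset ℕ, Adm l Z →
    ∀ a : ℕ, 1 ≤ a → (a : ℝ) ≤ (X : ℝ) ^ A → (∀ p : ℕ, p.Prime → ¬ p ∣ a → 1 ≤ (Z p).card) →
    VV Z 0 ⌊(X : ℝ) ^ κ⌋₊ * Real.log X ^ (1 / 2 : ℝ) ≤ 1 := by
  classical
  obtain ⟨C, hC⟩ := Pool.Agent.Helper256.KM.mertens_inv
  have tN : Tendsto (fun N : ℕ => (N : ℝ)) atTop atTop := tendsto_natCast_atTop_atTop
  have tL : Tendsto (fun N : ℕ => Real.log (N : ℝ)) atTop atTop := Real.tendsto_log_atTop.comp tN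
  have tLL : Tendsto (fun N : ℕ => Real.log (Real.log (N : ℝ))) atTop atTop := Real.tendsto_log_atTop.comp tL
  set D : ℝ := 2 * C + 4 * A - Real.log (κ / 2) with hD
  filter_upwards [Pool.Agent.Y840.PT.floor_pow hκ 3, tL.eventually_ge_atTop 4, tLL.eventually_ge_atTop (4 * (|D| + 1)),
    tLL.eventually ((Real.isLittleO_log_id_atTop).bound (show (0 : ℝ) < 1 / 4 by norm_num))] with X h1 h2 h3 h4
  intro Z hZ a ha haX hZa
  obtain ⟨f1, f2, f3⟩ := h1
  set z := ⌊(X : ℝ) ^ κ⌋₊ with hz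
  set L := Real.log (X : ℝ) with hL
  have hL0 : 0 < L := by linarith
  have hX0 : (0 : ℝ) < X := by
    by_contra hcon
    have : (X : ℝ) = 0 := le_antisymm (not_lt.1 hcon) (Nat.cast_nonneg _)
    rw [hL, this, Real.log_zero] at hL0
    exact lt_irrefl _ hL0
  set u := Real.log L with hu
  have hu1 : 4 ≤ u := by
    have : 0 ≤ |D| := abs_nonneg _
    linarith
  have hu0 : 0 < u := by linarith
  set y := ⌊L⌋₊ with hy
  have hyL : (y : ℝ) ≤ L := Nat.floor_le hL0.le
  have hyL' : L - 1 < y := by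
    have := Nat.lt_floor_add_one L
    rw [← hy] at this
    linarith
  have hy3 : 3 ≤ y := by
    have : (3 : ℝ) < y := by linarith
    exact_mod_cast this.le
  have hyr : (3 : ℝ) ≤ y := by exact_mod_cast hy3
  -- the product
  have hprod : VV Z 0 z ≤ Real.exp (- ∑ p ∈ (Pr 0 z).filter (fun p => ¬ p ∣ a), (1 : ℝ) / p) := by
    unfold VV
    have e1 : ∀ p ∈ Pr 0 z, 1 - ((Z p).card : ℝ) / p ≤ Real.exp (- (if ¬ p ∣ a then (1 : ℝ) / p else 0)) := by
      intro p hp
      have hpp := (mem_filter.1 hp).2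
      have hp0 : (0 : ℝ) < p := by exact_mod_cast hpp.pos
      split_ifs with h9
      · rw [neg_zero, Real.exp_zero]
        have : 0 ≤ ((Z p).card : ℝ) / p := by positivity
        linarith
      · refine le_trans ?_ (Real.one_sub_le_exp_neg _)
        have h10 : (1 : ℝ) ≤ (Z p).card := by exact_mod_cast hZa p hpp h9
        have : (1 : ℝ) / p ≤ ((Z p).card : ℝ) / p := by gcongr
        linarith
    calc ∏ p ∈ Pr 0 z, (1 - ((Z p).card : ℝ) / p) ≤
          ∏ p ∈ Pr 0 z, Real.exp (- (if ¬ p ∣ a then (1 : ℝ) / p else 0)) := by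
          apply prod_le_prod _ e1
          intro p hp
          have := (fac hZ (mem_filter.1 hp).2).1
          have hp0 : (0 : ℝ) < p := by exact_mod_cast (mem_filter.1 hp).2.pos
          exact le_trans (by positivity) this
      _ = _ := by
          rw [← Real.exp_sum, sum_neg_distrib, ← sum_filter]
  have hsum : ∑ p ∈ (Pr 0 z).filter (fun p => ¬ p ∣ a), (1 : ℝ) / p =
      ∑ p ∈ Pr 0 z, (1 : ℝ) / p - ∑ p ∈ (Pr 0 z).filter (fun p => p ∣ a), (1 : ℝ) / p := by
    rw [← sum_filter_add_sum_filter_not (Pr 0 z) (fun p => p ∣ a)]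
    ring
  have hs1 : Real.log (Real.log z) - C ≤ ∑ p ∈ Pr 0 z, (1 : ℝ) / p := by
    have h5 := (abs_le.1 (hC z f1)).1
    have e : Pr 0 z = (Icc 1 z).filter Nat.Prime := by
      unfold Pr
      ext p
      rw [mem_filter, mem_filter, mem_Ioc, mem_Icc]
      constructor
      · rintro ⟨⟨h1, h2⟩, h3⟩; exact ⟨⟨by omega, h2⟩, h3⟩
      · rintro ⟨⟨h1, h2⟩, h3⟩; exact ⟨⟨by omega, h2⟩, h3⟩
    rw [e]
    linarith
  have hs2 : ∑ p ∈ (Pr 0 z).filter (fun p => p ∣ a), (1 : ℝ) / p ≤ Real.log (Real.log y) + C + 2 * (2 * A) := by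
    apply sum_dvd_le hC ha hy3 (K := 2 * A)
    · have e1 : Real.log a ≤ A * L := by
        have := Real.log_le_log (by exact_mod_cast (by omega : 0 < a)) haX
        rwa [Real.log_rpow hX0] at this
      have e2 : L ≤ 2 * y := by linarith
      calc Real.log a ≤ A * L := e1
        _ ≤ A * (2 * y) := by gcongr
        _ = _ := by ring
    · intro p hp
      rw [mem_filter] at hp
      exact ⟨(mem_filter.1 hp.1).2, hp.2⟩
  have hz1 : 0 < κ / 2 * L := by positivity
  have hlz : Real.log (κ / 2) + u ≤ Real.log (Real.log z) := by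
    have := Real.log_le_log hz1 f3
    rwa [Real.log_mul (by positivity) hL0.ne'] at this
  have hly : Real.log (Real.log y) ≤ Real.log u := by
    have e1 : 0 < Real.log y := Real.log_pos (by linarith)
    apply Real.log_le_log e1
    exact Real.log_le_log (by linarith) hyL
  have hlu : Real.log u ≤ u / 4 := by
    have := h4
    simp only [Real.norm_eq_abs, id] at this
    rw [abs_of_nonneg hu0.le] at this
    have h6 := le_abs_self (Real.log u)
    linarith
  have hDu : D ≤ u / 4 := by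
    have := le_abs_self D
    linarith
  have hfin : - ∑ p ∈ (Pr 0 z).filter (fun p => ¬ p ∣ a), (1 : ℝ) / p ≤ - (u / 2) := by
    rw [hsum]
    have : - (∑ p ∈ Pr 0 z, (1 : ℝ) / p - ∑ p ∈ (Pr 0 z).filter (fun p => p ∣ a), (1 : ℝ) / p) ≤
        - (Real.log (κ / 2) + u) + C + (u / 4 + C + 2 * (2 * A)) := by linarith
    rw [hD] at hDu
    linarith
  have hLu : L ^ (1 / 2 : ℝ) = Real.exp (u / 2) := by
    rw [Real.rpow_def_of_pos hL0, ← hu]
    congr 1
    ring
  calc VV Z 0 z * L ^ (1 / 2 : ℝ) ≤ Real.exp (- (u / 2)) * Real.exp (u / 2) := by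
        rw [hLu]
        apply mul_le_mul_of_nonneg_right _ (Real.exp_pos _).le
        exact hprod.trans (Real.exp_le_exp.2 hfin)
    _ = 1 := by rw [← Real.exp_add]; simp

end Pool.Agent.U28.SF
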