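import Pool.Agent.U28.SF.SF6

set_option autoImplicit false

/-!
# Dense sets of prime points of linear forms, in all short intervals
-/

namespace Pool.Agent.U28.SF

open Finset Filter Topology
open Pool.Agent.Y843.HS (Pr VV)
open Pool.Agent.X58.IV (Adm upZ VV_split VV_pos VV_le_one fac)
open Pool.Agent.U28.PG (AllLengths FirstAP)
open Pool.Agent.W218.MU (SL Prim w w_le)
open Pool.Agent.Y840.PT (ZT card_ZT mem_ZT V_le SL_ge adm_of_pos floor_pow sqrt_small)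

lemma ZT_adm {T : Finset (ℕ × ℕ)} {l : ℕ} (hT : Prim T) (hc : T.card = l) (hS : 0 < SL T) : Adm l (ZT T) := by
  intro p hp
  refine ⟨?_, adm_of_pos hT hS p hp, ?_⟩
  · rw [card_ZT, ← hc]; exact w_le hT hp
  · intro c hcz
    exact mem_range.1 (mem_filter.1 hcz).1

/-- a form has a root modulo every prime which does not divide its leading coefficient -/
lemma ZT_root {T : Finset (ℕ × ℕ)} {L : ℕ × ℕ} (hL : L ∈ T) {p : ℕ} (hp : p.Prime) (h : ¬ p ∣ L.1) :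
    1 ≤ (ZT T p).card := by
  have hcop : Nat.Coprime L.1 p := ((Nat.Prime.coprime_iff_not_dvd hp).2 h).symm
  obtain ⟨c, hc⟩ := Nat.exists_mul_mod_eq_of_coprime (p - L.2 % p) hcop (by have := hp.pos; omega)
  rw [Nat.one_le_iff_ne_zero, Ne, card_eq_zero, ← Ne, ← nonempty_iff_ne_empty]
  refine ⟨c % p, (mem_ZT T hp.pos c).2 ⟨L, hL, ?_⟩⟩
  have h1 : L.1 * c ≡ (p - L.2 % p) [MOD p] := hc.2
  have h2 : L.1 * c + L.2 ≡ (p - L.2 % p) + L.2 % p [MOD p] := h1.add (Nat.mod_modEq _ _).symm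
  rw [Nat.sub_add_cancel (Nat.mod_lt _ hp.pos).le] at h2
  exact (Nat.modEq_zero_iff_dvd.1 (h2.trans (by simp [Nat.ModEq])))

set_option maxHeartbeats 4000000 in
open Classical in
/-- **Dense sets of prime points of `l` linear forms.**  The leading coefficients are at most `X ^ A`, the constant
terms are arbitrary. -/
theorem forms_all (l m : ℕ) (hl : 1 ≤ l) (A δ : ℝ) (hA : 0 ≤ A) (hδ : 0 < δ) : ∃ κ1 : ℝ, 0 < κ1 ∧
    ∃ B : ℕ, ∀ᶠ X : ℕ in atTop, ∀ T : Finset (ℕ × ℕ), Prim T → T.card = l →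
    (∀ L ∈ T, (L.1 : ℝ) ≤ (X : ℝ) ^ A) → 0 < SL T →
    ∀ D : Finset ℕ, (∀ n ∈ D, 1 ≤ n ∧ n ≤ X ∧ ∀ L ∈ T, (L.1 * n + L.2).Prime) →
    δ * (SL T * (X / Real.log X ^ l)) ≤ D.card →
    AllLengths κ1 (SL T / Real.log X ^ l) X (FirstAP m (Real.log X ^ B) D) := by
  obtain ⟨C, hC, y₀, hy₀, hV⟩ := V_le l
  obtain ⟨c, hc, hSLge⟩ := SL_ge l
  set M : ℝ := C * 4 ^ l with hM
  have hM0 : 0 < M := by positivity
  obtain ⟨κ1, hκ1, B, X1, hap⟩ := sifted_ap l m (1 / 2) (1 / 2) (δ / 2) M (by norm_num) (by norm_num) (by positivity) hM0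
  refine ⟨κ1, hκ1, B, ?_⟩
  have tN : Tendsto (fun N : ℕ => (N : ℝ)) atTop atTop := tendsto_natCast_atTop_atTop
  filter_upwards [eventually_ge_atTop X1, floor_pow (κ := 1 / 2) (by norm_num) y₀, VV_small l (1 / 2) A (by norm_num) hA,
    tN.eventually (sqrt_small l (δ / 2 * c) (by positivity)), eventually_ge_atTop 3] with X h1 h2 h3 h4 h5
  intro T hT hTc hTA hSL D hD hDc
  obtain ⟨f1, f2, f3⟩ := h2
  have hX0 : (0 : ℝ) < X := by exact_mod_cast (by omega : 0 < X)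
  have hL0 : 0 < Real.log (X : ℝ) := Real.log_pos (by exact_mod_cast (by omega : 1 < X))
  have hLl : 0 < Real.log (X : ℝ) ^ l := by positivity
  have hZ : Adm l (ZT T) := ZT_adm hT hTc hSL
  obtain ⟨L0, hL0T⟩ : T.Nonempty := card_pos.1 (by omega)
  have hVs : VV (ZT T) 0 ⌊(X : ℝ) ^ (1 / 2 : ℝ)⌋₊ * Real.log X ^ (1 / 2 : ℝ) ≤ 1 :=
    h3 (ZT T) hZ L0.1 (hT L0 hL0T).1 (hTA L0 hL0T) (fun p hp hpL => ZT_root hL0T hp hpL)
  set μ : ℝ := SL T / Real.log X ^ l with hμ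
  have hμ0 : 0 < μ := by positivity
  have hVM : VV (ZT T) 0 ⌊(X : ℝ) ^ (1 / 2 : ℝ)⌋₊ ≤ M * μ := by
    have e : VV (ZT T) 0 ⌊(X : ℝ) ^ (1 / 2 : ℝ)⌋₊ =
      ∏ p ∈ Pool.Agent.Y840.PT.P0 ⌊(X : ℝ) ^ (1 / 2 : ℝ)⌋₊, (1 - (w T p : ℝ) / p) := rfl
    rw [e]
    refine (hV T hT hTc _ f1).trans ?_
    have g1 : (Real.log X / 4) ^ l ≤ Real.log (⌊(X : ℝ) ^ (1 / 2 : ℝ)⌋₊ : ℕ) ^ l := by
      apply pow_le_pow_left₀ (by positivity)
      linarith
    calc C * SL T / Real.log (⌊(X : ℝ) ^ (1 / 2 : ℝ)⌋₊ : ℕ) ^ l ≤ C * SL T / (Real.log X / 4) ^ l :=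
          div_le_div_of_nonneg_left (by positivity) (by positivity) g1
      _ = M * μ := by
          rw [hM, hμ, div_pow]
          field_simp
  have hsq : Real.sqrt X ≤ δ / 2 * (SL T * (X / Real.log X ^ l)) := by
    refine h4.trans ?_
    have g1 : c ≤ SL T := hSLge T hT hTc (adm_of_pos hT hSL)
    have g2 : 0 ≤ (X : ℝ) / Real.log X ^ l := by positivity
    calc δ / 2 * c * (X / Real.log X ^ l) ≤ δ / 2 * SL T * (X / Real.log X ^ l) := by gcongr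
      _ = _ := by ring
  set D' : Finset ℕ := D.filter (fun n : ℕ => Real.sqrt X < (n : ℝ)) with hD'
  have hD'c : δ / 2 * (μ * X) ≤ D'.card := by
    have k1 : D ⊆ D' ∪ Icc 1 ⌊Real.sqrt X⌋₊ := by
      intro n hn
      rw [mem_union, hD', mem_filter, mem_Icc]
      by_cases h : Real.sqrt X < n
      · exact Or.inl ⟨hn, h⟩
      · exact Or.inr ⟨(hD n hn).1, Nat.le_floor (not_lt.1 h)⟩
    have k2 : (D.card : ℝ) ≤ D'.card + ⌊Real.sqrt X⌋₊ := by
      have e1 := (card_le_card k1).trans (card_union_le _ _)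
      rw [Nat.card_Icc, Nat.add_sub_cancel] at e1
      exact_mod_cast e1
    have k3 : (⌊Real.sqrt X⌋₊ : ℝ) ≤ Real.sqrt X := Nat.floor_le (Real.sqrt_nonneg _)
    have k4 : δ * (μ * X) = δ * (SL T * (X / Real.log X ^ l)) := by rw [hμ]; ring
    have k5 : δ / 2 * (μ * X) = δ / 2 * (SL T * (X / Real.log X ^ l)) := by rw [hμ]; ring
    rw [k5]
    linarith
  have key := hap X h1 (ZT T) hZ hVs μ hμ0 hVM D' (by
    intro n hn
    obtain ⟨a1, a2, _⟩ := hD n (mem_filter.1 hn).1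
    exact mem_Icc.2 ⟨a1, a2⟩) (by
    intro n hn p hp hpX hcon
    rw [hD', mem_filter] at hn
    obtain ⟨L, hLT, hd⟩ := (mem_ZT T hp.pos n).1 hcon
    have hpr := (hD n hn.1).2.2 L hLT
    have heq := (Nat.prime_dvd_prime_iff_eq hp hpr).1 hd
    have h6 : (p : ℝ) ≤ Real.sqrt X := by
      rw [Real.sqrt_eq_rpow]
      exact hpX
    have h7 : n ≤ p := by
      rw [heq]
      have := (hT L hLT).1
      nlinarith
    have h8 : (n : ℝ) ≤ p := by exact_mod_cast h7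
    linarith [hn.2]) hD'c
  refine Pool.Agent.U28.PG.AllLengths.mono' ?_ key
  rintro n ⟨d, hd1, hd2, hd3⟩
  exact ⟨d, hd1, hd2, fun j hj => (mem_filter.1 (hd3 j hj)).1⟩

end Pool.Agent.U28.SF
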