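import Pool.Agent.U28.SF.SF7
import Pool.Agent.NH16.QL.All

set_option autoImplicit false

/-!
# Dilates `q r + 1` in all short intervals
-/

namespace Pool.Agent.U28.SF

open Finset Filter Topology
open Pool.Agent.U28.PG (AllLengths FirstAP)
open Pool.Agent.W218.MU (SL Prim w SD ND em SL_map prim_map)

/-- the `1 ≤ q ≤ N` with all `q r + 1`, `r ∈ T`, prime -/
def QN (N : ℕ) (T : Finset ℕ) : Finset ℕ := (Icc 1 N).filter (fun q => ∀ r ∈ T, (q * r + 1).Prime)

open Classical in
/-- the right order of magnitude, and the right order of first terms of progressions of `m` terms with difference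
`≤ D` in all short intervals for every subset of relative density `ρ` -/
def GoodD (κ ρ : ℝ) (k m : ℕ) (D : ℝ) (N : ℕ) (T : Finset ℕ) : Prop :=
  0 < SD T ∧ κ * (SD T * (N / Real.log N ^ (k + 1))) ≤ (QN N T).card ∧ ∀ U ⊆ QN N T, ρ * (QN N T).card ≤ U.card →
    AllLengths κ (SD T / Real.log N ^ (k + 1)) N (FirstAP m D U)

lemma SD_nonneg {T : Finset ℕ} (hT : ∀ r ∈ T, 1 ≤ r) : 0 ≤ SD T := by
  rw [← SL_map]
  exact Pool.Agent.W218.MU.SL_nonneg (prim_map hT)

set_option maxHeartbeats 4000000 in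
open Classical in
/-- **the dilates** -/
theorem dil_all (k m : ℕ) (hk : 1 ≤ k) (ε lam ρ : ℝ) (hε : 0 < ε) (hlam : 0 < lam) (hρ : 0 < ρ) : ∃ κ : ℝ, 0 < κ ∧
    ∃ B : ℕ, ∀ C : ℝ, ∀ᶠ N : ℕ in atTop, ∀ A : Finset ℕ, (∀ r ∈ A, 1 ≤ r ∧ (r : ℝ) ≤ Real.log N ^ C) →
    lam * Real.log N ≤ ∑ r ∈ A, (r : ℝ) / Nat.totient r →
    ((1 / 4 : ℝ) ^ k - ε) * ∑ T ∈ A.powersetCard (k + 1), SD T ≤
      ∑ T ∈ (A.powersetCard (k + 1)).filter (GoodD κ ρ k m (Real.log N ^ B) N), SD T := by
  obtain ⟨κ1, hκ1, hfin⟩ := Pool.Agent.NH16.QL.fin_holds k ε lam hk hε hlam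
  set κ2 : ℝ := κ1 / 3 with hκ2
  have hκ20 : 0 < κ2 := by positivity
  obtain ⟨κ3, hκ3, B, hfo⟩ := forms_all (k + 1) m (by omega) 1 (ρ * κ2) zero_le_one (by positivity)
  refine ⟨min κ2 κ3, lt_min hκ20 hκ3, B, fun C => ?_⟩
  obtain ⟨x₀, hx₀⟩ := hfin (|C| + 1)
  have tN : Tendsto (fun N : ℕ => (N : ℝ)) atTop atTop := tendsto_natCast_atTop_atTop
  have tL : Tendsto (fun N : ℕ => Real.log (N : ℝ)) atTop atTop := Real.tendsto_log_atTop.comp tN
  have hpow : ∀ᶠ N : ℕ in atTop, Real.log (N : ℝ) ^ |C| ≤ N := by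
    have h1 := (isLittleO_log_rpow_rpow_atTop |C| (show (0 : ℝ) < 1 by norm_num)).bound (show (0 : ℝ) < 1 by norm_num)
    filter_upwards [tN.eventually h1, tL.eventually_ge_atTop 0] with N h3 h4
    simp only [Real.norm_eq_abs, one_mul, Real.rpow_one] at h3
    have h5 : (0 : ℝ) ≤ N := Nat.cast_nonneg N
    rw [abs_of_nonneg h5] at h3
    exact (le_abs_self _).trans h3
  filter_upwards [hfo, hpow, tL.eventually_ge_atTop (2 * (2 : ℝ) ^ |C| + 4), eventually_ge_atTop (2 * x₀ + 6)]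
    with N h1 h2 h3 h4
  intro A hA hsum
  set x := N / 2 with hx
  have hxN : 2 * x ≤ N := by omega
  have hxx₀ : x₀ ≤ x := by omega
  have hx3 : 3 ≤ x := by omega
  have hNr : (0 : ℝ) < N := by exact_mod_cast (by omega : 0 < N)
  have hxr : (0 : ℝ) < x := by exact_mod_cast (by omega : 0 < x)
  have hx3N : (N : ℝ) ≤ 3 * x := by
    have : N ≤ 3 * x := by omega
    exact_mod_cast this
  set L := Real.log (N : ℝ) with hL
  set lx := Real.log (x : ℝ) with hlx
  have h2C : (1 : ℝ) ≤ (2 : ℝ) ^ |C| := Real.one_le_rpow (by norm_num) (abs_nonneg C)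
  have hLx : L ≤ lx + 2 := by
    have e1 := Real.log_le_log hNr hx3N
    rw [Real.log_mul (by norm_num) hxr.ne'] at e1
    have e2 : Real.log 3 ≤ 2 := by
      have := Real.log_le_sub_one_of_pos (show (0 : ℝ) < 3 by norm_num)
      linarith
    linarith
  have hlx1 : (2 : ℝ) ^ |C| ≤ lx := by linarith
  have hlx2 : L ≤ 2 * lx := by linarith
  have hlx0 : 0 < lx := by linarith
  have hL0 : 0 < L := by linarith
  have hL1 : 1 ≤ L := by linarith
  have hlxL : lx ≤ L := Real.log_le_log hxr (by exact_mod_cast (by omega : x ≤ N))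
  have hA' : ∀ r ∈ A, 1 ≤ r ∧ (r : ℝ) ≤ lx ^ (|C| + 1) := by
    intro r hr
    obtain ⟨a1, a2⟩ := hA r hr
    refine ⟨a1, a2.trans ?_⟩
    calc L ^ C ≤ L ^ |C| := Real.rpow_le_rpow_of_exponent_le hL1 (le_abs_self C)
      _ ≤ (2 * lx) ^ |C| := Real.rpow_le_rpow hL0.le hlx2 (abs_nonneg C)
      _ = (2 : ℝ) ^ |C| * lx ^ |C| := Real.mul_rpow (by norm_num) hlx0.le
      _ ≤ lx * lx ^ |C| := by
          apply mul_le_mul_of_nonneg_right hlx1 (Real.rpow_nonneg hlx0.le _)
      _ = lx ^ (|C| + 1) := by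
          rw [Real.rpow_add hlx0, Real.rpow_one]
          ring
  have hsum' : lam * lx ≤ ∑ r ∈ A, (r : ℝ) / Nat.totient r :=
    (mul_le_mul_of_nonneg_left hlxL hlam.le).trans hsum
  refine (hx₀ x hxx₀ A hA' hsum').trans ?_
  set F := (A.powersetCard (k + 1)).filter
    (fun T => κ1 * SD T * (x / lx ^ (k + 1)) ≤ ND x T) with hF
  rw [← sum_filter_add_sum_filter_not F (fun T => 0 < SD T)]
  have hz : ∑ T ∈ F.filter (fun T => ¬ 0 < SD T), SD T ≤ 0 :=
    sum_nonpos fun T hT => not_lt.1 (mem_filter.1 hT).2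
  have hmain : ∑ T ∈ F.filter (fun T => 0 < SD T), SD T ≤
      ∑ T ∈ (A.powersetCard (k + 1)).filter (GoodD (min κ2 κ3) ρ k m (L ^ B) N), SD T := by
    apply sum_le_sum_of_subset_of_nonneg
    · intro T hT
      rw [mem_filter, hF, mem_filter, mem_powersetCard] at hT
      obtain ⟨⟨⟨hTA, hTc⟩, hTN⟩, hTp⟩ := hT
      rw [mem_filter, mem_powersetCard]
      refine ⟨⟨hTA, hTc⟩, hTp, ?_⟩
      have hcard : κ2 * (SD T * (N / L ^ (k + 1))) ≤ (QN N T).card := by
        have e1 : (ND x T : ℝ) ≤ (QN N T).card := by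
          unfold ND QN
          rw [Nat.cast_le]
          apply card_le_card
          intro q hq
          rw [mem_filter, mem_Ico] at hq
          rw [mem_filter, mem_Icc]
          exact ⟨⟨by omega, by omega⟩, hq.2⟩
        have hlp : 0 < lx ^ (k + 1) := by positivity
        have e2 : (N : ℝ) / L ^ (k + 1) ≤ 3 * (x / lx ^ (k + 1)) := by
          calc (N : ℝ) / L ^ (k + 1) ≤ (3 * x) / L ^ (k + 1) := by gcongr
            _ ≤ (3 * x) / lx ^ (k + 1) := by
                apply div_le_div_of_nonneg_left (by positivity) hlp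
                exact pow_le_pow_left₀ hlx0.le hlxL _
            _ = _ := by ring
        calc κ2 * (SD T * (N / L ^ (k + 1))) ≤ κ2 * (SD T * (3 * (x / lx ^ (k + 1)))) := by gcongr
          _ = κ1 * SD T * (x / lx ^ (k + 1)) := by rw [hκ2]; ring
          _ ≤ _ := hTN.trans e1
      refine ⟨?_, ?_⟩
      · refine le_trans ?_ hcard
        apply mul_le_mul_of_nonneg_right (min_le_left _ _)
        positivity
      · intro U hU hUc
        have hT1 : ∀ r ∈ T, 1 ≤ r := fun r hr => (hA r (hTA hr)).1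
        have key := h1 (T.map em) (prim_map hT1) (by rw [card_map, hTc]) (by
          intro Lf hLf
          rw [Finset.mem_map] at hLf
          obtain ⟨r, hr, rfl⟩ := hLf
          show (r : ℝ) ≤ (N : ℝ) ^ (1 : ℝ)
          rw [Real.rpow_one]
          refine (hA r (hTA hr)).2.trans (le_trans ?_ h2)
          exact Real.rpow_le_rpow_of_exponent_le hL1 (le_abs_self C)) (by rw [SL_map]; exact hTp) U (by
          intro n hn
          have h9 := hU hn
          unfold QN at h9
          rw [mem_filter, mem_Icc] at h9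
          refine ⟨h9.1.1, h9.1.2, ?_⟩
          intro Lf hLf
          rw [Finset.mem_map] at hLf
          obtain ⟨r, hr, rfl⟩ := hLf
          show (r * n + 1).Prime
          rw [mul_comm]
          exact h9.2 r hr) (by
          rw [SL_map]
          refine le_trans ?_ hUc
          calc ρ * κ2 * (SD T * (N / L ^ (k + 1))) = ρ * (κ2 * (SD T * (N / L ^ (k + 1)))) := by ring
            _ ≤ _ := by gcongr)
        rw [SL_map] at key
        exact key.mono (min_le_right _ _) (by positivity)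
    · intro T hT _
      rw [mem_filter, mem_powersetCard] at hT
      exact SD_nonneg fun r hr => (hA r (hT.1.1 hr)).1
  linarith

end Pool.Agent.U28.SF
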